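import Pool.Agent.Lib.MP_081cfe_al.Poset

/-!
# From order complexes to the complex generated by a family
-/

namespace Pool.Agent.Lib.MP_081cfe_al

variable {V : Type} [LinearOrder V] {k : Type} [Field k]

/-- vertex of the big complex given by an element of `V` -/
def inV (v : V) : Lex (V ⊕ FS V) := toLex (Sum.inl v)

/-- vertex of the big complex given by a finite set -/
def inF (Q : Finset V) : Lex (V ⊕ FS V) := toLex (Sum.inr ⟨Q⟩)

theorem inV_inj {u v : V} : inV u = inV v ↔ u = v := by
  simp [inV]

theorem inF_inj {Q R : Finset V} : inF Q = inF R ↔ Q = R := by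
  simp [inF]

theorem inV_ne_inF (v : V) (Q : Finset V) : inV v ≠ inF Q := by
  simp [inV, inF]

theorem cases_U (x : Lex (V ⊕ FS V)) : (∃ v, x = inV v) ∨ ∃ Q, x = inF Q := by
  rcases h : ofLex x with v | Q
  · left; exact ⟨v, by rw [inV, ← h]; rfl⟩
  · right; exact ⟨Q.s, by rw [inF, ← h]; rfl⟩

/-- The mapping cylinder. -/
def Mid (P P1 : Finset (Finset V)) (Y : Finset V) : Set (Finset (Lex (V ⊕ FS V))) :=
  {T | (∀ v, inV v ∈ T → v ∈ Y) ∧ (∀ Q, inF Q ∈ T → Q ∈ P1) ∧
    (∀ Q R, inF Q ∈ T → inF R ∈ T → Q ⊆ R ∨ R ⊆ Q) ∧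
    (∀ v Q, inV v ∈ T → inF Q ∈ T → v ∈ Q) ∧ ∃ R ∈ P, ∀ v, inV v ∈ T → v ∈ R}

theorem isCplx_mid (P P1 : Finset (Finset V)) (Y : Finset V) : IsCplx (Mid P P1 Y) := by
  rintro σ ⟨h1, h2, h3, h4, R, hR, h5⟩ τ hτ
  exact ⟨fun v hv => h1 v (hτ hv), fun Q hQ => h2 Q (hτ hQ),
    fun Q R hQ hR => h3 Q R (hτ hQ) (hτ hR), fun v Q hv hQ => h4 v Q (hτ hv) (hτ hQ),
    R, hR, fun v hv => h5 v (hτ hv)⟩

/-- the order embedding of `V` -/
def embV : V ↪o Lex (V ⊕ FS V) where
  toFun := inV
  inj' := fun _ _ h => inV_inj.1 h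
  map_rel_iff' := by intro a b; exact Sum.Lex.inl_le_inl_iff

/-- the order embedding of `FS V` -/
def embF : FS V ↪o Lex (V ⊕ FS V) where
  toFun := fun a => inF a.s
  inj' := fun _ _ h => FS.ext' (inF_inj.1 h)
  map_rel_iff' := by intro a b; exact Sum.Lex.inr_le_inr_iff

theorem mid_empty_right {P : Finset (Finset V)} (hP : P.Nonempty) :
    Mid P P ∅ = (fun C : Finset (FS V) => C.map embF.toEmbedding) '' (Chn P) := by
  ext T
  constructor
  · rintro ⟨h1, h2, h3, h4, _⟩
    refine ⟨T.preimage embF (fun _ _ _ _ h => embF.injective h), ⟨?_, ?_⟩, ?_⟩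
    · intro a ha
      have ha' : embF a ∈ T := Finset.mem_preimage.1 ha
      exact h2 _ ha'
    · intro a ha b hb
      have ha' : embF a ∈ T := Finset.mem_preimage.1 ha
      have hb' : embF b ∈ T := Finset.mem_preimage.1 hb
      exact h3 _ _ ha' hb'
    · ext x
      simp only [Finset.mem_map]
      constructor
      · rintro ⟨a, ha, rfl⟩
        exact Finset.mem_preimage.1 ha
      · intro hx
        rcases cases_U x with ⟨v, rfl⟩ | ⟨Q, rfl⟩
        · exact absurd (h1 v hx) (Finset.notMem_empty v)
        · exact ⟨⟨Q⟩, Finset.mem_preimage.2 hx, rfl⟩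
  · rintro ⟨C, hC, rfl⟩
    have hV : ∀ v, inV v ∉ C.map embF.toEmbedding := by
      intro v hv
      obtain ⟨a, _, ha⟩ := Finset.mem_map.1 hv
      exact inV_ne_inF v a.s ha.symm
    have hF : ∀ Q, inF Q ∈ C.map embF.toEmbedding → (⟨Q⟩ : FS V) ∈ C := by
      intro Q hQ
      obtain ⟨a, ha, ha'⟩ := Finset.mem_map.1 hQ
      have : a = ⟨Q⟩ := FS.ext' (inF_inj.1 ha')
      rwa [← this]
    obtain ⟨R, hR⟩ := hP
    exact ⟨fun v hv => absurd hv (hV v), fun Q hQ => hC.1 _ (hF Q hQ),
      fun Q R hQ hR => hC.2 _ (hF Q hQ) _ (hF R hR), fun v Q hv => absurd hv (hV v),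
      R, hR, fun v hv => absurd hv (hV v)⟩

theorem mid_empty_left (P : Finset (Finset V)) (Y : Finset V) :
    Mid P ∅ Y = (fun C : Finset V => C.map embV.toEmbedding) '' {S | S ⊆ Y ∧ ∃ R ∈ P, S ⊆ R} := by
  ext T
  constructor
  · rintro ⟨h1, h2, h3, h4, R, hR, h5⟩
    refine ⟨T.preimage embV (fun _ _ _ _ h => embV.injective h), ⟨?_, R, hR, ?_⟩, ?_⟩
    · intro v hv
      exact h1 v (Finset.mem_preimage.1 hv)
    · intro v hv
      exact h5 v (Finset.mem_preimage.1 hv)
    · ext x
      simp only [Finset.mem_map]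
      constructor
      · rintro ⟨a, ha, rfl⟩; exact Finset.mem_preimage.1 ha
      · intro hx
        rcases cases_U x with ⟨v, rfl⟩ | ⟨Q, rfl⟩
        · exact ⟨v, Finset.mem_preimage.2 hx, rfl⟩
        · exact absurd (h2 Q hx) (Finset.notMem_empty Q)
  · rintro ⟨C, ⟨hC, R, hR, hCR⟩, rfl⟩
    have hF : ∀ Q, inF Q ∉ C.map embV.toEmbedding := by
      intro Q hv
      obtain ⟨a, _, ha⟩ := Finset.mem_map.1 hv
      exact inV_ne_inF a Q ha
    have hV : ∀ v, inV v ∈ C.map embV.toEmbedding → v ∈ C := by
      intro v hv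
      obtain ⟨a, ha, ha'⟩ := Finset.mem_map.1 hv
      have : a = v := inV_inj.1 ha'
      rwa [← this]
    exact ⟨fun v hv => hC (hV v hv), fun Q hQ => absurd hQ (hF Q),
      fun Q R hQ => absurd hQ (hF Q), fun v Q _ hQ => absurd hQ (hF Q),
      R, hR, fun v hv => hCR (hV v hv)⟩

theorem mid_up (Y : Finset V) : ∀ (P : Finset (Finset V)) (t : ℕ),
    (∀ S, S ⊆ Y → S.Nonempty → (∃ R ∈ P, S ⊆ R) →
      Van k (Chn (P.filter (fun R => S ⊆ R))) 0) →
    Van k (Chn P) t → Van k (Mid P P Y) t := by
  induction Y using Finset.induction_on with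
  | empty =>
    intro P t _ h
    rcases P.eq_empty_or_nonempty with rfl | hP
    · have : Mid (∅ : Finset (Finset V)) ∅ ∅ = ∅ := by
        ext T; simp [Mid]
      rw [this]; exact van_empty t
    · rw [mid_empty_right hP, van_map_iff]; exact h
  | insert v Y' hv ih =>
    intro P t hfib h
    refine van_of_del_lk (isCplx_mid _ _ _) (inV v) ?_ ?_
    · have : del (Mid P P (insert v Y')) (inV v) = Mid P P Y' := by
        ext T
        constructor
        · rintro ⟨⟨h1, h2, h3, h4, h5⟩, hvT⟩
          refine ⟨fun u hu => ?_, h2, h3, h4, h5⟩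
          rcases Finset.mem_insert.1 (h1 u hu) with rfl | h'
          · exact absurd hu hvT
          · exact h'
        · rintro ⟨h1, h2, h3, h4, h5⟩
          exact ⟨⟨fun u hu => Finset.mem_insert_of_mem (h1 u hu), h2, h3, h4, h5⟩,
            fun hvT => hv (h1 v hvT)⟩
      rw [this]
      exact ih P t (fun S hS => hfib S (hS.trans (Finset.subset_insert _ _))) h
    · have : lk (Mid P P (insert v Y')) (inV v)
          = Mid (P.filter (fun R => v ∈ R)) (P.filter (fun R => v ∈ R)) Y' := by
        ext T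
        constructor
        · rintro ⟨hvT, h1, h2, h3, h4, R, hR, h5⟩
          refine ⟨fun u hu => ?_, fun Q hQ => Finset.mem_filter.2
            ⟨h2 Q (Finset.mem_insert_of_mem hQ),
              h4 v Q (Finset.mem_insert_self _ _) (Finset.mem_insert_of_mem hQ)⟩,
            fun Q R hQ hR => h3 Q R (Finset.mem_insert_of_mem hQ) (Finset.mem_insert_of_mem hR),
            fun u Q hu hQ => h4 u Q (Finset.mem_insert_of_mem hu) (Finset.mem_insert_of_mem hQ),
            R, Finset.mem_filter.2 ⟨hR, h5 v (Finset.mem_insert_self _ _)⟩,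
            fun u hu => h5 u (Finset.mem_insert_of_mem hu)⟩
          rcases Finset.mem_insert.1 (h1 u (Finset.mem_insert_of_mem hu)) with rfl | h'
          · exact absurd hu hvT
          · exact h'
        · rintro ⟨h1, h2, h3, h4, R, hR, h5⟩
          rw [Finset.mem_filter] at hR
          refine ⟨fun hvT => hv (h1 v hvT), fun u hu => ?_, fun Q hQ => ?_, fun Q R hQ hR => ?_,
            fun u Q hu hQ => ?_, R, hR.1, fun u hu => ?_⟩
          · rcases Finset.mem_insert.1 hu with h | h
            · rw [inV_inj.1 h]; exact Finset.mem_insert_self _ _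
            · exact Finset.mem_insert_of_mem (h1 u h)
          · rcases Finset.mem_insert.1 hQ with h | h
            · exact absurd h.symm (inV_ne_inF _ _)
            · exact (Finset.mem_filter.1 (h2 Q h)).1
          · rcases Finset.mem_insert.1 hQ with h | h
            · exact absurd h.symm (inV_ne_inF _ _)
            rcases Finset.mem_insert.1 hR with h' | h'
            · exact absurd h'.symm (inV_ne_inF _ _)
            exact h3 Q R h h'
          · rcases Finset.mem_insert.1 hQ with h | h
            · exact absurd h.symm (inV_ne_inF _ _)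
            rcases Finset.mem_insert.1 hu with h' | h'
            · rw [inV_inj.1 h']; exact (Finset.mem_filter.1 (h2 Q h)).2
            · exact h4 u Q h' h
          · rcases Finset.mem_insert.1 hu with h | h
            · rw [inV_inj.1 h]; exact hR.2
            · exact h5 u h
      rw [this]
      by_cases hne : ∃ R ∈ P, v ∈ R
      · refine (ih (P.filter (fun R => v ∈ R)) 0 ?_ ?_).mono (Nat.zero_le _)
        · rintro S hS _ ⟨R, hR, hSR⟩
          rw [Finset.mem_filter] at hR
          have h' := hfib (insert v S) (Finset.insert_subset_insert _ hS) (Finset.insert_nonempty _ _)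
            ⟨R, hR.1, Finset.insert_subset hR.2 hSR⟩
          have : (P.filter (fun R => v ∈ R)).filter (fun R => S ⊆ R)
              = P.filter (fun R => insert v S ⊆ R) := by
            ext R
            simp only [Finset.mem_filter, Finset.insert_subset_iff, and_assoc]
          rw [this]; exact h'
        · obtain ⟨R, hR, hvR⟩ := hne
          have h' := hfib {v} (by simp) (Finset.singleton_nonempty v)
            ⟨R, hR, by simpa using hvR⟩
          simpa using h'
      · have hemp : P.filter (fun R => v ∈ R) = ∅ := by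
          rw [Finset.filter_eq_empty_iff]
          exact fun R hR hvR => hne ⟨R, hR, hvR⟩
        rw [hemp]
        have : Mid (∅ : Finset (Finset V)) ∅ Y' = ∅ := by
          ext T; simp [Mid]
        rw [this]; exact van_empty _

theorem mid_down (P : Finset (Finset V)) (Y : Finset V) (h1 : ∀ Q ∈ P, ∃ v ∈ Q, v ∈ Y) (t : ℕ)
    (n : ℕ) : ∀ P1 : Finset (Finset V), P1.card = n → P1 ⊆ P →
    Van k (Mid P P1 Y) t → Van k (Mid P ∅ Y) t := by
  induction n with
  | zero =>
    intro P1 hP1 _ h
    rw [Finset.card_eq_zero.1 hP1] at h; exact h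
  | succ n ih =>
    intro P1 hP1 hsub h
    obtain ⟨Q, hQ, hmin⟩ := Finset.exists_min_image P1 Finset.card (Finset.card_pos.1 (by omega))
    refine ih (P1.erase Q) (by rw [Finset.card_erase_of_mem hQ, hP1]; rfl)
      ((Finset.erase_subset _ _).trans hsub) ?_
    have hdel : del (Mid P P1 Y) (inF Q) = Mid P (P1.erase Q) Y := by
      ext T
      constructor
      · rintro ⟨⟨h1, h2, h3, h4, h5⟩, hQT⟩
        refine ⟨h1, fun R hR => Finset.mem_erase.2 ⟨?_, h2 R hR⟩, h3, h4, h5⟩
        rintro rfl; exact hQT hR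
      · rintro ⟨h1, h2, h3, h4, h5⟩
        exact ⟨⟨h1, fun R hR => Finset.mem_of_mem_erase (h2 R hR), h3, h4, h5⟩,
          fun hQT => (Finset.mem_erase.1 (h2 Q hQT)).1 rfl⟩
    rw [← hdel]
    refine van_del (isCplx_mid _ _ _) (inF Q) h ?_
    obtain ⟨v, hvQ, hvY⟩ := h1 Q (hsub hQ)
    refine van_cone (inV v) ?_ t
    rintro T ⟨hQT, g1, g2, g3, g4, _⟩
    refine ⟨?_, ?_, ?_, ?_, ?_, Q, hsub hQ, ?_⟩
    · intro h'
      rcases Finset.mem_insert.1 h' with h' | h'
      · exact inV_ne_inF _ _ h'.symm
      · exact hQT h'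
    · intro u hu
      rcases Finset.mem_insert.1 hu with h' | h'
      · exact absurd h' (inV_ne_inF _ _)
      rcases Finset.mem_insert.1 h' with h' | h'
      · rw [inV_inj.1 h']; exact hvY
      · exact g1 u (Finset.mem_insert_of_mem h')
    · intro R hR
      rcases Finset.mem_insert.1 hR with h' | h'
      · rw [inF_inj.1 h']; exact hQ
      rcases Finset.mem_insert.1 h' with h' | h'
      · exact absurd h'.symm (inV_ne_inF _ _)
      · exact g2 R (Finset.mem_insert_of_mem h')
    · intro R S hR hS
      have aux : ∀ R, inF R ∈ insert (inF Q) (insert (inV v) T) → inF R ∈ insert (inF Q) T := by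
        intro R hR
        rcases Finset.mem_insert.1 hR with h' | h'
        · exact h' ▸ Finset.mem_insert_self _ _
        rcases Finset.mem_insert.1 h' with h' | h'
        · exact absurd h'.symm (inV_ne_inF _ _)
        · exact Finset.mem_insert_of_mem h'
      exact g3 R S (aux R hR) (aux S hS)
    · intro u R hu hR
      have hR' : inF R ∈ insert (inF Q) T := by
        rcases Finset.mem_insert.1 hR with h' | h'
        · exact h' ▸ Finset.mem_insert_self _ _
        rcases Finset.mem_insert.1 h' with h' | h'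
        · exact absurd h'.symm (inV_ne_inF _ _)
        · exact Finset.mem_insert_of_mem h'
      rcases Finset.mem_insert.1 hu with h' | h'
      · exact absurd h' (inV_ne_inF _ _)
      rcases Finset.mem_insert.1 h' with h' | h'
      · rw [inV_inj.1 h']
        rcases Finset.mem_insert.1 hR' with h'' | h''
        · rw [inF_inj.1 h'']; exact hvQ
        · have hRQ : R ≠ Q := by rintro rfl; exact hQT h''
          rcases g3 R Q hR' (Finset.mem_insert_self _ _) with hc | hc
          · exfalso
            have := Finset.card_lt_card (lt_of_le_of_ne hc hRQ)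
            have := hmin R (g2 R hR')
            omega
          · exact hc hvQ
      · exact g4 u R (Finset.mem_insert_of_mem h') hR'
    · intro u hu
      rcases Finset.mem_insert.1 hu with h' | h'
      · exact absurd h' (inV_ne_inF _ _)
      rcases Finset.mem_insert.1 h' with h' | h'
      · rw [inV_inj.1 h']; exact hvQ
      · exact g4 u Q (Finset.mem_insert_of_mem h') (Finset.mem_insert_self _ _)

/-- **Bridge**: vanishing for the order complex of a family `P` with acyclic fibres gives
vanishing for the simplicial complex generated by `P`. -/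
theorem van_bridge (P : Finset (Finset V)) (Y : Finset V) (t : ℕ)
    (h1 : ∀ Q ∈ P, ∃ v ∈ Q, v ∈ Y)
    (h2 : ∀ S, S ⊆ Y → S.Nonempty → (∃ R ∈ P, S ⊆ R) →
      Van k (Chn (P.filter (fun R => S ⊆ R))) 0)
    (h : Van k (Chn P) t) : Van k {S : Finset V | S ⊆ Y ∧ ∃ R ∈ P, S ⊆ R} t := by
  have h3 := mid_down P Y h1 t P.card P rfl subset_rfl (mid_up Y P t h2 h)
  rw [mid_empty_left, van_map_iff] at h3
  exact h3

end Pool.Agent.Lib.MP_081cfe_al
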