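import Pool.Agent.Lib.MP_081cfe_al.Defs

/-!
# Toolkit for reduced simplicial cohomology: vanishing rules
-/

namespace Pool.Agent.Lib.MP_081cfe_al

variable {α : Type} [LinearOrder α] {k : Type} [Field k]

/-! ### signs -/

theorem sg_mul_self (v : α) (τ : Finset α) : sg v τ * sg v τ = 1 := by
  unfold sg
  rw [← mul_pow]; norm_num

theorem sg_smul_self (v : α) (τ : Finset α) {M : Type} [AddCommGroup M] (x : M) :
    sg v τ • sg v τ • x = x := by
  rw [smul_smul, sg_mul_self, one_smul]

theorem sg_smul_eq_zero {v : α} {τ : Finset α} {M : Type} [AddCommGroup M] {x : M}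
    (h : sg v τ • x = 0) : x = 0 := by
  rw [← sg_smul_self v τ x, h, smul_zero]

theorem sg_erase_lt {u v : α} {τ : Finset α} (hu : u ∈ τ) (h : u < v) :
    sg v (τ.erase u) = - sg v τ := by
  unfold sg
  have h1 : (τ.filter (fun x => x < v)).card = ((τ.erase u).filter (fun x => x < v)).card + 1 := by
    have : τ.filter (fun x => x < v) = insert u ((τ.erase u).filter (fun x => x < v)) := by
      ext x
      simp only [Finset.mem_filter, Finset.mem_insert, Finset.mem_erase]
      constructor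
      · rintro ⟨hx, hxv⟩
        by_cases hxu : x = u
        · exact Or.inl hxu
        · exact Or.inr ⟨⟨hxu, hx⟩, hxv⟩
      · rintro (rfl | ⟨⟨_, hx⟩, hxv⟩)
        · exact ⟨hu, h⟩
        · exact ⟨hx, hxv⟩
    rw [this, Finset.card_insert_of_notMem (by simp)]
  rw [h1, pow_succ]; ring

theorem sg_erase_ge {u v : α} {τ : Finset α} (h : ¬ u < v) :
    sg v (τ.erase u) = sg v τ := by
  unfold sg
  congr 2
  ext x
  simp only [Finset.mem_filter, Finset.mem_erase]
  constructor
  · rintro ⟨⟨_, hx⟩, hxv⟩; exact ⟨hx, hxv⟩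
  · rintro ⟨hx, hxv⟩
    exact ⟨⟨fun e => h (e ▸ hxv), hx⟩, hxv⟩

theorem sg_swap {u v : α} {τ : Finset α} (hu : u ∈ τ) (hv : v ∈ τ) (huv : u ≠ v) :
    sg u τ * sg v (τ.erase u) = - (sg v τ * sg u (τ.erase v)) := by
  rcases lt_or_gt_of_ne huv with h | h
  · rw [sg_erase_lt hu h, sg_erase_ge (not_lt.2 h.le)]; ring
  · rw [sg_erase_lt hv h, sg_erase_ge (not_lt.2 h.le)]; ring

/-! ### the coboundary -/

theorem cob_add (a b : Finset α → k) (τ : Finset α) : cob (a + b) τ = cob a τ + cob b τ := by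
  simp [cob, Finset.sum_add_distrib, smul_add]

theorem cob_sub (a b : Finset α → k) (τ : Finset α) : cob (a - b) τ = cob a τ - cob b τ := by
  simp [cob, Finset.sum_sub_distrib, smul_sub]

theorem cob_congr {a b : Finset α → k} {τ : Finset α} (h : ∀ v ∈ τ, a (τ.erase v) = b (τ.erase v)) :
    cob a τ = cob b τ := by
  unfold cob
  exact Finset.sum_congr rfl fun v hv => by rw [h v hv]

theorem cob_cob (c : Finset α → k) (τ : Finset α) : cob (cob c) τ = 0 := by
  unfold cob
  simp_rw [Finset.smul_sum, smul_smul]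
  rw [Finset.sum_sigma']
  refine Finset.sum_involution (fun x _ => ⟨x.2, x.1⟩) ?_ ?_ ?_ ?_
  · rintro ⟨v, u⟩ h
    simp only [Finset.mem_sigma, Finset.mem_erase] at h
    obtain ⟨hv, huv, hu⟩ := h
    dsimp only
    rw [Finset.erase_right_comm, sg_swap hv hu (Ne.symm huv), neg_smul, neg_add_cancel]
  · rintro ⟨v, u⟩ h _ h2
    simp only [Finset.mem_sigma, Finset.mem_erase] at h
    simp only [Sigma.mk.injEq, heq_eq_eq] at h2
    exact h.2.1 h2.1
  · rintro ⟨v, u⟩ h
    simp only [Finset.mem_sigma, Finset.mem_erase] at h ⊢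
    exact ⟨h.2.2, Ne.symm h.2.1, h.1⟩
  · rintro ⟨v, u⟩ h
    rfl

/-- The cochain supported on the sets containing `v`, given by `e` on the link. -/
def up (v : α) (e : Finset α → k) (τ : Finset α) : k :=
  if v ∈ τ then sg v τ • e (τ.erase v) else 0

theorem cob_up_mem {v : α} {τ : Finset α} (hv : v ∈ τ) (e : Finset α → k) :
    cob (up v e) τ = - (sg v τ • cob e (τ.erase v)) := by
  unfold cob
  rw [← Finset.add_sum_erase _ _ hv]
  have h0 : up v e (τ.erase v) = 0 := by simp [up]
  rw [h0, smul_zero, zero_add, Finset.smul_sum, ← Finset.sum_neg_distrib]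
  refine Finset.sum_congr rfl fun u hu => ?_
  have hu' := Finset.mem_erase.1 hu
  have hvu : v ∈ τ.erase u := Finset.mem_erase.2 ⟨Ne.symm hu'.1, hv⟩
  rw [up, if_pos hvu, smul_smul, smul_smul, sg_swap hu'.2 hv hu'.1, neg_smul,
    Finset.erase_right_comm]

theorem cob_up_notMem {v : α} {τ : Finset α} (hv : v ∉ τ) (e : Finset α → k) :
    cob (up v e) τ = 0 := by
  unfold cob
  refine Finset.sum_eq_zero fun u _ => ?_
  rw [up, if_neg (fun h => hv (Finset.mem_of_mem_erase h)), smul_zero]

/-- the desuspension of a cochain at `v`. -/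
def down (v : α) (c : Finset α → k) (σ : Finset α) : k :=
  if v ∈ σ then 0 else sg v (insert v σ) • c (insert v σ)

theorem up_down {v : α} {τ : Finset α} (hv : v ∈ τ) (c : Finset α → k) :
    up v (down v c) τ = c τ := by
  unfold up down
  rw [if_pos hv, if_neg (by simp), Finset.insert_erase hv, sg_smul_self]

theorem cob_eq_of_mem {v : α} {τ : Finset α} (hv : v ∈ τ) (c : Finset α → k) :
    cob c τ = sg v τ • (c (τ.erase v) - cob (down v c) (τ.erase v)) := by
  have h1 : cob (up v (down v c)) τ = - (sg v τ • cob (down v c) (τ.erase v)) := cob_up_mem hv _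
  have h2 : cob c τ = sg v τ • c (τ.erase v) + cob (up v (down v c)) τ := by
    unfold cob
    rw [← Finset.add_sum_erase _ _ hv, ← Finset.add_sum_erase τ (fun u => sg u τ • up v (down v c) (τ.erase u)) hv]
    have h0 : up v (down v c) (τ.erase v) = 0 := by simp [up]
    rw [h0, smul_zero, zero_add]
    congr 1
    refine Finset.sum_congr rfl fun u hu => ?_
    have hu' := Finset.mem_erase.1 hu
    rw [up_down (Finset.mem_erase.2 ⟨Ne.symm hu'.1, hv⟩)]
  rw [h2, h1, smul_sub, sub_eq_add_neg]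

/-! ### vanishing rules -/

theorem Van.mono {K : Set (Finset α)} {s t : ℕ} (h : Van k K s) (hst : s ≤ t) : Van k K t :=
  fun p hp => h p (hst.trans hp)

/-- dimension rule -/
theorem van_of_card {K : Set (Finset α)} {t : ℕ} (h : ∀ τ ∈ K, τ.card < t) : Van k K t := by
  intro p hp c _
  refine ⟨0, fun τ hτ hc => ?_⟩
  have := h τ hτ
  omega

theorem van_empty (t : ℕ) : Van k (∅ : Set (Finset α)) t :=
  van_of_card (fun τ h => absurd h (Set.notMem_empty τ))

/-- cone rule -/
theorem van_cone {K : Set (Finset α)} (v : α) (h : ∀ τ ∈ K, insert v τ ∈ K) (t : ℕ) :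
    Van k K t := by
  intro p _ c hc
  refine ⟨down v c, fun τ hτ hp => ?_⟩
  by_cases hv : v ∈ τ
  · have hz : cob (down v c) τ = sg v τ • down v c (τ.erase v) := by
      unfold cob
      rw [← Finset.add_sum_erase _ _ hv]
      rw [Finset.sum_eq_zero, add_zero]
      intro u hu
      have hu' := Finset.mem_erase.1 hu
      rw [down, if_pos (Finset.mem_erase.2 ⟨Ne.symm hu'.1, hv⟩), smul_zero]
    rw [hz, down, if_neg (by simp), Finset.insert_erase hv, sg_smul_self]
  · have h1 := hc (insert v τ) (h τ hτ) (by rw [Finset.card_insert_of_notMem hv, hp])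
    rw [cob_eq_of_mem (Finset.mem_insert_self v τ), Finset.erase_insert hv] at h1
    have h2 := sg_smul_eq_zero h1
    exact (sub_eq_zero.1 h2).symm

/-- deletion of a vertex -/
def del (K : Set (Finset α)) (v : α) : Set (Finset α) := {τ | τ ∈ K ∧ v ∉ τ}

/-- link of a vertex -/
def lk (K : Set (Finset α)) (v : α) : Set (Finset α) := {τ | v ∉ τ ∧ insert v τ ∈ K}

/-- vertex rule -/
theorem van_of_del_lk {K : Set (Finset α)} (hK : IsCplx K) (v : α) {t : ℕ}
    (h1 : Van k (del K v) t) (h2 : Van k (lk K v) (t - 1)) : Van k K t := by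
  intro p hp c hc
  obtain ⟨b1, hb1⟩ := h1 p hp c (fun τ hτ hcard => hc τ hτ.1 hcard)
  set c' : Finset α → k := c - cob b1 with hc'
  have hcoc : ∀ τ ∈ K, τ.card = p + 1 → cob c' τ = 0 := by
    intro τ hτ hcard
    rw [hc', cob_sub, cob_cob, sub_zero, hc τ hτ hcard]
  have hdel : ∀ τ ∈ K, v ∉ τ → τ.card = p → c' τ = 0 := by
    intro τ hτ hv hcard
    rw [hc', Pi.sub_apply, hb1 τ ⟨hτ, hv⟩ hcard, sub_self]
  rcases Nat.eq_zero_or_pos p with hp0 | hp0
  · refine ⟨b1, fun τ hτ hcard => ?_⟩
    have hτ0 : τ = ∅ := Finset.card_eq_zero.1 (by omega)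
    have := hdel τ hτ (by rw [hτ0]; simp) hcard
    rw [hc', Pi.sub_apply, sub_eq_zero] at this
    exact this.symm
  · have hcoc2 : ∀ σ ∈ lk K v, σ.card = (p - 1) + 1 → cob (down v c') σ = 0 := by
      intro σ hσ hcard
      have hcard' : σ.card = p := by omega
      have hσK : σ ∈ K := hK _ hσ.2 _ (Finset.subset_insert _ _)
      have h3 := hcoc (insert v σ) hσ.2 (by rw [Finset.card_insert_of_notMem hσ.1, hcard'])
      rw [cob_eq_of_mem (Finset.mem_insert_self v σ), Finset.erase_insert hσ.1] at h3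
      have h4 := sg_smul_eq_zero h3
      rw [hdel σ hσK hσ.1 hcard', zero_sub, neg_eq_zero] at h4
      exact h4
    obtain ⟨b2, hb2⟩ := h2 (p - 1) (by omega) (down v c') hcoc2
    refine ⟨b1 - up v b2, fun τ hτ hcard => ?_⟩
    rw [cob_sub]
    by_cases hv : v ∈ τ
    · rw [cob_up_mem hv, hb2 (τ.erase v)
        ⟨by simp, by rw [Finset.insert_erase hv]; exact hτ⟩
        (by rw [Finset.card_erase_of_mem hv, hcard])]
      have h5 : sg v τ • down v c' (τ.erase v) = c' τ := by
        have := up_down hv c'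
        rwa [up, if_pos hv] at this
      rw [h5, hc', Pi.sub_apply]; ring
    · rw [cob_up_notMem hv, sub_zero]
      have := hdel τ hτ hv hcard
      rw [hc', Pi.sub_apply, sub_eq_zero] at this
      exact this.symm

/-- reverse vertex rule -/
theorem van_del {K : Set (Finset α)} (hK : IsCplx K) (v : α) {t : ℕ}
    (h1 : Van k K t) (h2 : Van k (lk K v) t) : Van k (del K v) t := by
  intro p hp c hc
  have hlkcoc : ∀ σ ∈ lk K v, σ.card = p + 1 → cob c σ = 0 := fun σ hσ hcard =>
    hc σ ⟨hK _ hσ.2 _ (Finset.subset_insert _ _), hσ.1⟩ hcard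
  obtain ⟨b2, hb2⟩ := h2 p hp c hlkcoc
  let c0 : Finset α → k := fun τ => if v ∈ τ then 0 else c τ
  have hc0 : ∀ τ, v ∈ τ → cob c0 τ = sg v τ • c (τ.erase v) := by
    intro τ hv
    unfold cob
    rw [← Finset.add_sum_erase _ _ hv, Finset.sum_eq_zero, add_zero]
    · simp [c0]
    · intro u hu
      have hu' := Finset.mem_erase.1 hu
      simp only [c0]
      rw [if_pos (Finset.mem_erase.2 ⟨Ne.symm hu'.1, hv⟩), smul_zero]
  have hc0' : ∀ τ, v ∉ τ → cob c0 τ = cob c τ := by
    intro τ hv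
    refine cob_congr fun u _ => ?_
    simp only [c0]
    rw [if_neg (fun h => hv (Finset.mem_of_mem_erase h))]
  obtain ⟨b, hb⟩ := h1 p hp (c0 + up v b2) (by
    intro τ hτ hcard
    rw [cob_add]
    by_cases hv : v ∈ τ
    · rw [hc0 τ hv, cob_up_mem hv, hb2 (τ.erase v)
        ⟨by simp, by rw [Finset.insert_erase hv]; exact hτ⟩
        (by rw [Finset.card_erase_of_mem hv, hcard]; rfl)]
      exact add_neg_cancel _
    · rw [hc0' τ hv, cob_up_notMem hv, add_zero]
      exact hc τ ⟨hτ, hv⟩ hcard)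
  refine ⟨b, fun τ hτ hcard => ?_⟩
  rw [hb τ hτ.1 hcard]
  simp [c0, up, hτ.2]

/-- `K₁ ∪ v * K₂` -/
def join (v : α) (A B : Set (Finset α)) : Set (Finset α) :=
  {τ | (v ∉ τ ∧ τ ∈ A) ∨ (v ∈ τ ∧ τ.erase v ∈ B)}

/-- triple rule -/
theorem van_join {v : α} {K1 K2 K3 : Set (Finset α)} (h32 : K3 ⊆ K2) (h21 : K2 ⊆ K1)
    {t : ℕ} (h1 : Van k (join v K1 K3) t) (h2 : Van k (join v K2 K3) (t - 1)) :
    Van k (join v K1 K2) t := by
  intro p hp c hc
  obtain ⟨b1, hb1⟩ := h1 p hp c (fun τ hτ hcard => hc τ (by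
    rcases hτ with h | h
    · exact Or.inl h
    · exact Or.inr ⟨h.1, h32 h.2⟩) hcard)
  set c' : Finset α → k := c - cob b1 with hc'
  have hcoc : ∀ τ ∈ join v K1 K2, τ.card = p + 1 → cob c' τ = 0 := by
    intro τ hτ hcard
    rw [hc', cob_sub, cob_cob, sub_zero, hc τ hτ hcard]
  have hdel : ∀ τ ∈ join v K1 K3, τ.card = p → c' τ = 0 := by
    intro τ hτ hcard
    rw [hc', Pi.sub_apply, hb1 τ hτ hcard, sub_self]
  rcases Nat.eq_zero_or_pos p with hp0 | hp0
  · refine ⟨b1, fun τ hτ hcard => ?_⟩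
    have hτ0 : τ = ∅ := Finset.card_eq_zero.1 (by omega)
    have hmem : τ ∈ join v K1 K3 := by
      rcases hτ with h | h
      · exact Or.inl h
      · rw [hτ0] at h; simp at h
    exact hb1 τ hmem hcard
  · have hcoc2 : ∀ σ ∈ join v K2 K3, σ.card = (p - 1) + 1 → cob (down v c') σ = 0 := by
      intro σ hσ hcard
      have hcard' : σ.card = p := by omega
      rcases hσ with ⟨hv, hσ⟩ | ⟨hv, hσ⟩
      · have h3 := hcoc (insert v σ) (Or.inr ⟨Finset.mem_insert_self _ _, by
          rw [Finset.erase_insert hv]; exact hσ⟩)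
          (by rw [Finset.card_insert_of_notMem hv, hcard'])
        rw [cob_eq_of_mem (Finset.mem_insert_self v σ), Finset.erase_insert hv] at h3
        have h4 := sg_smul_eq_zero h3
        rw [hdel σ (Or.inl ⟨hv, h21 hσ⟩) hcard', zero_sub, neg_eq_zero] at h4
        exact h4
      · have hz : cob (down v c') σ = sg v σ • down v c' (σ.erase v) := by
          unfold cob
          rw [← Finset.add_sum_erase _ _ hv, Finset.sum_eq_zero, add_zero]
          intro u hu
          have hu' := Finset.mem_erase.1 hu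
          rw [down, if_pos (Finset.mem_erase.2 ⟨Ne.symm hu'.1, hv⟩), smul_zero]
        rw [hz, down, if_neg (by simp), Finset.insert_erase hv,
          hdel σ (Or.inr ⟨hv, hσ⟩) hcard', smul_zero, smul_zero]
    obtain ⟨b2, hb2⟩ := h2 (p - 1) (by omega) (down v c') hcoc2
    refine ⟨b1 - up v b2, fun τ hτ hcard => ?_⟩
    rw [cob_sub]
    rcases hτ with ⟨hv, hτ⟩ | ⟨hv, hτ⟩
    · rw [cob_up_notMem hv, sub_zero]
      exact hb1 τ (Or.inl ⟨hv, hτ⟩) hcard
    · rw [cob_up_mem hv, hb2 (τ.erase v) (Or.inl ⟨by simp, hτ⟩)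
        (by rw [Finset.card_erase_of_mem hv, hcard])]
      have h5 : sg v τ • down v c' (τ.erase v) = c' τ := by
        have := up_down hv c'
        rwa [up, if_pos hv] at this
      rw [h5, hc', Pi.sub_apply]; ring

/-! ### transfer along a strictly monotone map -/

section Transfer

variable {β : Type} [LinearOrder β]

theorem sg_map (f : α ↪o β) (v : α) (τ : Finset α) :
    sg (f v) (τ.map f.toEmbedding) = sg v τ := by
  unfold sg
  congr 1
  rw [Finset.filter_map, Finset.card_map]
  congr 1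
  ext x
  simp

theorem cob_map (f : α ↪o β) (c : Finset β → k) (τ : Finset α) :
    cob c (τ.map f.toEmbedding) = cob (fun σ => c (σ.map f.toEmbedding)) τ := by
  unfold cob
  rw [Finset.sum_map]
  refine Finset.sum_congr rfl fun v _ => ?_
  have h1 : (τ.map f.toEmbedding).erase (f.toEmbedding v) = (τ.erase v).map f.toEmbedding := by
    rw [Finset.map_erase]
  rw [h1]
  congr 1
  exact sg_map f v τ

open Classical in
/-- push forward of a cochain -/
noncomputable def push (f : α ↪o β) (c : Finset α → k) (σ : Finset β) : k :=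
  if h : ∃ τ : Finset α, τ.map f.toEmbedding = σ then c h.choose else 0

theorem push_map (f : α ↪o β) (c : Finset α → k) (τ : Finset α) :
    push f c (τ.map f.toEmbedding) = c τ := by
  unfold push
  have h : ∃ τ' : Finset α, τ'.map f.toEmbedding = τ.map f.toEmbedding := ⟨τ, rfl⟩
  rw [dif_pos h]
  congr 1
  exact Finset.map_injective _ h.choose_spec

theorem van_map_iff (f : α ↪o β) (K : Set (Finset α)) (t : ℕ) :
    Van k ((fun τ : Finset α => τ.map f.toEmbedding) '' K) t ↔ Van k K t := by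
  constructor
  · intro h p hp c hc
    obtain ⟨b, hb⟩ := h p hp (push f c) (by
      rintro _ ⟨τ, hτ, rfl⟩ hcard
      rw [Finset.card_map] at hcard
      rw [cob_map]
      have : (fun σ => push f c (σ.map f.toEmbedding)) = c := funext fun σ => push_map f c σ
      rw [this]
      exact hc τ hτ hcard)
    refine ⟨fun σ => b (σ.map f.toEmbedding), fun τ hτ hcard => ?_⟩
    rw [← cob_map, hb _ ⟨τ, hτ, rfl⟩ (by rw [Finset.card_map, hcard]), push_map]
  · intro h p hp c hc
    obtain ⟨b, hb⟩ := h p hp (fun σ => c (σ.map f.toEmbedding)) (by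
      intro τ hτ hcard
      rw [← cob_map]
      exact hc _ ⟨τ, hτ, rfl⟩ (by rw [Finset.card_map, hcard]))
    refine ⟨push f b, ?_⟩
    rintro _ ⟨τ, hτ, rfl⟩ hcard
    rw [Finset.card_map] at hcard
    rw [cob_map]
    have : (fun σ => push f b (σ.map f.toEmbedding)) = b := funext fun σ => push_map f b σ
    rw [this]
    exact hb τ hτ hcard

end Transfer

end Pool.Agent.Lib.MP_081cfe_al
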