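import Pool.Agent.Lib.MP_081cfe_al.Coho

/-!
# Order complexes of finite families of finite sets
-/

namespace Pool.Agent.Lib.MP_081cfe_al

variable {V : Type} [LinearOrder V] {k : Type} [Field k]

/-- Wrapper of `Finset V` carrying a linear order (needed only for signs). -/
structure FS (V : Type) where
  /-- the underlying set -/
  s : Finset V

theorem FS.ext' {a b : FS V} (h : a.s = b.s) : a = b := by
  cases a; cases b; simp_all

noncomputable instance : LinearOrder (FS V) :=
  LinearOrder.lift' (fun x : FS V => toColex x.s)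
    (fun a b h => FS.ext' (toColex.injective h))

/-- The order complex of a finite family of finite sets (ordered by inclusion). -/
def Chn (P : Finset (Finset V)) : Set (Finset (FS V)) :=
  {C | (∀ a ∈ C, a.s ∈ P) ∧ ∀ a ∈ C, ∀ b ∈ C, a.s ⊆ b.s ∨ b.s ⊆ a.s}

theorem isCplx_chn (P : Finset (Finset V)) : IsCplx (Chn P) :=
  fun _ hσ _ hτ => ⟨fun a ha => hσ.1 a (hτ ha), fun a ha b hb => hσ.2 a (hτ ha) b (hτ hb)⟩

/-- elements comparable to `Q` -/
def cmp (P : Finset (Finset V)) (Q : Finset V) : Finset (Finset V) :=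
  (P.erase Q).filter (fun R => R ⊆ Q ∨ Q ⊆ R)

theorem mem_cmp {P : Finset (Finset V)} {Q R : Finset V} :
    R ∈ cmp P Q ↔ R ≠ Q ∧ R ∈ P ∧ (R ⊆ Q ∨ Q ⊆ R) := by
  simp [cmp, and_assoc]

theorem del_chn (P : Finset (Finset V)) (Q : Finset V) :
    del (Chn P) ⟨Q⟩ = Chn (P.erase Q) := by
  ext C
  constructor
  · rintro ⟨h, hQ⟩
    refine ⟨fun a ha => Finset.mem_erase.2 ⟨fun e => hQ ?_, h.1 a ha⟩, h.2⟩
    have : a = ⟨Q⟩ := FS.ext' e
    rwa [← this]
  · rintro h
    refine ⟨⟨fun a ha => Finset.mem_of_mem_erase (h.1 a ha), h.2⟩, fun hQ => ?_⟩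
    exact (Finset.mem_erase.1 (h.1 _ hQ)).1 rfl

theorem lk_chn {P : Finset (Finset V)} {Q : Finset V} (hQ : Q ∈ P) :
    lk (Chn P) ⟨Q⟩ = Chn (cmp P Q) := by
  ext C
  constructor
  · rintro ⟨hQC, h⟩
    refine ⟨fun a ha => mem_cmp.2 ⟨fun e => hQC ?_, h.1 a (Finset.mem_insert_of_mem ha),
      h.2 a (Finset.mem_insert_of_mem ha) ⟨Q⟩ (Finset.mem_insert_self _ _)⟩,
      fun a ha b hb => h.2 a (Finset.mem_insert_of_mem ha) b (Finset.mem_insert_of_mem hb)⟩
    have : a = ⟨Q⟩ := FS.ext' e
    rwa [← this]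
  · rintro h
    refine ⟨fun hQC => (mem_cmp.1 (h.1 _ hQC)).1 rfl, ?_, ?_⟩
    · intro a ha
      rcases Finset.mem_insert.1 ha with rfl | ha
      · exact hQ
      · exact (mem_cmp.1 (h.1 a ha)).2.1
    · intro a ha b hb
      rcases Finset.mem_insert.1 ha with rfl | ha <;> rcases Finset.mem_insert.1 hb with rfl | hb
      · exact Or.inl subset_rfl
      · exact (mem_cmp.1 (h.1 b hb)).2.2.symm
      · exact (mem_cmp.1 (h.1 a ha)).2.2
      · exact h.2 a ha b hb

theorem van_chn_of_erase {P : Finset (Finset V)} {Q : Finset V} (hQ : Q ∈ P) {t : ℕ}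
    (h1 : Van k (Chn (P.erase Q)) t) (h2 : Van k (Chn (cmp P Q)) (t - 1)) :
    Van k (Chn P) t := by
  refine van_of_del_lk (isCplx_chn P) ⟨Q⟩ ?_ ?_
  · rw [del_chn]; exact h1
  · rw [lk_chn hQ]; exact h2

/-- a family with an element comparable to everything is a cone -/
theorem van_chn_cone {P : Finset (Finset V)} {M : Finset V} (hM : M ∈ P)
    (h : ∀ R ∈ P, R ⊆ M ∨ M ⊆ R) (t : ℕ) : Van k (Chn P) t := by
  refine van_cone (K := Chn P) (⟨M⟩ : FS V) ?_ t
  intro C hC
  refine ⟨?_, ?_⟩
  · intro a ha
    rcases Finset.mem_insert.1 ha with rfl | ha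
    · exact hM
    · exact hC.1 a ha
  · intro a ha b hb
    rcases Finset.mem_insert.1 ha with rfl | ha <;> rcases Finset.mem_insert.1 hb with rfl | hb
    · exact Or.inl subset_rfl
    · exact (h _ (hC.1 b hb)).symm
    · exact h _ (hC.1 a ha)
    · exact hC.2 a ha b hb

/-- conical contractibility, upward version -/
theorem van_conicalUp (f : Finset V → Finset V) (M : Finset V) (n : ℕ) :
    ∀ P : Finset (Finset V), (P.filter (fun R => f R ≠ R)).card = n →
    (∀ R ∈ P, f R ∈ P) → (∀ R ∈ P, R ⊆ f R) → (∀ R ∈ P, f (f R) = f R) →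
    (∀ R ∈ P, ∀ R' ∈ P, R ⊆ R' → f R ⊆ f R') → M ∈ P → f M = M → (∀ R ∈ P, M ⊆ f R) →
    ∀ t, Van k (Chn P) t := by
  induction n with
  | zero =>
    intro P hn _ _ _ _ hM _ hMf t
    have hfix : ∀ R ∈ P, f R = R := by
      intro R hR
      by_contra h
      have : R ∈ P.filter (fun R => f R ≠ R) := Finset.mem_filter.2 ⟨hR, h⟩
      rw [Finset.card_eq_zero.1 hn] at this
      simp at this
    exact van_chn_cone hM (fun R hR => Or.inr (by rw [← hfix R hR]; exact hMf R hR)) t
  | succ n ih =>
    intro P hn hfP hle hidem hmono hM hfM hMf t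
    obtain ⟨x, hx, hmax⟩ := Finset.exists_max_image (P.filter (fun R => f R ≠ R)) Finset.card
      (Finset.card_pos.1 (by omega))
    have hxf := hx
    rw [Finset.mem_filter] at hx
    refine van_chn_of_erase hx.1 ?_ ?_
    · refine ih (P.erase x) ?_ ?_ ?_ ?_ ?_ ?_ hfM ?_ t
      · have : (P.erase x).filter (fun R => f R ≠ R) = (P.filter (fun R => f R ≠ R)).erase x := by
          ext R; simp only [Finset.mem_filter, Finset.mem_erase, and_assoc]
        rw [this, Finset.card_erase_of_mem hxf, hn]; rfl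
      · intro R hR
        have hR' := Finset.mem_of_mem_erase hR
        refine Finset.mem_erase.2 ⟨fun e => hx.2 ?_, hfP R hR'⟩
        rw [← e]; exact hidem R hR'
      · exact fun R hR => hle R (Finset.mem_of_mem_erase hR)
      · exact fun R hR => hidem R (Finset.mem_of_mem_erase hR)
      · exact fun R hR R' hR' => hmono R (Finset.mem_of_mem_erase hR) R' (Finset.mem_of_mem_erase hR')
      · exact Finset.mem_erase.2 ⟨fun e => hx.2 (by rw [← e, hfM]), hM⟩
      · exact fun R hR => hMf R (Finset.mem_of_mem_erase hR)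
    · refine van_chn_cone (M := f x) (mem_cmp.2 ⟨hx.2, hfP x hx.1, Or.inr (hle x hx.1)⟩) ?_ _
      intro R hR
      obtain ⟨hRx, hRP, h | h⟩ := mem_cmp.1 hR
      · exact Or.inl (h.trans (hle x hx.1))
      · right
        have hss : x ⊂ R := lt_of_le_of_ne h (Ne.symm hRx)
        have hfR : f R = R := by
          by_contra hne
          have := hmax R (Finset.mem_filter.2 ⟨hRP, hne⟩)
          have := Finset.card_lt_card hss
          omega
        rw [← hfR]
        exact hmono x hx.1 R hRP h

/-- conical contractibility, downward version -/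
theorem van_conicalDown (f : Finset V → Finset V) (M : Finset V) (n : ℕ) :
    ∀ P : Finset (Finset V), (P.filter (fun R => f R ≠ R)).card = n →
    (∀ R ∈ P, f R ∈ P) → (∀ R ∈ P, f R ⊆ R) → (∀ R ∈ P, f (f R) = f R) →
    (∀ R ∈ P, ∀ R' ∈ P, R ⊆ R' → f R ⊆ f R') → M ∈ P → f M = M → (∀ R ∈ P, f R ⊆ M) →
    ∀ t, Van k (Chn P) t := by
  induction n with
  | zero =>
    intro P hn _ _ _ _ hM _ hMf t
    have hfix : ∀ R ∈ P, f R = R := by
      intro R hR
      by_contra h
      have : R ∈ P.filter (fun R => f R ≠ R) := Finset.mem_filter.2 ⟨hR, h⟩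
      rw [Finset.card_eq_zero.1 hn] at this
      simp at this
    exact van_chn_cone hM (fun R hR => Or.inl (by rw [← hfix R hR]; exact hMf R hR)) t
  | succ n ih =>
    intro P hn hfP hle hidem hmono hM hfM hMf t
    obtain ⟨x, hx, hmax⟩ := Finset.exists_min_image (P.filter (fun R => f R ≠ R)) Finset.card
      (Finset.card_pos.1 (by omega))
    have hxf := hx
    rw [Finset.mem_filter] at hx
    refine van_chn_of_erase hx.1 ?_ ?_
    · refine ih (P.erase x) ?_ ?_ ?_ ?_ ?_ ?_ hfM ?_ t
      · have : (P.erase x).filter (fun R => f R ≠ R) = (P.filter (fun R => f R ≠ R)).erase x := by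
          ext R; simp only [Finset.mem_filter, Finset.mem_erase, and_assoc]
        rw [this, Finset.card_erase_of_mem hxf, hn]; rfl
      · intro R hR
        have hR' := Finset.mem_of_mem_erase hR
        refine Finset.mem_erase.2 ⟨fun e => hx.2 ?_, hfP R hR'⟩
        rw [← e]; exact hidem R hR'
      · exact fun R hR => hle R (Finset.mem_of_mem_erase hR)
      · exact fun R hR => hidem R (Finset.mem_of_mem_erase hR)
      · exact fun R hR R' hR' => hmono R (Finset.mem_of_mem_erase hR) R' (Finset.mem_of_mem_erase hR')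
      · exact Finset.mem_erase.2 ⟨fun e => hx.2 (by rw [← e, hfM]), hM⟩
      · exact fun R hR => hMf R (Finset.mem_of_mem_erase hR)
    · refine van_chn_cone (M := f x) (mem_cmp.2 ⟨hx.2, hfP x hx.1, Or.inl (hle x hx.1)⟩) ?_ _
      intro R hR
      obtain ⟨hRx, hRP, h | h⟩ := mem_cmp.1 hR
      · left
        have hss : R ⊂ x := lt_of_le_of_ne h hRx
        have hfR : f R = R := by
          by_contra hne
          have := hmax R (Finset.mem_filter.2 ⟨hRP, hne⟩)
          have := Finset.card_lt_card hss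
          omega
        rw [← hfR]
        exact hmono R hRP x hx.1 h
      · exact Or.inr ((hle x hx.1).trans h)

/-- Adding the elements of `E` to `B` in order of decreasing size. -/
theorem van_addUp (B : Finset (Finset V)) (t : ℕ) (n : ℕ) : ∀ E : Finset (Finset V),
    E.card = n → Disjoint B E → Van k (Chn B) t →
    (∀ Q ∈ E, Van k (Chn (B.filter (fun R => R ⊂ Q) ∪ (B ∪ E).filter (fun R => Q ⊂ R))) (t - 1)) →
    Van k (Chn (B ∪ E)) t := by
  induction n with
  | zero =>
    intro E hE _ hB _
    rw [Finset.card_eq_zero.1 hE, Finset.union_empty]; exact hB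
  | succ n ih =>
    intro E hE hdis hB h
    obtain ⟨Q, hQ, hmin⟩ := Finset.exists_min_image E Finset.card (Finset.card_pos.1 (by omega))
    have hQB : Q ∉ B := fun h' => (Finset.disjoint_left.1 hdis h') hQ
    have herase : (B ∪ E).erase Q = B ∪ E.erase Q := by
      ext R
      simp only [Finset.mem_erase, Finset.mem_union]
      constructor
      · rintro ⟨h1, h2 | h2⟩
        · exact Or.inl h2
        · exact Or.inr ⟨h1, h2⟩
      · rintro (h2 | ⟨h1, h2⟩)
        · exact ⟨fun e => hQB (e ▸ h2), Or.inl h2⟩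
        · exact ⟨h1, Or.inr h2⟩
    refine van_chn_of_erase (Q := Q) (Finset.mem_union_right _ hQ) ?_ ?_
    · rw [herase]
      refine ih (E.erase Q) (by rw [Finset.card_erase_of_mem hQ, hE]; rfl)
        (hdis.mono_right (Finset.erase_subset _ _)) hB ?_
      intro Q' hQ'
      have hQ'E := Finset.mem_of_mem_erase hQ'
      have key : (B ∪ E.erase Q).filter (fun R => Q' ⊂ R) = (B ∪ E).filter (fun R => Q' ⊂ R) := by
        rw [← herase]
        ext R
        simp only [Finset.mem_filter, Finset.mem_erase]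
        constructor
        · rintro ⟨⟨_, h1⟩, h2⟩; exact ⟨h1, h2⟩
        · rintro ⟨h1, h2⟩
          refine ⟨⟨?_, h1⟩, h2⟩
          rintro rfl
          have := Finset.card_lt_card h2
          have := hmin Q' hQ'E
          omega
      rw [key]
      exact h Q' hQ'E
    · have key : cmp (B ∪ E) Q
          = B.filter (fun R => R ⊂ Q) ∪ (B ∪ E).filter (fun R => Q ⊂ R) := by
        ext R
        simp only [mem_cmp, Finset.mem_union, Finset.mem_filter]
        constructor
        · rintro ⟨h1, h2, h3 | h3⟩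
          · have hss : R ⊂ Q := lt_of_le_of_ne h3 h1
            rcases h2 with h2 | h2
            · exact Or.inl ⟨h2, hss⟩
            · exfalso
              have := Finset.card_lt_card hss
              have := hmin R h2
              omega
          · exact Or.inr ⟨h2, lt_of_le_of_ne h3 (Ne.symm h1)⟩
        · rintro (⟨h1, h2⟩ | ⟨h1, h2⟩)
          · exact ⟨h2.ne, Or.inl h1, Or.inl h2.subset⟩
          · exact ⟨h2.ne', h1, Or.inr h2.subset⟩
      rw [key]; exact h Q hQ

/-- Adding the elements of `E` to `T` in order of increasing size. -/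
theorem van_addDown (B : Finset (Finset V)) (t : ℕ) (n : ℕ) : ∀ E : Finset (Finset V),
    E.card = n → Disjoint B E → Van k (Chn B) t →
    (∀ Q ∈ E, Van k (Chn ((B ∪ E).filter (fun R => R ⊂ Q) ∪ B.filter (fun R => Q ⊂ R))) (t - 1)) →
    Van k (Chn (B ∪ E)) t := by
  induction n with
  | zero =>
    intro E hE _ hB _
    rw [Finset.card_eq_zero.1 hE, Finset.union_empty]; exact hB
  | succ n ih =>
    intro E hE hdis hB h
    obtain ⟨Q, hQ, hmax⟩ := Finset.exists_max_image E Finset.card (Finset.card_pos.1 (by omega))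
    have hQB : Q ∉ B := fun h' => (Finset.disjoint_left.1 hdis h') hQ
    have herase : (B ∪ E).erase Q = B ∪ E.erase Q := by
      ext R
      simp only [Finset.mem_erase, Finset.mem_union]
      constructor
      · rintro ⟨h1, h2 | h2⟩
        · exact Or.inl h2
        · exact Or.inr ⟨h1, h2⟩
      · rintro (h2 | ⟨h1, h2⟩)
        · exact ⟨fun e => hQB (e ▸ h2), Or.inl h2⟩
        · exact ⟨h1, Or.inr h2⟩
    refine van_chn_of_erase (Q := Q) (Finset.mem_union_right _ hQ) ?_ ?_
    · rw [herase]
      refine ih (E.erase Q) (by rw [Finset.card_erase_of_mem hQ, hE]; rfl)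
        (hdis.mono_right (Finset.erase_subset _ _)) hB ?_
      intro Q' hQ'
      have hQ'E := Finset.mem_of_mem_erase hQ'
      have key : (B ∪ E.erase Q).filter (fun R => R ⊂ Q') = (B ∪ E).filter (fun R => R ⊂ Q') := by
        rw [← herase]
        ext R
        simp only [Finset.mem_filter, Finset.mem_erase]
        constructor
        · rintro ⟨⟨_, h1⟩, h2⟩; exact ⟨h1, h2⟩
        · rintro ⟨h1, h2⟩
          refine ⟨⟨?_, h1⟩, h2⟩
          rintro rfl
          have := Finset.card_lt_card h2
          have := hmax Q' hQ'E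
          omega
      rw [key]
      exact h Q' hQ'E
    · have key : cmp (B ∪ E) Q
          = (B ∪ E).filter (fun R => R ⊂ Q) ∪ B.filter (fun R => Q ⊂ R) := by
        ext R
        simp only [mem_cmp, Finset.mem_union, Finset.mem_filter]
        constructor
        · rintro ⟨h1, h2, h3 | h3⟩
          · exact Or.inl ⟨h2, lt_of_le_of_ne h3 h1⟩
          · have hss : Q ⊂ R := lt_of_le_of_ne h3 (Ne.symm h1)
            rcases h2 with h2 | h2
            · exact Or.inr ⟨h2, hss⟩
            · exfalso
              have := Finset.card_lt_card hss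
              have := hmax R h2
              omega
        · rintro (⟨h1, h2⟩ | ⟨h1, h2⟩)
          · exact ⟨h2.ne, h1, Or.inl h2.subset⟩
          · exact ⟨h2.ne', Or.inl h1, Or.inr h2.subset⟩
      rw [key]; exact h Q hQ

end Pool.Agent.Lib.MP_081cfe_al
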