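import Pool.Agent.Lib.MP_081cfe_al.Phi
import Pool.Agent.Lib.MP_081cfe_al.Poset

/-!
# The families of independent sets with small `phi`
-/

namespace Pool.Agent.Lib.MP_081cfe_al

variable {V : Type} [Fintype V] [LinearOrder V] {k : Type} [Field k] {G : SimpleGraph V}
  {w : V → ℕ}

theorem van_neg (S A : Finset V) (s : ℤ) (P : Finset (Finset V))
    (hP : ∀ R, R ∈ P ↔ Indep G R ∧ S ⊆ R ∧ R ⊆ A ∧ phi G w R ≤ s) (hne : P.Nonempty)
    (t : ℕ) : Van k (Chn P) t := by
  obtain ⟨M, hM, hmin⟩ := Finset.exists_min_image P (phi G w) hne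
  obtain ⟨hM1, hM2, hM3, hM4⟩ := (hP M).1 hM
  have hmin' : ∀ R, Indep G R → S ⊆ R → R ⊆ A → phi G w M ≤ phi G w R := by
    intro R h1 h2 h3
    by_cases h : phi G w R ≤ s
    · exact hmin R ((hP R).2 ⟨h1, h2, h3, h⟩)
    · omega
  refine van_conicalDown (fun R => R ∩ M) M _ P rfl ?_ ?_ ?_ ?_ hM (Finset.inter_self M) ?_ t
  · intro R hR
    obtain ⟨hR1, hR2, hR3, hR4⟩ := (hP R).1 hR
    have h1 := phi_submod (w := w) hR1 hM1
    have h2 := hmin' (jn G R M) (indep_jn hR1 hM1)
      ((Finset.subset_inter hR2 hM2).trans (inter_subset_jn hM1)) (jn_subset hR3 hM3)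
    exact (hP _).2 ⟨hR1.mono Finset.inter_subset_left, Finset.subset_inter hR2 hM2,
      Finset.inter_subset_left.trans hR3, by omega⟩
  · intro R _; exact Finset.inter_subset_left
  · intro R _; simp [Finset.inter_assoc]
  · intro R _ R' _ h; exact Finset.inter_subset_inter_right h
  · intro R _; exact Finset.inter_subset_right

open Classical in
/-- The independent sets `R` with `F ⊊ R ⊆ F ∪ supp w` and `phi R ≤ s`. -/
noncomputable def fam (G : SimpleGraph V) (w : V → ℕ) (F : Finset V) (s : ℤ) :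
    Finset (Finset V) :=
  Finset.univ.filter (fun R => Indep G R ∧ F ⊂ R ∧ (∀ a ∈ R, a ∈ F ∨ 0 < w a) ∧ phi G w R ≤ s)

theorem mem_fam {F : Finset V} {s : ℤ} {R : Finset V} : R ∈ fam G w F s ↔
    Indep G R ∧ F ⊂ R ∧ (∀ a ∈ R, a ∈ F ∨ 0 < w a) ∧ phi G w R ≤ s := by
  simp [fam]

theorem ne_of_sub_mem {F R : Finset V} (h1 : F ⊆ R) (h2 : R ≠ F) : F ⊂ R :=
  lt_of_le_of_ne h1 (Ne.symm h2)

/-- case `μ < φ(F)` -/
theorem van_zero_neg {F : Finset V} (h : ∃ R ∈ fam G w F (phi G w F), phi G w R < phi G w F)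
    (t : ℕ) : Van k (Chn (fam G w F (phi G w F))) t := by
  obtain ⟨R0, hR0, hR0'⟩ := h
  set B0 := fam G w F (phi G w F) with hB0
  obtain ⟨M', hM', hmin⟩ := Finset.exists_min_image B0 (phi G w) ⟨R0, hR0⟩
  have hM'lt : phi G w M' < phi G w F := lt_of_le_of_lt (hmin R0 hR0) hR0'
  obtain ⟨M, hM, hMmin⟩ := Finset.exists_min_image (B0.filter (fun R => phi G w R = phi G w M'))
    Finset.card ⟨M', Finset.mem_filter.2 ⟨hM', rfl⟩⟩
  rw [Finset.mem_filter] at hM
  obtain ⟨hMB, hMphi⟩ := hM
  obtain ⟨hM1, hM2, hM3, hM4⟩ := mem_fam.1 hMB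
  have hMlt : phi G w M < phi G w F := by omega
  have hmin' : ∀ R, Indep G R → F ⊂ R → (∀ a ∈ R, a ∈ F ∨ 0 < w a) →
      phi G w M ≤ phi G w R := by
    intro R h1 h2 h3
    by_cases h : phi G w R ≤ phi G w F
    · have := hmin R (mem_fam.2 ⟨h1, h2, h3, h⟩); omega
    · omega
  have hmin'' : ∀ R, Indep G R → F ⊆ R → (∀ a ∈ R, a ∈ F ∨ 0 < w a) →
      phi G w M ≤ phi G w R := by
    intro R h1 h2 h3
    by_cases h : R = F
    · rw [h]; omega
    · exact hmin' R h1 (ne_of_sub_mem h2 h) h3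
  -- intersections with `M`
  have hinter : ∀ N, Indep G N → F ⊂ N → (∀ a ∈ N, a ∈ F ∨ 0 < w a) →
      phi G w N = phi G w M → ∀ R ∈ B0, phi G w (R ∩ N) ≤ phi G w R ∧
        phi G w (jn G R N) + phi G w (R ∩ N) ≤ phi G w R + phi G w M := by
    intro N hN1 hN2 hN3 hN4 R hR
    obtain ⟨hR1, hR2, hR3, hR4⟩ := mem_fam.1 hR
    have h1 := phi_submod (w := w) hR1 hN1
    have h2 := hmin'' (jn G R N) (indep_jn hR1 hN1)
      ((Finset.subset_inter hR2.subset hN2.subset).trans (inter_subset_jn hN1)) (by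
        intro a ha
        rcases mem_jn.1 ha with h | h
        · exact hR3 a h.1
        · exact hN3 a h.1)
    constructor
    · omega
    · omega
  have hfamInter : ∀ N, Indep G N → F ⊂ N → (∀ a ∈ N, a ∈ F ∨ 0 < w a) →
      phi G w N = phi G w M → ∀ R ∈ B0, R ∩ N ≠ F → R ∩ N ∈ B0 := by
    intro N hN1 hN2 hN3 hN4 R hR hne
    obtain ⟨hR1, hR2, hR3, hR4⟩ := mem_fam.1 hR
    refine mem_fam.2 ⟨hR1.mono Finset.inter_subset_left,
      ne_of_sub_mem (Finset.subset_inter hR2.subset hN2.subset) hne,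
      fun a ha => hR3 a (Finset.mem_inter.1 ha).1, ?_⟩
    have := (hinter N hN1 hN2 hN3 hN4 R hR).1
    omega
  -- `M` is the least minimiser
  have hleast : ∀ R, Indep G R → F ⊂ R → (∀ a ∈ R, a ∈ F ∨ 0 < w a) →
      phi G w R = phi G w M → M ⊆ R := by
    intro R h1 h2 h3 h4
    have hRB : R ∈ B0 := mem_fam.2 ⟨h1, h2, h3, by omega⟩
    have h5 := (hinter M hM1 hM2 hM3 rfl R hRB)
    have h6 : R ∩ M ≠ F := by
      intro he
      rw [he] at h5; omega
    have h7 := hfamInter M hM1 hM2 hM3 rfl R hRB h6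
    have h8 : phi G w M ≤ phi G w (R ∩ M) := hmin' _ (h1.mono Finset.inter_subset_left)
      (mem_fam.1 h7).2.1 (mem_fam.1 h7).2.2.1
    have h9 := hMmin (R ∩ M) (Finset.mem_filter.2 ⟨h7, by omega⟩)
    have h10 : R ∩ M = M := Finset.eq_of_subset_of_card_le Finset.inter_subset_right h9
    rw [← h10]; exact Finset.inter_subset_left
  set T := B0.filter (fun R => R ∩ M ≠ F) with hT
  set E := B0.filter (fun R => R ∩ M = F) with hE
  have hTE : T ∪ E = B0 := by
    ext R
    simp only [hT, hE, Finset.mem_union, Finset.mem_filter]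
    tauto
  have hMT : M ∈ T := Finset.mem_filter.2 ⟨hMB, by rw [Finset.inter_self]; exact hM2.ne'⟩
  have hfin : Van k (Chn (T ∪ E)) t := by
    refine van_addDown T t E.card E rfl ?_ ?_ ?_
    · rw [Finset.disjoint_left]
      intro R h1 h2
      exact (Finset.mem_filter.1 h1).2 (Finset.mem_filter.1 h2).2
    · refine van_conicalDown (fun R => R ∩ M) M _ T rfl ?_ ?_ ?_ ?_ hMT (Finset.inter_self M) ?_ t
      · intro R hR
        obtain ⟨hR1, hR2⟩ := Finset.mem_filter.1 hR
        refine Finset.mem_filter.2 ⟨hfamInter M hM1 hM2 hM3 rfl R hR1 hR2, ?_⟩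
        rw [Finset.inter_assoc, Finset.inter_self]; exact hR2
      · intro R _; exact Finset.inter_subset_left
      · intro R _; simp [Finset.inter_assoc]
      · intro R _ R' _ h; exact Finset.inter_subset_inter_right h
      · intro R _; exact Finset.inter_subset_right
    · intro Q hQ
      obtain ⟨hQB, hQM⟩ := Finset.mem_filter.1 hQ
      obtain ⟨hQ1, hQ2, hQ3, hQ4⟩ := mem_fam.1 hQB
      -- the join with `M` is a minimiser
      have h1 := hinter M hM1 hM2 hM3 rfl Q hQB
      rw [hQM] at h1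
      have hjF : jn G Q M ≠ F := by
        intro he
        have := h1.2
        rw [he] at this
        omega
      have hjsub : F ⊂ jn G Q M :=
        ne_of_sub_mem ((Finset.subset_inter hQ2.subset hM2.subset).trans (inter_subset_jn hM1)) hjF
      have hjA : ∀ a ∈ jn G Q M, a ∈ F ∨ 0 < w a := by
        intro a ha
        rcases mem_jn.1 ha with h | h
        · exact hQ3 a h.1
        · exact hM3 a h.1
      have hjmin := hmin' (jn G Q M) (indep_jn hQ1 hM1) hjsub hjA
      have hjphi : phi G w (jn G Q M) = phi G w M := by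
        have := h1.2; omega
      have hMj := hleast (jn G Q M) (indep_jn hQ1 hM1) hjsub hjA hjphi
      -- no edges between `Q` and `M`
      have hno : ∀ a ∈ Q, ∀ b ∈ M, ¬ G.Adj a b := by
        intro a ha b hb hab
        have hbj := hMj hb
        rcases mem_jn.1 hbj with h | h
        · exact hQ1 a ha b h.1 hab
        · exact h.2 (mem_nbr.2 ⟨a, ha, hab.symm⟩)
      have hM1indep : Indep G (Q ∪ M) := indep_union hQ1 hM1 hno
      have hjeq : jn G Q M = Q ∪ M :=
        jn_eq_union hM1indep Finset.subset_union_left Finset.subset_union_right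
      rw [hjeq] at hjphi hjsub hjA
      set M1 := Q ∪ M with hM1def
      have hQM1 : Q ⊆ M1 := Finset.subset_union_left
      have hM1B : M1 ∈ B0 := mem_fam.2 ⟨hM1indep, hjsub, hjA, by omega⟩
      have hM1M : M1 ∩ M = M := Finset.inter_eq_right.2 Finset.subset_union_right
      -- the conical map on the link
      have hmemP : ∀ R, R ∈ (T ∪ E).filter (fun R => R ⊂ Q) ∪ T.filter (fun R => Q ⊂ R) ↔
          (R ∈ B0 ∧ R ⊂ Q) ∨ (R ∈ B0 ∧ R ∩ M ≠ F ∧ Q ⊂ R) := by
        intro R
        rw [hTE, Finset.mem_union, Finset.mem_filter, Finset.mem_filter, hT, Finset.mem_filter,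
          and_assoc]
      have hnot : ∀ R, Q ⊂ R → ¬ R ⊂ Q := fun R h h' => lt_asymm h h'
      have hupper : ∀ R, R ∈ B0 → R ∩ M ≠ F → Q ⊂ R →
          R ∩ M1 ∈ B0 ∧ (R ∩ M1) ∩ M ≠ F ∧ Q ⊂ R ∩ M1 := by
        intro R hR hRM hQR
        have hRM' : (R ∩ M1) ∩ M = R ∩ M := by rw [Finset.inter_assoc, hM1M]
        have hFsub : F ⊆ R ∩ M1 :=
          Finset.subset_inter (hQ2.subset.trans hQR.subset) (hQ2.subset.trans hQM1)
        refine ⟨hfamInter M1 hM1indep hjsub hjA hjphi R hR ?_, by rw [hRM']; exact hRM, ?_⟩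
        · intro he
          apply hRM
          rw [← hRM', he]
          exact Finset.inter_eq_left.2 hM2.subset
        · refine ne_of_sub_mem (Finset.subset_inter hQR.subset hQM1) ?_
          intro he
          apply hRM
          rw [← hRM', he, hQM]
      refine van_conicalDown (fun R => if R ⊂ Q then R else R ∩ M1) M1 _ _ rfl
        ?_ ?_ ?_ ?_ ?_ ?_ ?_ _
      · intro R hR
        rw [hmemP] at hR ⊢
        rcases hR with ⟨h1, h2⟩ | ⟨h1, h2, h3⟩
        · rw [if_pos h2]; exact Or.inl ⟨h1, h2⟩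
        · rw [if_neg (hnot R h3)]; exact Or.inr (hupper R h1 h2 h3)
      · intro R hR
        split
        · exact subset_rfl
        · exact Finset.inter_subset_left
      · intro R hR
        rw [hmemP] at hR
        rcases hR with ⟨h1, h2⟩ | ⟨h1, h2, h3⟩
        · simp only [if_pos h2]
        · simp only [if_neg (hnot R h3)]
          rw [if_neg (hnot _ (hupper R h1 h2 h3).2.2), Finset.inter_assoc, Finset.inter_self]
      · intro R hR R' hR' hRR'
        rw [hmemP] at hR hR'
        rcases hR with ⟨h1, h2⟩ | ⟨h1, h2, h3⟩ <;> rcases hR' with ⟨h1', h2'⟩ | ⟨h1', h2', h3'⟩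
        · simp only [if_pos h2, if_pos h2']; exact hRR'
        · simp only [if_pos h2, if_neg (hnot R' h3')]
          exact Finset.subset_inter hRR' (h2.subset.trans hQM1)
        · exact absurd (lt_of_lt_of_le h3 hRR') (fun h => hnot R' h h2')
        · simp only [if_neg (hnot R h3), if_neg (hnot R' h3')]
          exact Finset.inter_subset_inter_right hRR'
      · rw [hmemP]
        right
        refine ⟨hM1B, by rw [hM1M]; exact hM2.ne', ne_of_sub_mem hQM1 ?_⟩
        intro he
        rw [he] at hM1M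
        rw [hM1M] at hQM
        exact hM2.ne' hQM
      · have : ¬ M1 ⊂ Q := fun h => (lt_of_le_of_lt hQM1 h).ne rfl
        simp only [if_neg this, Finset.inter_self]
      · intro R hR
        rw [hmemP] at hR
        rcases hR with ⟨h1, h2⟩ | ⟨h1, h2, h3⟩
        · simp only [if_pos h2]; exact h2.subset.trans hQM1
        · simp only [if_neg (hnot R h3)]; exact Finset.inter_subset_right
  rw [hTE] at hfin
  exact hfin

/-- case `μ = φ(F)` -/
theorem van_zero_pos (hG : GapFree G) {F : Finset V}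
    (h : ∀ R ∈ fam G w F (phi G w F), phi G w F ≤ phi G w R)
    (hne : (fam G w F (phi G w F)).Nonempty) :
    Van k (Chn (fam G w F (phi G w F))) 0 ∨
      (Van k (Chn (fam G w F (phi G w F))) 2 ∧
        ∃ n : ℕ, (wt w Finset.univ : ℤ) - phi G w F = 2 * n) := by
  set B0 := fam G w F (phi G w F) with hB0
  have hmin' : ∀ R, Indep G R → F ⊆ R → (∀ a ∈ R, a ∈ F ∨ 0 < w a) →
      phi G w F ≤ phi G w R := by
    intro R h1 h2 h3
    by_cases hRF : R = F
    · rw [hRF]
    by_cases hle : phi G w R ≤ phi G w F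
    · exact h R (mem_fam.2 ⟨h1, ne_of_sub_mem h2 hRF, h3, hle⟩)
    · omega
  have hpair : ∀ Q ∈ B0, ∀ R ∈ B0, phi G w (Q ∩ R) ≤ phi G w F ∧
      phi G w (jn G Q R) ≤ phi G w F ∧
      F ⊆ Q ∩ R ∧ F ⊆ jn G Q R ∧ (∀ a ∈ jn G Q R, a ∈ F ∨ 0 < w a) := by
    intro Q hQ R hR
    obtain ⟨hQ1, hQ2, hQ3, hQ4⟩ := mem_fam.1 hQ
    obtain ⟨hR1, hR2, hR3, hR4⟩ := mem_fam.1 hR
    have h1 := phi_submod (w := w) hQ1 hR1
    have h0 : F ⊆ Q ∩ R := Finset.subset_inter hQ2.subset hR2.subset
    have h2 := hmin' (Q ∩ R) (hQ1.mono Finset.inter_subset_left) h0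
      (fun a ha => hQ3 a (Finset.mem_inter.1 ha).1)
    have h0' := h0.trans (inter_subset_jn hR1)
    have h0'' : ∀ a ∈ jn G Q R, a ∈ F ∨ 0 < w a := by
      intro a ha
      rcases mem_jn.1 ha with h | h
      · exact hQ3 a h.1
      · exact hR3 a h.1
    have h3 := hmin' (jn G Q R) (indep_jn hQ1 hR1) h0' h0''
    exact ⟨by omega, by omega, h0, h0', h0''⟩
  have hinterB : ∀ Q ∈ B0, ∀ R ∈ B0, Q ∩ R ≠ F → Q ∩ R ∈ B0 := by
    intro Q hQ R hR hne
    obtain ⟨hQ1, hQ2, hQ3, hQ4⟩ := mem_fam.1 hQ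
    obtain ⟨h1, _, h3, _, _⟩ := hpair Q hQ R hR
    exact mem_fam.2 ⟨hQ1.mono Finset.inter_subset_left, ne_of_sub_mem h3 hne,
      fun a ha => hQ3 a (Finset.mem_inter.1 ha).1, h1⟩
  have hjnB : ∀ Q ∈ B0, ∀ R ∈ B0, jn G Q R ≠ F → jn G Q R ∈ B0 := by
    intro Q hQ R hR hne
    obtain ⟨_, h1, _, h4, h5⟩ := hpair Q hQ R hR
    exact mem_fam.2 ⟨indep_jn (mem_fam.1 hQ).1 (mem_fam.1 hR).1, ne_of_sub_mem h4 hne, h5, h1⟩
  -- atoms
  let IsAtom' : Finset V → Prop := fun Q => Q ∈ B0 ∧ ∀ R ∈ B0, R ⊆ Q → R = Q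
  have hatom : ∀ R ∈ B0, ∃ Q, IsAtom' Q ∧ Q ⊆ R := by
    intro R hR
    obtain ⟨Q, hQ, hQmin⟩ := Finset.exists_min_image (B0.filter (fun Q => Q ⊆ R)) Finset.card
      ⟨R, Finset.mem_filter.2 ⟨hR, subset_rfl⟩⟩
    rw [Finset.mem_filter] at hQ
    refine ⟨Q, ⟨hQ.1, fun S hS hSQ => ?_⟩, hQ.2⟩
    exact Finset.eq_of_subset_of_card_le hSQ
      (hQmin S (Finset.mem_filter.2 ⟨hS, hSQ.trans hQ.2⟩))
  by_cases hcase : ∃ Q1 Q2, IsAtom' Q1 ∧ IsAtom' Q2 ∧ jn G Q1 Q2 = F
  · right
    obtain ⟨Q1, Q2, ⟨hQ1B, hQ1at⟩, ⟨hQ2B, hQ2at⟩, hjF⟩ := hcase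
    obtain ⟨hQ1, hFQ1, hQ1w, hphi1⟩ := mem_fam.1 hQ1B
    obtain ⟨hQ2, hFQ2, hQ2w, hphi2⟩ := mem_fam.1 hQ2B
    have hI : Q1 ∩ Q2 = F := by
      apply subset_antisymm
      · have := inter_subset_jn (Q := Q1) hQ2
        rwa [hjF] at this
      · exact Finset.subset_inter hFQ1.subset hFQ2.subset
    have hN12 : ∀ a ∈ Q1, a ∉ F → a ∈ nbr G Q2 := by
      intro a ha haF
      by_contra hc
      exact haF (hjF ▸ mem_jn.2 (Or.inl ⟨ha, hc⟩))
    have hN21 : ∀ a ∈ Q2, a ∉ F → a ∈ nbr G Q1 := by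
      intro a ha haF
      by_contra hc
      exact haF (hjF ▸ mem_jn.2 (Or.inr ⟨ha, hc⟩))
    obtain ⟨a1, ha1, ha1F⟩ := Finset.exists_of_ssubset hFQ1
    obtain ⟨a2, ha2, ha12⟩ := mem_nbr.1 (hN12 a1 ha1 ha1F)
    have hge1 := h Q1 hQ1B
    have hge2 := h Q2 hQ2B
    -- vertices outside
    have hout : ∀ c, 0 < w c → c ∉ Q1 → c ∉ Q2 → c ∉ nbr G F →
        c ∉ nbr G Q1 ∧ c ∉ nbr G Q2 := by
      intro c hc h1 h2 h3
      have hcF : c ∉ F := fun h => h1 (hFQ1.subset h)
      have he := ct_eq_of_phi (w := w) hQ1 hQ2 (by rw [hI, hjF]; omega) hc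
      rw [hI, hjF] at he
      unfold ct at he
      rw [if_neg h3, if_neg hcF, if_neg h1, if_neg h2] at he
      constructor
      · intro h4
        rw [if_pos h4] at he
        split_ifs at he
        · omega
        · omega
      · intro h4
        rw [if_pos h4] at he
        split_ifs at he
        · omega
        · omega
    have hC : ∀ c, 0 < w c → c ∉ nbr G F → c ∈ Q1 ∨ c ∈ Q2 := by
      intro c hc hcN
      by_contra hcon
      push Not at hcon
      obtain ⟨hc1, hc2⟩ := hcon
      obtain ⟨hcn1, hcn2⟩ := hout c hc hc1 hc2 hcN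
      have hcF : c ∉ F := fun h => hc1 (hFQ1.subset h)
      have hins : Indep G (insert c F) := indep_insert (hQ1.mono hFQ1.subset) hcN
      have hphi := hmin' (insert c F) hins (Finset.subset_insert _ _) (by
        intro a ha
        rcases Finset.mem_insert.1 ha with h | h
        · exact Or.inr (h ▸ hc)
        · exact Or.inl h)
      have hwt : wt w (insert c F) = w c + wt w F := Finset.sum_insert hcF
      have hsub : nbr G F ⊆ nbr G (insert c F) := nbr_mono (Finset.subset_insert _ _)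
      have hdiff := wt_sdiff (w := w) hsub
      have hpos : 0 < wt w (nbr G (insert c F) \ nbr G F) := by
        unfold phi at hphi; omega
      have hex : ∃ c' ∈ nbr G (insert c F) \ nbr G F, 0 < w c' := by
        by_contra hcon
        push Not at hcon
        have := wt_eq_zero (w := w) (A := nbr G (insert c F) \ nbr G F)
          (fun a ha => Nat.le_zero.1 (hcon a ha))
        omega
      obtain ⟨c', hc', hwc'⟩ := hex
      rw [Finset.mem_sdiff] at hc'
      obtain ⟨hc'1, hc'2⟩ := hc'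
      obtain ⟨b, hb, hadj⟩ := mem_nbr.1 hc'1
      have hbc : b = c := by
        rcases Finset.mem_insert.1 hb with h | h
        · exact h
        · exact absurd (mem_nbr.2 ⟨b, h, hadj⟩) hc'2
      rw [hbc] at hadj
      have hc'Q1 : c' ∉ Q1 := fun h => hcn1 (mem_nbr.2 ⟨c', h, hadj.symm⟩)
      have hc'Q2 : c' ∉ Q2 := fun h => hcn2 (mem_nbr.2 ⟨c', h, hadj.symm⟩)
      obtain ⟨hcn1', hcn2'⟩ := hout c' hwc' hc'Q1 hc'Q2 hc'2
      rcases hG c' c a1 a2 hadj ha12 with h | h | h | h | h | h | h | h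
      · exact hc'Q1 (h ▸ ha1)
      · exact hc'Q2 (h ▸ ha2)
      · exact hc1 (h ▸ ha1)
      · exact hc2 (h ▸ ha2)
      · exact hcn1' (mem_nbr.2 ⟨a1, ha1, h⟩)
      · exact hcn2' (mem_nbr.2 ⟨a2, ha2, h⟩)
      · exact hcn1 (mem_nbr.2 ⟨a1, ha1, h⟩)
      · exact hcn2 (mem_nbr.2 ⟨a2, ha2, h⟩)
    have hnot21 : ¬ Q2 ⊆ Q1 := by
      intro hs
      have := hs ha2
      exact hQ1 a1 ha1 a2 this ha12
    have hnot12 : ¬ Q1 ⊆ Q2 := by
      intro hs
      have := hs ha1
      exact hQ2 a1 this a2 ha2 ha12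
    have htwo : ∀ R ∈ B0, R = Q1 ∨ R = Q2 := by
      intro R hR
      obtain ⟨hR1, hFR, hRw, hphiR⟩ := mem_fam.1 hR
      have hsub : R ⊆ Q1 ∪ Q2 := by
        intro a ha
        rw [Finset.mem_union]
        rcases hRw a ha with h | h
        · exact Or.inl (hFQ1.subset h)
        · exact hC a h (fun h' => hR1.notMem_nbr ha (nbr_mono hFR.subset h'))
      have e1 : R ∩ Q1 = F ∨ R ∩ Q1 = Q1 := by
        by_cases h : R ∩ Q1 = F
        · exact Or.inl h
        · exact Or.inr (hQ1at _ (hinterB R hR Q1 hQ1B h) Finset.inter_subset_right)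
      have e2 : R ∩ Q2 = F ∨ R ∩ Q2 = Q2 := by
        by_cases h : R ∩ Q2 = F
        · exact Or.inl h
        · exact Or.inr (hQ2at _ (hinterB R hR Q2 hQ2B h) Finset.inter_subset_right)
      have hRU : R = (R ∩ Q1) ∪ (R ∩ Q2) := by
        rw [← Finset.inter_union_distrib_left, Finset.inter_eq_left.2 hsub]
      rcases e1 with e1 | e1 <;> rcases e2 with e2 | e2
      · rw [e1, e2, Finset.union_self] at hRU
        exact absurd hRU hFR.ne'
      · right
        rw [hRU, e1, e2]; exact Finset.union_eq_right.2 hFQ2.subset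
      · left
        rw [hRU, e1, e2]; exact Finset.union_eq_left.2 hFQ1.subset
      · exfalso
        have h1 : a1 ∈ R := by
          have : a1 ∈ R ∩ Q1 := by rw [e1]; exact ha1
          exact (Finset.mem_inter.1 this).1
        have h2 : a2 ∈ R := by
          have : a2 ∈ R ∩ Q2 := by rw [e2]; exact ha2
          exact (Finset.mem_inter.1 this).1
        exact hR1 a1 h1 a2 h2 ha12
    refine ⟨van_of_card fun C hC' => ?_, wt w Q1, ?_⟩
    · have : C.card ≤ 1 := by
        rw [Finset.card_le_one]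
        intro a ha b hb
        apply FS.ext'
        rcases htwo _ (hC'.1 a ha) with h1 | h1 <;> rcases htwo _ (hC'.1 b hb) with h2 | h2
        · rw [h1, h2]
        · exfalso
          rcases hC'.2 a ha b hb with h3 | h3 <;> rw [h1, h2] at h3
          · exact hnot12 h3
          · exact hnot21 h3
        · exfalso
          rcases hC'.2 a ha b hb with h3 | h3 <;> rw [h1, h2] at h3
          · exact hnot21 h3
          · exact hnot12 h3
        · rw [h1, h2]
      omega
    · have h1 : wt w Finset.univ = wt w (Q1 ∪ nbr G Q1) := by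
        have h2 := wt_sdiff (w := w) (Finset.subset_univ (Q1 ∪ nbr G Q1))
        have h3 : wt w (Finset.univ \ (Q1 ∪ nbr G Q1)) = 0 := by
          apply wt_eq_zero
          intro a ha
          by_contra hne
          have hpos : 0 < w a := Nat.pos_of_ne_zero hne
          simp only [Finset.mem_sdiff, Finset.mem_univ, true_and, Finset.mem_union, not_or] at ha
          rcases hC a hpos (fun h => ha.2 (nbr_mono hFQ1.subset h)) with h | h
          · exact ha.1 h
          · exact ha.2 (hN21 a h (fun h' => ha.1 (hFQ1.subset h')))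
        omega
      rw [wt_union (disjoint_nbr hQ1)] at h1
      have h4 : phi G w Q1 = phi G w F := by omega
      rw [← h4, h1]
      unfold phi
      push_cast
      ring
  · left
    -- all atoms are joined
    have hjoin : ∀ Q1 Q2, IsAtom' Q1 → IsAtom' Q2 → ∀ a ∈ Q1, ∀ b ∈ Q2, ¬ G.Adj a b := by
      intro Q1 Q2 hA1 hA2 a ha b hb hab
      have hj : jn G Q1 Q2 ≠ F := fun h => hcase ⟨Q1, Q2, hA1, hA2, h⟩
      obtain ⟨hQ1B, hQ1at⟩ := hA1
      obtain ⟨hQ2B, hQ2at⟩ := hA2
      obtain ⟨hQ1, hFQ1, hQ1w, hphi1⟩ := mem_fam.1 hQ1B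
      obtain ⟨hQ2, hFQ2, hQ2w, hphi2⟩ := mem_fam.1 hQ2B
      have hjB := hjnB Q1 hQ1B Q2 hQ2B hj
      obtain ⟨hj1, hj2, _, _⟩ := mem_fam.1 hjB
      obtain ⟨c, hc, hcF⟩ := Finset.exists_of_ssubset hj2
      rcases mem_jn.1 hc with ⟨h1, h2⟩ | ⟨h1, h2⟩
      · have hne : Q1 ∩ jn G Q1 Q2 ≠ F := by
          intro he
          exact hcF (he ▸ Finset.mem_inter.2 ⟨h1, hc⟩)
        have he := hQ1at _ (hinterB Q1 hQ1B _ hjB hne) Finset.inter_subset_left
        have haj : a ∈ jn G Q1 Q2 := by
          have : a ∈ Q1 ∩ jn G Q1 Q2 := by rw [he]; exact ha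
          exact (Finset.mem_inter.1 this).2
        rcases mem_jn.1 haj with h3 | h3
        · exact h3.2 (mem_nbr.2 ⟨b, hb, hab⟩)
        · exact hQ2 a h3.1 b hb hab
      · have hne : Q2 ∩ jn G Q1 Q2 ≠ F := by
          intro he
          exact hcF (he ▸ Finset.mem_inter.2 ⟨h1, hc⟩)
        have he := hQ2at _ (hinterB Q2 hQ2B _ hjB hne) Finset.inter_subset_left
        have hbj : b ∈ jn G Q1 Q2 := by
          have : b ∈ Q2 ∩ jn G Q1 Q2 := by rw [he]; exact hb
          exact (Finset.mem_inter.1 this).2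
        rcases mem_jn.1 hbj with h3 | h3
        · exact hQ1 a ha b h3.1 hab
        · exact h3.2 (mem_nbr.2 ⟨a, ha, hab.symm⟩)
    -- the union of the atoms
    classical
    let U0 : Finset V := (B0.filter (fun Q => IsAtom' Q)).biUnion id
    have hU0 : ∀ a, a ∈ U0 ↔ ∃ Q, IsAtom' Q ∧ a ∈ Q := by
      intro a
      simp only [U0, Finset.mem_biUnion, Finset.mem_filter, id]
      constructor
      · rintro ⟨Q, ⟨_, hQ⟩, ha⟩; exact ⟨Q, hQ, ha⟩
      · rintro ⟨Q, hQ, ha⟩; exact ⟨Q, ⟨hQ.1, hQ⟩, ha⟩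
    have hU0indep : Indep G U0 := by
      intro a ha b hb
      obtain ⟨Q1, hQ1, ha⟩ := (hU0 a).1 ha
      obtain ⟨Q2, hQ2, hb⟩ := (hU0 b).1 hb
      exact hjoin Q1 Q2 hQ1 hQ2 a ha b hb
    obtain ⟨R0, hR0⟩ := hne
    obtain ⟨Q0, hQ0, _⟩ := hatom R0 hR0
    obtain ⟨U, hU, hUmax⟩ := Finset.exists_max_image (B0.filter (fun R => R ⊆ U0)) Finset.card
      ⟨Q0, Finset.mem_filter.2 ⟨hQ0.1, fun a ha => (hU0 a).2 ⟨Q0, hQ0, ha⟩⟩⟩
    obtain ⟨hUB, hUU0⟩ := Finset.mem_filter.1 hU
    obtain ⟨hU1, hFU, hUw, hphiU⟩ := mem_fam.1 hUB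
    have hUat : ∀ Q, IsAtom' Q → Q ⊆ U := by
      intro Q hQ
      have hQU0 : Q ⊆ U0 := fun a ha => (hU0 a).2 ⟨Q, hQ, ha⟩
      have hjeq : jn G U Q = U ∪ Q := jn_eq_union hU0indep hUU0 hQU0
      have hne : jn G U Q ≠ F := by
        intro he
        rw [hjeq] at he
        have : U ⊆ F := he ▸ Finset.subset_union_left
        exact hFU.ne (subset_antisymm hFU.subset this)
      have hjB := hjnB U hUB Q hQ.1 hne
      rw [hjeq] at hjB
      have hcard := hUmax (U ∪ Q) (Finset.mem_filter.2 ⟨hjB, Finset.union_subset hUU0 hQU0⟩)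
      have heq : U = U ∪ Q := Finset.eq_of_subset_of_card_le Finset.subset_union_left hcard
      rw [heq]; exact Finset.subset_union_right
    refine van_conicalDown (fun R => R ∩ U) U _ B0 rfl ?_ ?_ ?_ ?_ hUB (Finset.inter_self U) ?_ 0
    · intro R hR
      apply hinterB R hR U hUB
      obtain ⟨Q, hQ, hQR⟩ := hatom R hR
      intro he
      have hQF : Q ⊆ F := he ▸ Finset.subset_inter hQR (hUat Q hQ)
      exact (mem_fam.1 hQ.1).2.1.ne (subset_antisymm (mem_fam.1 hQ.1).2.1.subset hQF)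
    · intro R _; exact Finset.inter_subset_left
    · intro R _; simp [Finset.inter_assoc]
    · intro R _ R' _ h; exact Finset.inter_subset_inter_right h
    · intro R _; exact Finset.inter_subset_right

theorem van_chn_empty {t : ℕ} (ht : 1 ≤ t) : Van k (Chn (∅ : Finset (Finset V))) t := by
  refine van_of_card fun C hC => ?_
  have : C = ∅ := by
    rw [Finset.eq_empty_iff_forall_notMem]
    exact fun a ha => absurd (hC.1 a ha) (Finset.notMem_empty _)
  rw [this, Finset.card_empty]; omega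

theorem van_zero (hG : GapFree G) (F : Finset V) :
    Van k (Chn (fam G w F (phi G w F))) 2 ∧
      ((∀ n : ℕ, (wt w Finset.univ : ℤ) - phi G w F ≠ 2 * n) →
        Van k (Chn (fam G w F (phi G w F))) 1) := by
  by_cases hneg : ∃ R ∈ fam G w F (phi G w F), phi G w R < phi G w F
  · exact ⟨van_zero_neg hneg 2, fun _ => van_zero_neg hneg 1⟩
  · push Not at hneg
    rcases (fam G w F (phi G w F)).eq_empty_or_nonempty with he | hne
    · rw [he]
      exact ⟨van_chn_empty (by norm_num), fun _ => van_chn_empty le_rfl⟩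
    · rcases van_zero_pos (k := k) hG hneg hne with h | ⟨h1, n, hn⟩
      · exact ⟨h.mono (by norm_num), fun _ => h.mono (by norm_num)⟩
      · exact ⟨h1, fun hodd => absurd hn (hodd n)⟩

/-- The main vanishing result for the families `fam`. -/
theorem van_star (hG : GapFree G) (s : ℤ) (j : ℕ)
    (hs : s = (wt w Finset.univ : ℤ) - 2 * j - 1) (n : ℕ) : ∀ F : Finset V,
    (Finset.univ \ F : Finset V).card = n → Indep G F → phi G w F ≤ s → wt w F ≤ j →
    Van k (Chn (fam G w F s)) (s - phi G w F + 1).toNat := by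
  induction n using Nat.strong_induction_on with
  | _ n ih =>
  intro F hn hF hFs hFj
  set B := fam G w F (phi G w F) with hB
  set E := (fam G w F s).filter (fun R => phi G w F < phi G w R) with hE
  have hBE : B ∪ E = fam G w F s := by
    ext R
    simp only [hB, hE, Finset.mem_union, Finset.mem_filter, mem_fam]
    constructor
    · rintro (⟨h1, h2, h3, h4⟩ | h)
      · exact ⟨h1, h2, h3, by omega⟩
      · exact h.1
    · rintro ⟨h1, h2, h3, h4⟩
      by_cases h : phi G w R ≤ phi G w F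
      · exact Or.inl ⟨h1, h2, h3, h⟩
      · exact Or.inr ⟨⟨h1, h2, h3, h4⟩, by omega⟩
  rw [← hBE]
  refine van_addUp B _ E.card E rfl ?_ ?_ ?_
  · rw [Finset.disjoint_left]
    intro R h1 h2
    have h3 := (mem_fam.1 h1).2.2.2
    have h4 := (Finset.mem_filter.1 h2).2
    omega
  · obtain ⟨h2, h1⟩ := van_zero (k := k) (w := w) hG F
    by_cases hsF : s = phi G w F
    · refine (h1 ?_).mono (by omega)
      intro n hn
      omega
    · exact h2.mono (by omega)
  · intro Q hQ
    obtain ⟨hQf, hQphi⟩ := Finset.mem_filter.1 hQ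
    obtain ⟨hQ1, hQ2, hQ3, hQ4⟩ := mem_fam.1 hQf
    by_cases hlow : ∃ R ∈ B, R ⊂ Q
    · -- conical
      obtain ⟨R0, hR0, hR0Q⟩ := hlow
      obtain ⟨M, hM, hmin⟩ := Finset.exists_min_image (B.filter (fun R => R ⊂ Q)) (phi G w)
        ⟨R0, Finset.mem_filter.2 ⟨hR0, hR0Q⟩⟩
      obtain ⟨hMB, hMQ⟩ := Finset.mem_filter.1 hM
      obtain ⟨hM1, hM2, hM3, hM4⟩ := mem_fam.1 hMB
      have hmin' : ∀ R, F ⊂ R → R ⊆ Q → phi G w M ≤ phi G w R := by
        intro R h1 h2
        by_cases hle : phi G w R ≤ phi G w F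
        · refine hmin R (Finset.mem_filter.2 ⟨mem_fam.2 ⟨hQ1.mono h2, h1,
            fun a ha => hQ3 a (h2 ha), hle⟩, lt_of_le_of_ne h2 ?_⟩)
          rintro rfl; omega
        · omega
      have hmemP : ∀ R, R ∈ B.filter (fun R => R ⊂ Q) ∪ (B ∪ E).filter (fun R => Q ⊂ R) ↔
          (R ∈ B ∧ R ⊂ Q) ∨ (R ∈ fam G w F s ∧ Q ⊂ R) := by
        intro R
        rw [hBE, Finset.mem_union, Finset.mem_filter, Finset.mem_filter]
      have hlower : ∀ R, R ∈ B → R ⊂ Q → R ∪ M ∈ B ∧ R ∪ M ⊂ Q := by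
        intro R hR hRQ
        obtain ⟨hR1, hR2, hR3, hR4⟩ := mem_fam.1 hR
        have hsub : R ∪ M ⊆ Q := Finset.union_subset hRQ.subset hMQ.subset
        have h1 := phi_submod (w := w) hR1 hM1
        rw [jn_eq_union hQ1 hRQ.subset hMQ.subset] at h1
        have hphi : phi G w (R ∪ M) ≤ phi G w F := by
          by_cases he : R ∩ M = F
          · rw [he] at h1; omega
          · have h2 := hmin' (R ∩ M)
              (ne_of_sub_mem (Finset.subset_inter hR2.subset hM2.subset) he)
              (Finset.inter_subset_left.trans hRQ.subset)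
            omega
        refine ⟨mem_fam.2 ⟨hQ1.mono hsub, lt_of_lt_of_le hR2 Finset.subset_union_left,
          fun a ha => hQ3 a (hsub ha), hphi⟩, lt_of_le_of_ne hsub ?_⟩
        intro he
        rw [he] at hphi; omega
      have hnot : ∀ R, Q ⊂ R → ¬ R ⊂ Q := fun R h h' => lt_asymm h h'
      refine van_conicalUp (fun R => if R ⊂ Q then R ∪ M else R) M _ _ rfl
        ?_ ?_ ?_ ?_ ?_ ?_ ?_ _
      · intro R hR
        rw [hmemP] at hR ⊢
        rcases hR with ⟨h1, h2⟩ | ⟨h1, h2⟩
        · rw [if_pos h2]; exact Or.inl (hlower R h1 h2)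
        · rw [if_neg (hnot R h2)]; exact Or.inr ⟨h1, h2⟩
      · intro R hR
        split
        · exact Finset.subset_union_left
        · exact subset_rfl
      · intro R hR
        rw [hmemP] at hR
        rcases hR with ⟨h1, h2⟩ | ⟨h1, h2⟩
        · simp only [if_pos h2]
          rw [if_pos (hlower R h1 h2).2, Finset.union_assoc, Finset.union_self]
        · simp only [if_neg (hnot R h2)]
      · intro R hR R' hR' hRR'
        rw [hmemP] at hR hR'
        rcases hR with ⟨h1, h2⟩ | ⟨h1, h2⟩ <;> rcases hR' with ⟨h1', h2'⟩ | ⟨h1', h2'⟩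
        · simp only [if_pos h2, if_pos h2']
          exact Finset.union_subset_union hRR' subset_rfl
        · simp only [if_pos h2, if_neg (hnot R' h2')]
          exact (hlower R h1 h2).2.subset.trans h2'.subset
        · exact absurd (lt_of_lt_of_le h2 hRR') (fun h => hnot R' h h2')
        · simp only [if_neg (hnot R h2), if_neg (hnot R' h2')]
          exact hRR'
      · rw [hmemP]
        exact Or.inl ⟨hMB, hMQ⟩
      · simp only [if_pos hMQ, Finset.union_self]
      · intro R hR
        rw [hmemP] at hR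
        rcases hR with ⟨h1, h2⟩ | ⟨h1, h2⟩
        · simp only [if_pos h2]; exact Finset.subset_union_right
        · simp only [if_neg (hnot R h2)]; exact hMQ.subset.trans h2.subset
    · -- the lower part is empty
      have hlink : B.filter (fun R => R ⊂ Q) ∪ (B ∪ E).filter (fun R => Q ⊂ R)
          = fam G w Q s := by
        ext R
        rw [hBE, Finset.mem_union, Finset.mem_filter, Finset.mem_filter]
        constructor
        · rintro (⟨h1, h2⟩ | ⟨h1, h5⟩)
          · exact absurd ⟨R, h1, h2⟩ hlow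
          · obtain ⟨h1, h2, h3, h4⟩ := mem_fam.1 h1
            refine mem_fam.2 ⟨h1, h5, fun a ha => ?_, h4⟩
            rcases h3 a ha with h | h
            · exact Or.inl (hQ2.subset h)
            · exact Or.inr h
        · intro h
          obtain ⟨h1, h2, h3, h4⟩ := mem_fam.1 h
          refine Or.inr ⟨mem_fam.2 ⟨h1, hQ2.trans h2, fun a ha => ?_, h4⟩, h2⟩
          rcases h3 a ha with h | h
          · exact hQ3 a h
          · exact Or.inr h
      rw [hlink]
      by_cases hQj : wt w Q ≤ j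
      · have hcard : (Finset.univ \ Q : Finset V).card < n := by
          rw [← hn]
          apply Finset.card_lt_card
          obtain ⟨x, hx, hxF⟩ := Finset.exists_of_ssubset hQ2
          refine ⟨Finset.sdiff_subset_sdiff subset_rfl hQ2.subset, fun h => ?_⟩
          have := h (Finset.mem_sdiff.2 ⟨Finset.mem_univ x, hxF⟩)
          exact (Finset.mem_sdiff.1 this).2 hx
        refine (ih _ hcard Q rfl hQ1 hQ4 hQj).mono ?_
        omega
      · push Not at hQj
        refine van_of_card fun C hC => ?_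
        -- chains are short
        rcases C.eq_empty_or_nonempty with rfl | hCne
        · have h1 := wt_three (w := w) (G := G) hQ1 (subset_refl Q)
          rw [Finset.card_empty]
          unfold phi at hQphi hQ4 hFs ⊢
          omega
        · obtain ⟨R, hRC, hRmax⟩ := Finset.exists_max_image C (fun a => a.s.card) hCne
          obtain ⟨hR1, hR2, hR3, hR4⟩ := mem_fam.1 (hC.1 R hRC)
          have h1 := wt_three (w := w) (G := G) hR1 hR2.subset
          have h2 : C.card ≤ (R.s \ Q).card := by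
            have hinj : Set.InjOn (fun a : FS V => (a.s \ Q).card) (C : Set (FS V)) := by
              intro a ha b hb hab
              have haQ := (mem_fam.1 (hC.1 a ha)).2.1.subset
              have hbQ := (mem_fam.1 (hC.1 b hb)).2.1.subset
              dsimp only at hab
              apply FS.ext'
              rcases hC.2 a ha b hb with h | h
              · have h3 : a.s \ Q = b.s \ Q :=
                  Finset.eq_of_subset_of_card_le (Finset.sdiff_subset_sdiff h subset_rfl) hab.ge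
                rw [← Finset.sdiff_union_of_subset haQ, h3, Finset.sdiff_union_of_subset hbQ]
              · have h3 : b.s \ Q = a.s \ Q :=
                  Finset.eq_of_subset_of_card_le (Finset.sdiff_subset_sdiff h subset_rfl) hab.le
                rw [← Finset.sdiff_union_of_subset haQ, ← h3, Finset.sdiff_union_of_subset hbQ]
            have hmaps : ∀ a ∈ C, (a.s \ Q).card ∈ Finset.Icc 1 (R.s \ Q).card := by
              intro a ha
              have haQ := (mem_fam.1 (hC.1 a ha)).2.1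
              rw [Finset.mem_Icc]
              constructor
              · obtain ⟨x, hx, hxQ⟩ := Finset.exists_of_ssubset haQ
                exact Finset.card_pos.2 ⟨x, Finset.mem_sdiff.2 ⟨hx, hxQ⟩⟩
              · rcases hC.2 a ha R hRC with h | h
                · exact Finset.card_le_card (Finset.sdiff_subset_sdiff h subset_rfl)
                · have : R.s = a.s := Finset.eq_of_subset_of_card_le h (hRmax a ha)
                  rw [this]
            have := Finset.card_le_card_of_injOn _ hmaps hinj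
            rwa [Nat.card_Icc, Nat.add_sub_cancel] at this
          have h3 : (R.s \ Q).card ≤ wt w (R.s \ Q) := by
            unfold wt
            rw [Finset.card_eq_sum_ones]
            refine Finset.sum_le_sum fun a ha => ?_
            rw [Finset.mem_sdiff] at ha
            rcases hR3 a ha.1 with h | h
            · exact absurd h ha.2
            · exact h
          unfold phi at hQphi hQ4 hFs ⊢
          omega

end Pool.Agent.Lib.MP_081cfe_al
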