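import Mathlib

/-!
# MP_081cfe_al: definitions shared by all modules

`G` is a finite simple graph on `V`.  `Indep G Q`: the finite set `Q` is independent in `G`
(a clique of the complement).  `nbr G Q`: vertices with a `G`-neighbour in `Q`.
`wt w A = ∑_{a ∈ A} w a` and `phi G w Q = wt w (nbr G Q) - wt w Q`.
-/

namespace Pool.Agent.Lib.MP_081cfe_al

open MvPolynomial

section Graph

variable {V : Type} [Fintype V] [DecidableEq V]

/-- Any two edges share a vertex or are joined by an edge (no induced `2 K_2`). -/
def GapFree (G : SimpleGraph V) : Prop :=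
  ∀ a b c d, G.Adj a b → G.Adj c d →
    a = c ∨ a = d ∨ b = c ∨ b = d ∨ G.Adj a c ∨ G.Adj a d ∨ G.Adj b c ∨ G.Adj b d

/-- `Q` is an independent set of `G`. -/
def Indep (G : SimpleGraph V) (Q : Finset V) : Prop := ∀ a ∈ Q, ∀ b ∈ Q, ¬ G.Adj a b

open Classical in
/-- The vertices having a `G`-neighbour in `Q`. -/
noncomputable def nbr (G : SimpleGraph V) (Q : Finset V) : Finset V :=
  Finset.univ.filter (fun a => ∃ b ∈ Q, G.Adj a b)

/-- Weight of a finite set. -/
def wt (w : V → ℕ) (A : Finset V) : ℕ := ∑ a ∈ A, w a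

/-- `phi G w Q = w(N_G(Q)) - w(Q)`. -/
noncomputable def phi (G : SimpleGraph V) (w : V → ℕ) (Q : Finset V) : ℤ :=
  (wt w (nbr G Q) : ℤ) - (wt w Q : ℤ)

/-- The edge ideal of `G` over `k`. -/
noncomputable def edgeIdeal (k : Type) [Field k] (G : SimpleGraph V) : Ideal (MvPolynomial V k) :=
  Ideal.span {f | ∃ a b, G.Adj a b ∧ f = X a * X b}

end Graph

section Cochains

variable {α : Type} [LinearOrder α]

/-- The sign `(-1)^{number of elements of τ below v}`. -/
def sg (v : α) (τ : Finset α) : ℤ := (-1) ^ ((τ.filter (fun u => u < v)).card)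

/-- Simplicial coboundary of a cochain `c` (a function on finite sets). -/
def cob {k : Type} [Field k] (c : Finset α → k) (τ : Finset α) : k :=
  ∑ v ∈ τ, sg v τ • c (τ.erase v)

/-- `K` is closed under taking subsets. -/
def IsCplx (K : Set (Finset α)) : Prop := ∀ σ ∈ K, ∀ τ, τ ⊆ σ → τ ∈ K

/-- The reduced cohomology of `K` with coefficients in `k` vanishes in all degrees `p - 1`
with `p ≥ t` (`p` is the number of elements of the faces). -/
def Van (k : Type) [Field k] (K : Set (Finset α)) (t : ℕ) : Prop :=
  ∀ p : ℕ, t ≤ p → ∀ c : Finset α → k,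
    (∀ τ ∈ K, τ.card = p + 1 → cob c τ = 0) →
    ∃ b : Finset α → k, ∀ τ ∈ K, τ.card = p → cob b τ = c τ

end Cochains

section Koszul

variable {V : Type} [LinearOrder V] {k : Type} [Field k]

/-- The Koszul differential (cochain version) with respect to the variables, on functions
from finite sets of variables to a module `M` over the polynomial ring. -/
noncomputable def kd {M : Type} [AddCommGroup M] [Module (MvPolynomial V k) M]
    (c : Finset V → M) (τ : Finset V) : M :=
  ∑ v ∈ τ, sg v τ • ((X v : MvPolynomial V k) • c (τ.erase v))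

/-- Exactness of the Koszul complex of a graded object `A` (`A e` = elements of degree `e`)
at exterior degree `p` and coefficient degree `e`. -/
def KE (k : Type) [Field k] {M : Type} [AddCommGroup M] [Module (MvPolynomial V k) M]
    (A : ℕ → Set M) (p e : ℕ) : Prop :=
  ∀ c : Finset V → M, (∀ τ, τ.card = p → c τ ∈ A e) →
    (∀ τ, τ.card = p + 1 → kd (k := k) c τ = 0) →
    ∃ b : Finset V → M, (∀ τ, τ.card + 1 = p → b τ ∈ A (e - 1)) ∧
      ∀ τ, τ.card = p → kd (k := k) b τ = c τ

end Koszul

section MonomialIdeals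

variable {V : Type} [LinearOrder V] {k : Type} [Field k]

/-- The exponent vector of the squarefree monomial with support `σ`. -/
noncomputable def indic (σ : Finset V) : V →₀ ℕ := ∑ v ∈ σ, Finsupp.single v 1

/-- `J` is a monomial ideal. -/
def IsMono (J : Ideal (MvPolynomial V k)) : Prop :=
  ∀ f ∈ J, ∀ m ∈ f.support, monomial m (1 : k) ∈ J

/-- The complex of all `σ ⊆ U` such that the monomial with exponent `w + indic σ` is not
in `J`. -/
def DU (J : Ideal (MvPolynomial V k)) (w : V →₀ ℕ) (U : Finset V) : Set (Finset V) :=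
  {σ | σ ⊆ U ∧ monomial (w + indic σ) (1 : k) ∉ J}

/-- The graded pieces of an ideal. -/
def homPart (J : Ideal (MvPolynomial V k)) (e : ℕ) : Set (MvPolynomial V k) :=
  {f | f ∈ J ∧ f.IsHomogeneous e}

end MonomialIdeals

section Resolutions

variable {V : Type} {k : Type} [Field k]

/-- `f` is homogeneous of degree `e` in the graded free module `⊕_b S(-d b)`. -/
def HomAt {ι : Type} (d : ι → ℕ) (f : ι → MvPolynomial V k) (e : ℕ) : Prop :=
  ∀ b, (e < d b → f b = 0) ∧ (d b ≤ e → (f b).IsHomogeneous (e - d b))

/-- A graded free resolution `... → F_1 → F_0 → J → 0` of an ideal `J` of the polynomial ring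
(standard grading) by graded free modules of finite rank; `F_i = ⊕_b S(-deg i b)`. -/
structure GFR (J : Ideal (MvPolynomial V k)) where
  /-- rank of the `i`-th module -/
  n : ℕ → ℕ
  /-- degrees of the basis elements of the `i`-th module -/
  deg : ∀ i, Fin (n i) → ℕ
  /-- the differentials -/
  d : ∀ i, (Fin (n (i + 1)) → MvPolynomial V k) →ₗ[MvPolynomial V k]
    (Fin (n i) → MvPolynomial V k)
  /-- the augmentation -/
  ε : (Fin (n 0) → MvPolynomial V k) →ₗ[MvPolynomial V k] MvPolynomial V k
  homog_ε : ∀ b, (ε (Pi.single b 1)).IsHomogeneous (deg 0 b)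
  homog_d : ∀ i b, HomAt (deg i) (d i (Pi.single b 1)) (deg (i + 1) b)
  range_ε : LinearMap.range ε = J
  exact_zero : LinearMap.ker ε = LinearMap.range (d 0)
  exact_succ : ∀ i, LinearMap.ker (d i) = LinearMap.range (d (i + 1))

/-- The resolution is minimal: the entries of the matrices of the differentials have no
constant term. -/
def GFR.IsMinimal {J : Ideal (MvPolynomial V k)} (F : GFR J) : Prop :=
  ∀ i b b', constantCoeff (F.d i (Pi.single b 1) b') = 0

end Resolutions

end Pool.Agent.Lib.MP_081cfe_al
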