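import Pool.Agent.Lib.MP_081cfe_al.Core
import Pool.Agent.Lib.MP_081cfe_al.Bridge

/-!
# Vanishing for the complexes of independent sets with small `phi`
-/

namespace Pool.Agent.Lib.MP_081cfe_al

variable {V : Type} [Fintype V] [LinearOrder V] {k : Type} [Field k] {G : SimpleGraph V}
  {w : V → ℕ}

/-- Subsets `S` of `Y` such that `F ∪ S` is contained in an independent set `Q` with
`phi Q ≤ s`. -/
def Dl (G : SimpleGraph V) (w : V → ℕ) (s : ℤ) (F Y : Finset V) : Set (Finset V) :=
  {S | S ⊆ Y ∧ ∃ Q, Indep G Q ∧ F ⊆ Q ∧ S ⊆ Q ∧ phi G w Q ≤ s}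

theorem isCplx_dl (s : ℤ) (F Y : Finset V) : IsCplx (Dl G w s F Y) := by
  rintro S ⟨h1, Q, h2, h3, h4, h5⟩ T hT
  exact ⟨hT.trans h1, Q, h2, h3, hT.trans h4, h5⟩

/-- `Y` contains all vertices of positive weight in the link of `F`. -/
def Full (G : SimpleGraph V) (w : V → ℕ) (F Y : Finset V) : Prop :=
  ∀ v, 0 < w v → v ∉ F → v ∉ nbr G F → v ∈ Y

/-- restriction of `Q` to `F ∪ Y` -/
theorem restr {s : ℤ} {F Y Q : Finset V} (hY : Full G w F Y) (h1 : Indep G Q) (h2 : F ⊆ Q)
    (h3 : phi G w Q ≤ s) : Indep G (Q ∩ (F ∪ Y)) ∧ F ⊆ Q ∩ (F ∪ Y) ∧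
      Q ∩ (F ∪ Y) ⊆ F ∪ Y ∧ phi G w (Q ∩ (F ∪ Y)) ≤ s := by
  refine ⟨h1.mono Finset.inter_subset_left, Finset.subset_inter h2 Finset.subset_union_left,
    Finset.inter_subset_right, ?_⟩
  refine (phi_le_of_subset Finset.inter_subset_left fun a ha ha' => ?_).trans h3
  by_contra hne
  have haF : a ∉ F := fun h => ha' (Finset.mem_inter.2 ⟨ha, Finset.mem_union_left _ h⟩)
  have haY := hY a (Nat.pos_of_ne_zero hne) haF
    (fun h => h1.notMem_nbr ha (nbr_mono h2 h))
  exact ha' (Finset.mem_inter.2 ⟨ha, Finset.mem_union_right _ haY⟩)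

theorem van_dl_neg {s : ℤ} {F Y : Finset V} (hYF : Disjoint Y F) (hY : Full G w F Y)
    (h : s < phi G w F) (t : ℕ) : Van k (Dl G w s F Y) t := by
  classical
  set P : Finset (Finset V) := Finset.univ.filter
    (fun R => Indep G R ∧ F ⊆ R ∧ R ⊆ F ∪ Y ∧ phi G w R ≤ s) with hP
  have hmem : ∀ R, R ∈ P ↔ Indep G R ∧ F ⊆ R ∧ R ⊆ F ∪ Y ∧ phi G w R ≤ s := by
    intro R; simp [hP]
  have hDl : Dl G w s F Y = {S : Finset V | S ⊆ Y ∧ ∃ R ∈ P, S ⊆ R} := by
    ext S
    constructor
    · rintro ⟨hS, Q, h1, h2, h3, h4⟩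
      obtain ⟨g1, g2, g3, g4⟩ := restr hY h1 h2 h4
      exact ⟨hS, _, (hmem _).2 ⟨g1, g2, g3, g4⟩,
        Finset.subset_inter h3 (hS.trans Finset.subset_union_right)⟩
    · rintro ⟨hS, R, hR, hSR⟩
      obtain ⟨g1, g2, g3, g4⟩ := (hmem R).1 hR
      exact ⟨hS, R, g1, g2, hSR, g4⟩
  rw [hDl]
  rcases P.eq_empty_or_nonempty with he | hne
  · rw [he]
    have : {S : Finset V | S ⊆ Y ∧ ∃ R ∈ (∅ : Finset (Finset V)), S ⊆ R} = ∅ := by
      ext S; simp
    rw [this]; exact van_empty t
  · refine van_bridge P Y t ?_ ?_ (van_neg F (F ∪ Y) s P hmem hne t)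
    · intro Q hQ
      obtain ⟨g1, g2, g3, g4⟩ := (hmem Q).1 hQ
      have hFQ : F ⊂ Q := ne_of_sub_mem g2 (by rintro rfl; omega)
      obtain ⟨v, hv, hvF⟩ := Finset.exists_of_ssubset hFQ
      refine ⟨v, hv, ?_⟩
      rcases Finset.mem_union.1 (g3 hv) with h | h
      · exact absurd h hvF
      · exact h
    · rintro S hS hSne ⟨R, hR, hSR⟩
      refine van_neg (G := G) (w := w) (F ∪ S) (F ∪ Y) s _ ?_
        ⟨R, Finset.mem_filter.2 ⟨hR, hSR⟩⟩ 0
      intro R
      rw [Finset.mem_filter, hmem]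
      constructor
      · rintro ⟨⟨g1, g2, g3, g4⟩, g5⟩
        exact ⟨g1, Finset.union_subset g2 g5, g3, g4⟩
      · rintro ⟨g1, g2, g3, g4⟩
        exact ⟨⟨g1, Finset.subset_union_left.trans g2, g3, g4⟩,
          Finset.subset_union_right.trans g2⟩

theorem van_dl_base (hG : GapFree G) (s : ℤ) (j : ℕ)
    (hs : s = (wt w Finset.univ : ℤ) - 2 * j - 1) {F Y : Finset V} (hF : Indep G F)
    (hFj : wt w F ≤ j) (hFs : phi G w F ≤ s) (hYF : Disjoint Y F) (hY : Full G w F Y)
    (hY' : ∀ v ∈ Y, 0 < w v ∧ v ∉ nbr G F) :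
    Van k (Dl G w s F Y) (s - phi G w F + 1).toNat := by
  have hfam : ∀ R, R ∈ fam G w F s ↔ Indep G R ∧ F ⊂ R ∧ R ⊆ F ∪ Y ∧ phi G w R ≤ s := by
    intro R
    rw [mem_fam]
    constructor
    · rintro ⟨h1, h2, h3, h4⟩
      refine ⟨h1, h2, fun a ha => ?_, h4⟩
      by_cases haF : a ∈ F
      · exact Finset.mem_union_left _ haF
      · refine Finset.mem_union_right _ (hY a ?_ haF
          (fun h => h1.notMem_nbr ha (nbr_mono h2.subset h)))
        rcases h3 a ha with h | h
        · exact absurd h haF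
        · exact h
    · rintro ⟨h1, h2, h3, h4⟩
      refine ⟨h1, h2, fun a ha => ?_, h4⟩
      rcases Finset.mem_union.1 (h3 ha) with h | h
      · exact Or.inl h
      · exact Or.inr (hY' a h).1
  have hrestr : ∀ S, S ⊆ Y → S.Nonempty → ∀ Q, Indep G Q → F ⊆ Q → S ⊆ Q →
      phi G w Q ≤ s → Q ∩ (F ∪ Y) ∈ fam G w F s := by
    intro S hS hSne Q h1 h2 h3 h4
    obtain ⟨g1, g2, g3, g4⟩ := restr hY h1 h2 h4
    obtain ⟨v, hv⟩ := hSne
    refine (hfam _).2 ⟨g1, ne_of_sub_mem g2 ?_, g3, g4⟩
    intro he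
    have : v ∈ F := he ▸ Finset.mem_inter.2 ⟨h3 hv, Finset.mem_union_right _ (hS hv)⟩
    exact (Finset.disjoint_left.1 hYF (hS hv)) this
  rcases (fam G w F s).eq_empty_or_nonempty with he | hne
  · refine van_of_card fun S hS => ?_
    obtain ⟨hS, Q, h1, h2, h3, h4⟩ := hS
    rcases S.eq_empty_or_nonempty with rfl | hSne
    · rw [Finset.card_empty]; omega
    · have := hrestr S hS hSne Q h1 h2 h3 h4
      rw [he] at this
      exact absurd this (Finset.notMem_empty _)
  · have hDl : Dl G w s F Y = {S : Finset V | S ⊆ Y ∧ ∃ R ∈ fam G w F s, S ⊆ R} := by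
      ext S
      constructor
      · rintro ⟨hS, Q, h1, h2, h3, h4⟩
        refine ⟨hS, ?_⟩
        rcases S.eq_empty_or_nonempty with rfl | hSne
        · obtain ⟨R, hR⟩ := hne
          exact ⟨R, hR, Finset.empty_subset _⟩
        · exact ⟨_, hrestr S hS hSne Q h1 h2 h3 h4,
            Finset.subset_inter h3 (hS.trans Finset.subset_union_right)⟩
      · rintro ⟨hS, R, hR, hSR⟩
        obtain ⟨g1, g2, g3, g4⟩ := (hfam R).1 hR
        exact ⟨hS, R, g1, g2.subset, hSR, g4⟩
    rw [hDl]
    refine van_bridge _ Y _ ?_ ?_ (van_star hG s j hs _ F rfl hF hFs hFj)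
    · intro Q hQ
      obtain ⟨g1, g2, g3, g4⟩ := (hfam Q).1 hQ
      obtain ⟨v, hv, hvF⟩ := Finset.exists_of_ssubset g2
      refine ⟨v, hv, ?_⟩
      rcases Finset.mem_union.1 (g3 hv) with h | h
      · exact absurd h hvF
      · exact h
    · rintro S hS hSne ⟨R, hR, hSR⟩
      refine van_neg (G := G) (w := w) (F ∪ S) (F ∪ Y) s _ ?_
        ⟨R, Finset.mem_filter.2 ⟨hR, hSR⟩⟩ 0
      intro R
      rw [Finset.mem_filter, hfam]
      constructor
      · rintro ⟨⟨g1, g2, g3, g4⟩, g5⟩
        exact ⟨g1, Finset.union_subset g2.subset g5, g3, g4⟩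
      · rintro ⟨g1, g2, g3, g4⟩
        refine ⟨⟨g1, ne_of_sub_mem (Finset.subset_union_left.trans g2) ?_, g3, g4⟩,
          Finset.subset_union_right.trans g2⟩
        rintro rfl
        obtain ⟨v, hv⟩ := hSne
        exact (Finset.disjoint_left.1 hYF (hS hv)) (g2 (Finset.mem_union_right _ hv))

theorem del_dl (s : ℤ) (F Y : Finset V) (y : V) :
    del (Dl G w s F Y) y = Dl G w s F (Y.erase y) := by
  ext S
  constructor
  · rintro ⟨⟨h1, h2⟩, h3⟩
    exact ⟨fun a ha => Finset.mem_erase.2 ⟨fun e => h3 (e ▸ ha), h1 ha⟩, h2⟩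
  · rintro ⟨h1, h2⟩
    exact ⟨⟨h1.trans (Finset.erase_subset _ _), h2⟩,
      fun h => (Finset.mem_erase.1 (h1 h)).1 rfl⟩

theorem lk_dl (s : ℤ) (F Y : Finset V) (y : V) (hy : y ∈ Y) :
    lk (Dl G w s F Y) y = Dl G w s (insert y F) (Y.erase y) := by
  ext S
  constructor
  · rintro ⟨h0, h1, Q, h2, h3, h4, h5⟩
    refine ⟨fun a ha => Finset.mem_erase.2 ⟨fun e => h0 (e ▸ ha),
      h1 (Finset.mem_insert_of_mem ha)⟩, Q, h2,
      Finset.insert_subset (h4 (Finset.mem_insert_self _ _)) h3,
      (Finset.subset_insert _ _).trans h4, h5⟩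
  · rintro ⟨h1, Q, h2, h3, h4, h5⟩
    exact ⟨fun h => (Finset.mem_erase.1 (h1 h)).1 rfl,
      Finset.insert_subset hy (h1.trans (Finset.erase_subset _ _)), Q, h2,
      (Finset.subset_insert _ _).trans h3,
      Finset.insert_subset (h3 (Finset.mem_insert_self _ _)) h4, h5⟩

theorem disj_step {F Y : Finset V} (hYF : Disjoint Y F) (y : V) :
    Disjoint (Y.erase y) (insert y F) := by
  rw [Finset.disjoint_left] at hYF ⊢
  intro a ha hb
  rw [Finset.mem_erase] at ha
  rcases Finset.mem_insert.1 hb with h | h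
  · exact ha.1 h
  · exact hYF ha.2 h

theorem full_step {F Y : Finset V} (hY : Full G w F Y) (y : V) :
    Full G w (insert y F) (Y.erase y) := by
  intro v h1 h2 h3
  exact Finset.mem_erase.2 ⟨fun e => h2 (e ▸ Finset.mem_insert_self _ _),
    hY v h1 (fun h => h2 (Finset.mem_insert_of_mem h))
      (fun h => h3 (nbr_mono (Finset.subset_insert _ _) h))⟩

/-- dominated case -/
theorem van_dl_dom (hG : GapFree G) (s : ℤ) (j : ℕ)
    (hs : s = (wt w Finset.univ : ℤ) - 2 * j - 1) (n : ℕ) : ∀ Y : Finset V, Y.card = n →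
    ∀ F : Finset V, Indep G F → wt w F ≤ j → Disjoint Y F → Full G w F Y →
    (∃ x ∈ Y, x ∉ nbr G F ∧ ∀ v, 0 < w v → v ∉ F → v ∉ nbr G F → ¬ G.Adj x v) →
    ∀ t, Van k (Dl G w s F Y) t := by
  induction n with
  | zero =>
    rintro Y hY0 F hF hFj hYF hY ⟨x, hx, _⟩ t
    rw [Finset.card_eq_zero.1 hY0] at hx
    exact absurd hx (Finset.notMem_empty x)
  | succ n ih =>
    rintro Y hYn F hF hFj hYF hY ⟨x, hx, hxF, hdom⟩ t
    by_cases hex : ∃ y ∈ Y, y ∉ nbr G F ∧ G.Adj x y
    · obtain ⟨y, hy, hyF, hxy⟩ := hex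
      have hyF' : y ∉ F := Finset.disjoint_left.1 hYF hy
      have hwy : w y = 0 := by
        by_contra hne
        exact hdom y (Nat.pos_of_ne_zero hne) hyF' hyF hxy
      have hcard : (Y.erase y).card = n := by rw [Finset.card_erase_of_mem hy, hYn]; rfl
      refine van_of_del_lk (isCplx_dl s F Y) y ?_ ?_
      · rw [del_dl]
        refine ih _ hcard F hF hFj (hYF.mono_left (Finset.erase_subset _ _)) ?_ ?_ t
        · intro v h1 h2 h3
          exact Finset.mem_erase.2 ⟨fun e => by rw [e] at h1; omega, hY v h1 h2 h3⟩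
        · exact ⟨x, Finset.mem_erase.2 ⟨fun e => G.loopless.irrefl y (e ▸ hxy), hx⟩, hxF, hdom⟩
      · rw [lk_dl s F Y y hy]
        have hF' : Indep G (insert y F) := indep_insert hF hyF
        have hwt' : wt w (insert y F) = wt w F := by
          unfold wt
          rw [Finset.sum_insert hyF', hwy, zero_add]
        by_cases hv : ∃ v, 0 < w v ∧ v ∉ insert y F ∧ v ∉ nbr G (insert y F)
        · obtain ⟨v, hv1, hv2, hv3⟩ := hv
          have hxn : x ∈ nbr G (insert y F) := mem_nbr.2 ⟨y, Finset.mem_insert_self _ _, hxy⟩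
          have hgood : ∀ u, 0 < w u → u ∉ insert y F → u ∉ nbr G (insert y F) →
              u ≠ x ∧ u ≠ y ∧ ¬ G.Adj u x ∧ ¬ G.Adj u y := by
            intro u h1 h2 h3
            refine ⟨fun e => h3 (e ▸ hxn), fun e => h2 (e ▸ Finset.mem_insert_self _ _), ?_, ?_⟩
            · intro h
              exact hdom u h1 (fun h' => h2 (Finset.mem_insert_of_mem h'))
                (fun h' => h3 (nbr_mono (Finset.subset_insert _ _) h')) h.symm
            · intro h
              exact h3 (mem_nbr.2 ⟨y, Finset.mem_insert_self _ _, h⟩)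
          refine ih _ hcard (insert y F) hF' (by omega) (disj_step hYF y) (full_step hY y)
            ⟨v, full_step hY y v hv1 hv2 hv3, hv3, fun u hu1 hu2 hu3 hvu => ?_⟩ _
          obtain ⟨a1, a2, a3, a4⟩ := hgood v hv1 hv2 hv3
          obtain ⟨b1, b2, b3, b4⟩ := hgood u hu1 hu2 hu3
          rcases hG v u x y hvu hxy with h | h | h | h | h | h | h | h
          · exact a1 h
          · exact a2 h
          · exact b1 h
          · exact b2 h
          · exact a3 h
          · exact a4 h
          · exact b3 h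
          · exact b4 h
        · push Not at hv
          refine van_dl_neg (disj_step hYF y) (full_step hY y) ?_ _
          have h1 : wt w Finset.univ = wt w (insert y F ∪ nbr G (insert y F)) := by
            have h2 := wt_sdiff (w := w) (Finset.subset_univ (insert y F ∪ nbr G (insert y F)))
            have h3 : wt w (Finset.univ \ (insert y F ∪ nbr G (insert y F))) = 0 := by
              apply wt_eq_zero
              intro a ha
              by_contra hne
              simp only [Finset.mem_sdiff, Finset.mem_univ, true_and, Finset.mem_union,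
                not_or] at ha
              exact ha.2 (hv a (Nat.pos_of_ne_zero hne) ha.1)
            omega
          rw [wt_union (disjoint_nbr hF'), hwt'] at h1
          unfold phi
          rw [hwt']
          omega
    · push Not at hex
      refine van_cone x ?_ t
      rintro S ⟨hS, Q, h1, h2, h3, h4⟩
      obtain ⟨g1, g2, g3, g4⟩ := restr hY h1 h2 h4
      have hxA : x ∉ nbr G (Q ∩ (F ∪ Y)) := by
        intro h
        obtain ⟨b, hb, hxb⟩ := mem_nbr.1 h
        rcases Finset.mem_union.1 (g3 hb) with h' | h'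
        · exact hxF (mem_nbr.2 ⟨b, h', hxb⟩)
        · refine hex b h' (fun h'' => ?_) hxb
          exact g1.notMem_nbr hb (nbr_mono g2 h'')
      refine ⟨Finset.insert_subset hx hS, insert x (Q ∩ (F ∪ Y)), indep_insert g1 hxA,
        g2.trans (Finset.subset_insert _ _),
        Finset.insert_subset_insert _ (Finset.subset_inter h3
          (hS.trans Finset.subset_union_right)), ?_⟩
      set A := Q ∩ (F ∪ Y) with hA
      have e1 : wt w A ≤ wt w (insert x A) := wt_mono (Finset.subset_insert _ _)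
      have e2 : wt w (nbr G (insert x A)) = wt w (nbr G A) := by
        have h5 := wt_sdiff (w := w) (nbr_mono (G := G) (Finset.subset_insert x A))
        have h6 : wt w (nbr G (insert x A) \ nbr G A) = 0 := by
          apply wt_eq_zero
          intro a ha
          rw [Finset.mem_sdiff] at ha
          obtain ⟨b, hb, hab⟩ := mem_nbr.1 ha.1
          have hbx : b = x := by
            rcases Finset.mem_insert.1 hb with h | h
            · exact h
            · exact absurd (mem_nbr.2 ⟨b, h, hab⟩) ha.2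
          rw [hbx] at hab
          by_contra hne
          refine hdom a (Nat.pos_of_ne_zero hne) ?_ ?_ hab.symm
          · intro h; exact hxF (mem_nbr.2 ⟨a, h, hab.symm⟩)
          · intro h; exact ha.2 (nbr_mono g2 h)
        omega
      unfold phi at g4 ⊢
      omega

/-- the general case -/
theorem van_dl (hG : GapFree G) (s : ℤ) (j : ℕ)
    (hs : s = (wt w Finset.univ : ℤ) - 2 * j - 1) (n : ℕ) : ∀ Y : Finset V, Y.card = n →
    ∀ F : Finset V, Indep G F → wt w F ≤ j → phi G w F ≤ s → Disjoint Y F → Full G w F Y →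
    Van k (Dl G w s F Y) (s - phi G w F + 1).toNat := by
  induction n with
  | zero =>
    intro Y hY0 F hF hFj hFs hYF hY
    have hYe := Finset.card_eq_zero.1 hY0
    refine van_dl_base hG s j hs hF hFj hFs hYF hY ?_
    intro v hv
    rw [hYe] at hv
    exact absurd hv (Finset.notMem_empty v)
  | succ n ih =>
    intro Y hYn F hF hFj hFs hYF hY
    by_cases hex : ∃ x ∈ Y, w x = 0 ∨ x ∈ nbr G F
    · obtain ⟨x, hx, hxor⟩ := hex
      have hxF : x ∉ F := Finset.disjoint_left.1 hYF hx
      have hcard : (Y.erase x).card = n := by rw [Finset.card_erase_of_mem hx, hYn]; rfl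
      have hdel : Van k (del (Dl G w s F Y) x) (s - phi G w F + 1).toNat := by
        rw [del_dl]
        refine ih _ hcard F hF hFj hFs (hYF.mono_left (Finset.erase_subset _ _)) ?_
        intro v h1 h2 h3
        refine Finset.mem_erase.2 ⟨?_, hY v h1 h2 h3⟩
        intro e
        rw [e] at h1 h3
        rcases hxor with h | h
        · omega
        · exact h3 h
      by_cases hxn : x ∈ nbr G F
      · refine van_of_del_lk (isCplx_dl s F Y) x hdel ?_
        have : lk (Dl G w s F Y) x = ∅ := by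
          rw [lk_dl s F Y x hx]
          ext S
          constructor
          · rintro ⟨_, Q, h2, h3, _, _⟩
            exfalso
            exact h2.notMem_nbr (h3 (Finset.mem_insert_self _ _))
              (nbr_mono ((Finset.subset_insert _ _).trans h3) hxn)
          · intro h; exact absurd h (Set.notMem_empty _)
        rw [this]; exact van_empty _
      · have hwx : w x = 0 := hxor.resolve_right hxn
        by_cases hdom : ∀ v, 0 < w v → v ∉ F → v ∉ nbr G F → ¬ G.Adj x v
        · exact van_dl_dom hG s j hs _ Y rfl F hF hFj hYF hY ⟨x, hx, hxn, hdom⟩ _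
        · push Not at hdom
          obtain ⟨v, hv1, hv2, hv3, hv4⟩ := hdom
          have hF' : Indep G (insert x F) := indep_insert hF hxn
          have hwt' : wt w (insert x F) = wt w F := by
            unfold wt
            rw [Finset.sum_insert hxF, hwx, zero_add]
          have hphi : phi G w F + 1 ≤ phi G w (insert x F) := by
            have h1 := wt_sdiff (w := w) (nbr_mono (G := G) (Finset.subset_insert x F))
            have h2 : w v ≤ wt w (nbr G (insert x F) \ nbr G F) := by
              refine Finset.single_le_sum (f := w) (fun _ _ => Nat.zero_le _) ?_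
              exact Finset.mem_sdiff.2 ⟨mem_nbr.2 ⟨x, Finset.mem_insert_self _ _, hv4.symm⟩, hv3⟩
            unfold phi
            rw [hwt']
            omega
          refine van_of_del_lk (isCplx_dl s F Y) x hdel ?_
          rw [lk_dl s F Y x hx]
          by_cases hle : phi G w (insert x F) ≤ s
          · refine (ih _ hcard (insert x F) hF' (by omega) hle (disj_step hYF x)
              (full_step hY x)).mono ?_
            omega
          · exact van_dl_neg (disj_step hYF x) (full_step hY x) (by omega) _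
    · push Not at hex
      refine van_dl_base hG s j hs hF hFj hFs hYF hY ?_
      intro v hv
      exact ⟨Nat.pos_of_ne_zero (hex v hv).1, (hex v hv).2⟩

/-- Vanishing for the complexes with support on infinite vertices. -/
theorem van_main (hG : GapFree G) (q t : ℕ) (ht : 2 * q ≤ t)
    (hX : ∀ Y : Finset V, Van k {S : Finset V | S ⊆ Y ∧ Indep G S} (t - q + 1))
    (w : V → ℕ) (Y : Finset V) (hY : ∀ v, 0 < w v → v ∈ Y) :
    Van k {S : Finset V | S ⊆ Y ∧ ∃ Q, Indep G Q ∧ S ⊆ Q ∧
      (wt w Finset.univ : ℤ) + phi G w Q < 2 * q} (t - wt w Finset.univ) := by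
  by_cases hq : q ≤ wt w Finset.univ
  · have hEq : {S : Finset V | S ⊆ Y ∧ ∃ Q, Indep G Q ∧ S ⊆ Q ∧
        (wt w Finset.univ : ℤ) + phi G w Q < 2 * q}
        = Dl G w (2 * q - wt w Finset.univ - 1) ∅ Y := by
      ext S
      constructor
      · rintro ⟨h1, Q, h2, h3, h4⟩
        exact ⟨h1, Q, h2, Finset.empty_subset _, h3, by omega⟩
      · rintro ⟨h1, Q, h2, _, h3, h4⟩
        exact ⟨h1, Q, h2, h3, by omega⟩
    rw [hEq]
    have hfull : Full G w ∅ Y := fun v h _ _ => hY v h
    have hdis : Disjoint Y ∅ := Finset.disjoint_empty_right Y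
    by_cases hs : (0 : ℤ) ≤ 2 * q - wt w Finset.univ - 1
    · have := van_dl (k := k) hG (2 * q - wt w Finset.univ - 1 : ℤ) (wt w Finset.univ - q)
        (by push_cast [hq]; ring) _ Y rfl ∅ indep_empty (by simp [wt])
        (by rw [phi_empty]; exact hs) hdis hfull
      rw [phi_empty] at this
      exact this.mono (by omega)
    · exact van_dl_neg hdis hfull (by rw [phi_empty]; omega) _
  · push Not at hq
    have hEq : {S : Finset V | S ⊆ Y ∧ ∃ Q, Indep G Q ∧ S ⊆ Q ∧
        (wt w Finset.univ : ℤ) + phi G w Q < 2 * q} = {S : Finset V | S ⊆ Y ∧ Indep G S} := by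
      ext S
      constructor
      · rintro ⟨h1, Q, h2, h3, h4⟩
        exact ⟨h1, h2.mono h3⟩
      · rintro ⟨h1, h2⟩
        refine ⟨h1, S, h2, subset_rfl, ?_⟩
        have : wt w (nbr G S) ≤ wt w Finset.univ := wt_mono (Finset.subset_univ _)
        unfold phi
        omega
    rw [hEq]
    exact (hX Y).mono (by omega)

end Pool.Agent.Lib.MP_081cfe_al
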