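import Pool.Agent.Lib.MP_081cfe_al.Defs

/-!
# MP_081cfe_al: module Koszul

Exactness of the Koszul complex over a polynomial ring, and the translation between Koszul
exactness of a monomial ideal and vanishing of simplicial cohomology.
-/

namespace Pool.Agent.Lib.MP_081cfe_al

open MvPolynomial Finset

namespace Ksz

/-! ### `d ∘ d = 0` -/

section DD

variable {V : Type} [LinearOrder V]

lemma sg_sq (v : V) (τ : Finset V) : sg v τ * sg v τ = 1 := by
  unfold sg
  rw [← pow_add, ← two_mul, pow_mul]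
  simp

lemma sg_erase_of_lt {u v : V} (τ : Finset V) (huv : u < v) : sg u (τ.erase v) = sg u τ := by
  unfold sg
  congr 2
  ext a
  simp only [mem_filter, mem_erase]
  constructor
  · rintro ⟨⟨_, h1⟩, h2⟩
    exact ⟨h1, h2⟩
  · rintro ⟨h1, h2⟩
    exact ⟨⟨(h2.trans huv).ne, h1⟩, h2⟩

lemma sg_erase_of_gt {u v : V} {τ : Finset V} (hu : u ∈ τ) (huv : u < v) :
    sg v (τ.erase u) = - sg v τ := by
  unfold sg
  have h : τ.filter (fun a => a < v) = insert u ((τ.erase u).filter (fun a => a < v)) := by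
    ext a
    simp only [mem_filter, mem_erase, mem_insert]
    constructor
    · rintro ⟨h1, h2⟩
      by_cases h : a = u
      · exact Or.inl h
      · exact Or.inr ⟨⟨h, h1⟩, h2⟩
    · rintro (h | ⟨⟨_, h1⟩, h2⟩)
      · subst h
        exact ⟨hu, huv⟩
      · exact ⟨h1, h2⟩
  have h' : u ∉ (τ.erase u).filter (fun a => a < v) := by simp
  rw [h, card_insert_of_notMem h', pow_succ]
  ring

lemma sg_mul_antisymm {u v : V} {τ : Finset V} (hu : u ∈ τ) (hv : v ∈ τ) (huv : u ≠ v) :
    sg v τ * sg u (τ.erase v) = - (sg u τ * sg v (τ.erase u)) := by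
  rcases lt_or_gt_of_ne huv with h | h
  · rw [sg_erase_of_lt τ h, sg_erase_of_gt hu h]
    ring
  · rw [sg_erase_of_lt τ h, sg_erase_of_gt hv h]
    ring

variable {k : Type} [Field k]

lemma kd_kd {M : Type} [AddCommGroup M] [Module (MvPolynomial V k) M]
    (c : Finset V → M) (τ : Finset V) : kd (k := k) (kd (k := k) c) τ = 0 := by
  classical
  unfold kd
  have h1 : ∑ v ∈ τ, sg v τ • ((X v : MvPolynomial V k) •
      ∑ u ∈ τ.erase v, sg u (τ.erase v) • ((X u : MvPolynomial V k) • c ((τ.erase v).erase u)))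
      = ∑ x ∈ τ.sigma (fun v => τ.erase v),
        (sg x.1 τ * sg x.2 (τ.erase x.1)) • (((X x.1 : MvPolynomial V k) * X x.2) •
          c ((τ.erase x.1).erase x.2)) := by
    rw [sum_sigma]
    refine sum_congr rfl fun v _ => ?_
    rw [smul_sum, smul_sum]
    refine sum_congr rfl fun u _ => ?_
    rw [smul_comm (X v : MvPolynomial V k) (sg u (τ.erase v)), smul_smul, smul_smul]
  rw [h1]
  refine sum_involution (fun x _ => ⟨x.2, x.1⟩) ?_ ?_ ?_ ?_
  · rintro ⟨v, u⟩ hx
    simp only [mem_sigma, mem_erase] at hx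
    obtain ⟨hv, huv, hu⟩ := hx
    simp only
    rw [sg_mul_antisymm hu hv huv, mul_comm (X v : MvPolynomial V k) (X u),
      erase_right_comm (a := v) (b := u), neg_smul, neg_add_cancel]
  · rintro ⟨v, u⟩ hx _ h
    simp only [mem_sigma, mem_erase] at hx
    have := congrArg Sigma.fst h
    exact hx.2.1 this
  · rintro ⟨v, u⟩ hx
    simp only [mem_sigma, mem_erase] at hx ⊢
    exact ⟨hx.2.2, hx.2.1.symm, hx.1⟩
  · rintro ⟨v, u⟩ hx
    rfl

lemma kd_sub {M : Type} [AddCommGroup M] [Module (MvPolynomial V k) M]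
    (c c' : Finset V → M) (τ : Finset V) :
    kd (k := k) (fun ρ => c ρ - c' ρ) τ = kd (k := k) c τ - kd (k := k) c' τ := by
  unfold kd
  rw [← sum_sub_distrib]
  refine sum_congr rfl fun v _ => ?_
  rw [smul_sub, smul_sub]

end DD

/-! ### the full simplex -/

lemma van_simplex {V : Type} [LinearOrder V] (k : Type) [Field k] (U : Finset V)
    (hU : U.Nonempty) : Van k {σ : Finset V | σ ⊆ U} 0 := by
  intro p _ c hc
  set v0 := U.min' hU with hv0
  have hv0U : v0 ∈ U := U.min'_mem hU
  have hmin : ∀ u ∈ U, v0 ≤ u := fun u hu => U.min'_le u hu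
  have hsg : ∀ τ, τ ⊆ U → sg v0 τ = 1 := by
    intro τ hτ
    unfold sg
    have : τ.filter (fun u => u < v0) = ∅ := by
      ext a
      simp only [mem_filter, notMem_empty, iff_false, not_and, not_lt]
      exact fun ha => hmin a (hτ ha)
    rw [this]
    simp
  refine ⟨fun τ => if v0 ∈ τ then 0 else c (insert v0 τ), ?_⟩
  intro τ hτ hcard
  have hτU : τ ⊆ U := hτ
  by_cases hv : v0 ∈ τ
  · unfold cob
    rw [sum_eq_single v0]
    · rw [hsg τ hτU]
      simp [insert_erase hv]
    · intro v _ hne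
      have : v0 ∈ τ.erase v := mem_erase.mpr ⟨hne.symm, hv⟩
      simp [this]
    · intro h
      exact absurd hv h
  · have h0 := hc (insert v0 τ) (insert_subset hv0U hτU)
      (by rw [card_insert_of_notMem hv, hcard])
    unfold cob at h0 ⊢
    rw [sum_insert hv, hsg _ (insert_subset hv0U hτU), erase_insert hv, one_smul] at h0
    rw [eq_neg_of_add_eq_zero_left h0, ← sum_neg_distrib]
    refine sum_congr rfl fun v hvτ => ?_
    have hne : v ≠ v0 := fun h => hv (h ▸ hvτ)
    have hlt : v0 < v := lt_of_le_of_ne (hmin v (hτU hvτ)) hne.symm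
    have h1 : v0 ∉ τ.erase v := fun h => hv (mem_of_mem_erase h)
    have h2 : sg v (insert v0 τ) = - sg v τ := by
      have := sg_erase_of_gt (u := v0) (v := v) (τ := insert v0 τ) (mem_insert_self _ _) hlt
      rw [erase_insert hv] at this
      rw [this, neg_neg]
    have h3 : (insert v0 τ).erase v = insert v0 (τ.erase v) :=
      erase_insert_of_ne hne.symm
    simp only
    rw [if_neg h1, h2, h3, neg_smul, neg_neg]

/-! ### pieces -/

section Pieces

variable {V : Type} [Fintype V] [LinearOrder V] {k : Type} [Field k]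

/-- The twist. -/
def eps (U σ : Finset V) : ℤ := ∏ v ∈ σ, (-1) ^ ((Uᶜ.filter (fun u => u < v)).card)

lemma eps_sq (U σ : Finset V) : eps U σ * eps U σ = 1 := by
  unfold eps
  rw [← prod_mul_distrib]
  refine prod_eq_one fun v _ => ?_
  rw [← pow_add, ← two_mul, pow_mul]
  simp

lemma eps_erase (U : Finset V) {σ : Finset V} {v : V} (hv : v ∈ σ) :
    eps U σ = (-1) ^ ((Uᶜ.filter (fun u => u < v)).card) * eps U (σ.erase v) := by
  unfold eps
  rw [← mul_prod_erase σ _ hv]

lemma sg_union (U : Finset V) {σ : Finset V} (hσ : σ ⊆ U) (v : V) :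
    sg v (Uᶜ ∪ σ) = (-1) ^ ((Uᶜ.filter (fun u => u < v)).card) * sg v σ := by
  unfold sg
  rw [filter_union, card_union_of_disjoint, pow_add]
  rw [disjoint_left]
  intro a ha hb
  simp only [mem_filter, mem_compl] at ha hb
  exact ha.1 (hσ hb.1)

lemma sg_eps (U : Finset V) {σ : Finset V} (hσ : σ ⊆ U) {v : V} (hv : v ∈ σ) :
    sg v (Uᶜ ∪ σ) * eps U (σ.erase v) = eps U σ * sg v σ := by
  rw [sg_union U hσ, eps_erase U hv]
  ring

omit [Fintype V] in
lemma indic_apply (σ : Finset V) (v : V) : indic σ v = if v ∈ σ then 1 else 0 := by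
  unfold indic
  rw [Finsupp.finsetSum_apply]
  simp [Finsupp.single_apply]

omit [Fintype V] [LinearOrder V] in
lemma degree_indic (σ : Finset V) : (indic σ).degree = σ.card := by
  unfold indic
  rw [map_sum]
  simp [Finsupp.degree_single]

omit [Fintype V] in
lemma indic_erase {σ : Finset V} {v : V} (hv : v ∈ σ) :
    indic σ = indic (σ.erase v) + Finsupp.single v 1 := by
  unfold indic
  rw [sum_erase_add _ _ hv]

/-- The coefficients of `c` in the piece `(w, U)`. -/
noncomputable def pc (c : Finset V → MvPolynomial V k) (w : V →₀ ℕ) (U : Finset V)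
    (ρ : Finset V) : k := (eps U ρ) • coeff (w + indic ρ) (c (Uᶜ ∪ ρ))

lemma union_erase {U σ : Finset V} (hσ : σ ⊆ U) {v : V} (hv : v ∈ σ) :
    (Uᶜ ∪ σ).erase v = Uᶜ ∪ σ.erase v := by
  ext a
  simp only [mem_erase, mem_union, mem_compl]
  constructor
  · rintro ⟨h1, h2 | h2⟩
    · exact Or.inl h2
    · exact Or.inr ⟨h1, h2⟩
  · rintro (h | ⟨h1, h2⟩)
    · refine ⟨?_, Or.inl h⟩
      rintro rfl
      exact h (hσ hv)
    · exact ⟨h1, Or.inr h2⟩

omit [Fintype V] [LinearOrder V] in
lemma coeff_zsmul' (m : V →₀ ℕ) (z : ℤ) (p : MvPolynomial V k) :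
    coeff m (z • p) = z • coeff m p :=
  map_zsmul (coeffAddMonoidHom m) z p

lemma coeff_kd_aux (c : Finset V → MvPolynomial V k) (w : V →₀ ℕ) (U σ : Finset V)
    (hw : w.support ⊆ U) (hσ : σ ⊆ U) :
    coeff (w + indic σ) (kd (k := k) c (Uᶜ ∪ σ)) =
      ∑ v ∈ σ, sg v (Uᶜ ∪ σ) • coeff (w + indic (σ.erase v)) (c (Uᶜ ∪ σ.erase v)) := by
  unfold kd
  rw [coeff_sum]
  symm
  have hsub : σ ⊆ Uᶜ ∪ σ := subset_union_right
  rw [← sum_subset hsub (f := fun v => coeff (w + indic σ)
    (sg v (Uᶜ ∪ σ) • ((X v : MvPolynomial V k) • c ((Uᶜ ∪ σ).erase v))))]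
  · refine sum_congr rfl fun v hv => ?_
    rw [coeff_zsmul', smul_eq_mul, union_erase hσ hv, indic_erase hv, ← add_assoc,
      coeff_X_mul', if_pos (by simp), add_tsub_cancel_right]
  · intro v hv hvσ
    rw [coeff_zsmul', smul_eq_mul, coeff_X_mul', if_neg, smul_zero]
    rw [Finsupp.mem_support_iff, not_not, Finsupp.add_apply, indic_apply, if_neg hvσ, add_zero]
    have hvU : v ∉ U := by
      rcases mem_union.mp hv with h | h
      · exact mem_compl.mp h
      · exact absurd h hvσ
    by_contra h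
    exact hvU (hw (Finsupp.mem_support_iff.mpr h))

/-- The piece identity. -/
lemma coeff_kd (c : Finset V → MvPolynomial V k) (w : V →₀ ℕ) (U σ : Finset V)
    (hw : w.support ⊆ U) (hσ : σ ⊆ U) :
    eps U σ • coeff (w + indic σ) (kd (k := k) c (Uᶜ ∪ σ)) = cob (pc c w U) σ := by
  rw [coeff_kd_aux c w U σ hw hσ]
  unfold cob pc
  rw [smul_sum]
  refine sum_congr rfl fun v hv => ?_
  rw [smul_smul, smul_smul]
  congr 1
  have h1 := sg_eps U hσ hv
  have h2 := eps_sq U σ
  have h3 := eps_sq U (σ.erase v)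
  calc eps U σ * sg v (Uᶜ ∪ σ)
      = eps U σ * (sg v (Uᶜ ∪ σ) * eps U (σ.erase v)) * eps U (σ.erase v) := by
        rw [mul_assoc, mul_assoc, h3, mul_one]
    _ = (eps U σ * eps U σ) * sg v σ * eps U (σ.erase v) := by rw [h1]; ring
    _ = sg v σ * eps U (σ.erase v) := by rw [h2, one_mul]

/-- The set `U` of the piece of the monomial `m` at `τ`. -/
noncomputable def UU (τ : Finset V) (m : V →₀ ℕ) : Finset V :=
  univ.filter (fun v => v ∉ τ ∨ m v ≠ 0)

/-- The set `σ` of the piece of the monomial `m` at `τ`. -/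
noncomputable def SS (τ : Finset V) (m : V →₀ ℕ) : Finset V := τ.filter (fun v => m v ≠ 0)

/-- The exponent `w` of the piece of the monomial `m` at `τ`. -/
noncomputable def WW (τ : Finset V) (m : V →₀ ℕ) : V →₀ ℕ := m - indic (SS τ m)

lemma UU_eq {w : V →₀ ℕ} {U σ : Finset V} (hw : w.support ⊆ U) (hσ : σ ⊆ U) :
    UU (Uᶜ ∪ σ) (w + indic σ) = U := by
  ext v
  simp only [UU, mem_filter, mem_univ, true_and, mem_union, mem_compl, Finsupp.add_apply,
    indic_apply]
  constructor
  · rintro (h | h)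
    · by_contra hv
      exact h (Or.inl hv)
    · by_cases hv : v ∈ σ
      · exact hσ hv
      · rw [if_neg hv, add_zero] at h
        exact hw (Finsupp.mem_support_iff.mpr h)
  · intro hv
    by_cases h : v ∈ σ
    · right
      rw [if_pos h]
      omega
    · left
      rintro (h1 | h1)
      · exact h1 hv
      · exact h h1

lemma SS_eq {w : V →₀ ℕ} {U σ : Finset V} (hw : w.support ⊆ U) (hσ : σ ⊆ U) :
    SS (Uᶜ ∪ σ) (w + indic σ) = σ := by
  ext v
  simp only [SS, mem_filter, mem_union, mem_compl, Finsupp.add_apply, indic_apply]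
  constructor
  · rintro ⟨h1 | h1, h2⟩
    · by_cases hv : v ∈ σ
      · exact hv
      · rw [if_neg hv, add_zero] at h2
        exact absurd (hw (Finsupp.mem_support_iff.mpr h2)) h1
    · exact h1
  · intro hv
    refine ⟨Or.inr hv, ?_⟩
    rw [if_pos hv]
    omega

lemma WW_eq {w : V →₀ ℕ} {U σ : Finset V} (hw : w.support ⊆ U) (hσ : σ ⊆ U) :
    WW (Uᶜ ∪ σ) (w + indic σ) = w := by
  rw [WW, SS_eq hw hσ, add_tsub_cancel_right]

/-- Every monomial at every `τ` lies in a piece. -/
lemma exists_piece (τ : Finset V) (m : V →₀ ℕ) :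
    ∃ (w : V →₀ ℕ) (U σ : Finset V), w.support ⊆ U ∧ σ ⊆ U ∧ τ = Uᶜ ∪ σ ∧
      m = w + indic σ := by
  refine ⟨WW τ m, UU τ m, SS τ m, ?_, ?_, ?_, ?_⟩
  · intro v hv
    rw [Finsupp.mem_support_iff, WW, Finsupp.tsub_apply] at hv
    rw [UU, mem_filter]
    refine ⟨mem_univ _, Or.inr fun h => hv ?_⟩
    rw [h, zero_tsub]
  · intro v hv
    rw [SS, mem_filter] at hv
    rw [UU, mem_filter]
    exact ⟨mem_univ _, Or.inr hv.2⟩
  · ext v
    simp only [UU, SS, mem_union, mem_compl, mem_filter, mem_univ, true_and, not_or, not_not]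
    constructor
    · intro hv
      by_cases h : m v = 0
      · exact Or.inl ⟨hv, h⟩
      · exact Or.inr ⟨hv, h⟩
    · rintro (h | h)
      · exact h.1
      · exact h.1
  · rw [WW]
    refine (tsub_add_cancel_of_le ?_).symm
    intro v
    rw [indic_apply]
    split_ifs with h
    · rw [SS, mem_filter] at h
      omega
    · exact Nat.zero_le _

lemma card_piece {U σ : Finset V} (hσ : σ ⊆ U) : (Uᶜ ∪ σ).card = Uᶜ.card + σ.card := by
  rw [card_union_of_disjoint]
  rw [disjoint_left]
  intro a ha hb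
  exact (mem_compl.mp ha) (hσ hb)

omit [Fintype V] [LinearOrder V] in
lemma degree_piece (w : V →₀ ℕ) (σ : Finset V) : (w + indic σ).degree = w.degree + σ.card := by
  rw [map_add, degree_indic]

/-- The polynomial whose coefficients in degree `n` with `n + 1 = e` are given by `B`. -/
noncomputable def ofC (e : ℕ) (B : (V →₀ ℕ) → k) : MvPolynomial V k :=
  if e = 0 then 0 else ∑ m ∈ finsuppAntidiag univ (e - 1), monomial m (B m)

lemma mem_fa (m : V →₀ ℕ) (n : ℕ) : m ∈ finsuppAntidiag (univ : Finset V) n ↔ m.degree = n := by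
  rw [mem_finsuppAntidiag, Finsupp.degree_eq_sum]
  simp

lemma coeff_ofC (e : ℕ) (B : (V →₀ ℕ) → k) (m : V →₀ ℕ) :
    coeff m (ofC e B) = if m.degree + 1 = e then B m else 0 := by
  unfold ofC
  by_cases he : e = 0
  · rw [if_pos he, if_neg (by omega), coeff_zero]
  · rw [if_neg he, coeff_sum]
    simp only [coeff_monomial]
    rw [sum_ite_eq']
    by_cases h : m.degree + 1 = e
    · rw [if_pos h, if_pos ((mem_fa m _).mpr (by omega))]
    · rw [if_neg h, if_neg]
      rw [mem_fa]
      omega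

omit [Fintype V] [LinearOrder V] in
lemma isHomogeneous_of_coeff (f : MvPolynomial V k) (n : ℕ)
    (h : ∀ m : V →₀ ℕ, m.degree ≠ n → coeff m f = 0) : f.IsHomogeneous n := by
  intro m hm
  have h1 : m.degree = n := by
    by_contra h2
    exact hm (h m h2)
  rw [← h1, Finsupp.degree_eq_weight_one]
  rfl

/-- Assembling a polynomial cochain from cochains on all pieces. -/
noncomputable def asm (e : ℕ) (B : (V →₀ ℕ) → Finset V → Finset V → k) (τ : Finset V) :
    MvPolynomial V k :=
  ofC e (fun m => eps (UU τ m) (SS τ m) • B (WW τ m) (UU τ m) (SS τ m))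

lemma coeff_asm (e : ℕ) (B : (V →₀ ℕ) → Finset V → Finset V → k) {w : V →₀ ℕ}
    {U σ : Finset V} (hw : w.support ⊆ U) (hσ : σ ⊆ U) :
    coeff (w + indic σ) (asm e B (Uᶜ ∪ σ)) =
      if w.degree + σ.card + 1 = e then eps U σ • B w U σ else 0 := by
  rw [asm, coeff_ofC, UU_eq hw hσ, SS_eq hw hσ, WW_eq hw hσ, degree_piece]

lemma pc_asm (e : ℕ) (B : (V →₀ ℕ) → Finset V → Finset V → k) {w : V →₀ ℕ}
    {U σ : Finset V} (hw : w.support ⊆ U) (hσ : σ ⊆ U) :
    pc (asm e B) w U σ = if w.degree + σ.card + 1 = e then B w U σ else 0 := by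
  rw [pc, coeff_asm e B hw hσ]
  split_ifs
  · rw [smul_smul, eps_sq, one_smul]
  · rw [smul_zero]

lemma cob_pc_asm (e : ℕ) (B : (V →₀ ℕ) → Finset V → Finset V → k) {w : V →₀ ℕ}
    {U σ : Finset V} (hw : w.support ⊆ U) (hσ : σ ⊆ U) (he : w.degree + σ.card = e) :
    cob (pc (asm e B) w U) σ = cob (B w U) σ := by
  unfold cob
  refine sum_congr rfl fun v hv => ?_
  rw [pc_asm e B hw ((erase_subset v σ).trans hσ), if_pos]
  have : 0 < σ.card := card_pos.mpr ⟨v, hv⟩
  rw [card_erase_of_mem hv]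
  omega

/-- A coefficient is determined by its signed version. -/
lemma eq_of_eps {U σ : Finset V} {a b : k} (h : eps U σ • a = eps U σ • b) : a = b := by
  have h1 := congrArg (fun x => eps U σ • x) h
  simp only [smul_smul, eps_sq, one_smul] at h1
  exact h1

lemma isHomogeneous_asm (e : ℕ) (B : (V →₀ ℕ) → Finset V → Finset V → k) (τ : Finset V)
    (he : 1 ≤ e) : (asm e B τ).IsHomogeneous (e - 1) := by
  refine isHomogeneous_of_coeff _ _ fun m hm => ?_
  rw [asm, coeff_ofC, if_neg]
  omega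

omit [Fintype V] in
lemma isHomogeneous_kd (c : Finset V → MvPolynomial V k) (τ : Finset V) (e : ℕ)
    (h : ∀ v ∈ τ, (c (τ.erase v)).IsHomogeneous e) :
    (kd (k := k) c τ).IsHomogeneous (e + 1) := by
  unfold kd
  refine IsHomogeneous.sum _ _ _ fun v hv => ?_
  have h1 : ((X v : MvPolynomial V k) • c (τ.erase v)).IsHomogeneous (e + 1) := by
    rw [smul_eq_mul, add_comm]
    exact (isHomogeneous_X k v).mul (h v hv)
  rw [← mem_homogeneousSubmodule] at h1 ⊢
  exact zsmul_mem h1 _

end Pieces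

end Ksz

open Ksz

section Main

variable {V : Type} [Fintype V] [LinearOrder V] {k : Type} [Field k]

theorem KE_poly (p e : ℕ) (he : 1 ≤ e) :
    KE (V := V) k (fun e => {f : MvPolynomial V k | f.IsHomogeneous e}) p e := by
  classical
  intro c hc hz
  -- solve the problem on every piece
  have key : ∀ (w : V →₀ ℕ) (U : Finset V), ∃ B : Finset V → k, w.support ⊆ U →
      ∀ σ, σ ⊆ U → Uᶜ.card + σ.card = p → w.degree + σ.card = e →
        cob B σ = pc c w U σ := by
    intro w U
    by_cases hU : U.Nonempty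
    · by_cases hw : w.support ⊆ U
      · obtain ⟨B, hB⟩ := van_simplex k U hU (p - Uᶜ.card) (Nat.zero_le _)
          (fun ρ => if Uᶜ.card + ρ.card = p then pc c w U ρ else 0) (by
            intro τ hτ hcard
            have hτU : τ ⊆ U := hτ
            by_cases hp : Uᶜ.card ≤ p
            · have h1 : cob (pc c w U) τ = 0 := by
                rw [← coeff_kd c w U τ hw hτU, hz (Uᶜ ∪ τ) (by rw [card_piece hτU]; omega),
                  coeff_zero, smul_zero]
              rw [← h1]
              unfold cob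
              refine sum_congr rfl fun v hv => ?_
              have : 0 < τ.card := card_pos.mpr ⟨v, hv⟩
              simp only
              rw [if_pos]
              rw [card_erase_of_mem hv]
              omega
            · unfold cob
              refine sum_eq_zero fun v hv => ?_
              simp only
              rw [if_neg (by omega), smul_zero])
        refine ⟨B, fun _ σ hσ h1 h2 => ?_⟩
        rw [hB σ hσ (by omega), if_pos h1]
      · exact ⟨0, fun h => absurd h hw⟩
    · refine ⟨0, fun hw σ hσ _ h2 => ?_⟩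
      rw [not_nonempty_iff_eq_empty] at hU
      subst hU
      have hσ0 : σ = ∅ := subset_empty.mp hσ
      have hw0 : w = 0 := Finsupp.support_eq_empty.mp (subset_empty.mp hw)
      rw [hσ0, hw0, map_zero, card_empty] at h2
      omega
  choose B hB using key
  refine ⟨asm e B, fun τ _ => isHomogeneous_asm e B τ he, fun τ hτ => ?_⟩
  ext m
  obtain ⟨w, U, σ, hw, hσ, rfl, rfl⟩ := exists_piece τ m
  rw [card_piece hσ] at hτ
  by_cases hd : w.degree + σ.card = e
  · apply eq_of_eps (U := U) (σ := σ)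
    rw [coeff_kd _ w U σ hw hσ, cob_pc_asm e B hw hσ hd, hB w U hw σ hσ hτ hd]
    rfl
  · rw [(hc (Uᶜ ∪ σ) (by rw [card_piece hσ, hτ])).coeff_eq_zero (by rwa [degree_piece])]
    refine IsHomogeneous.coeff_eq_zero (n := e - 1 + 1)
      (isHomogeneous_kd _ _ (e - 1) fun v _ => isHomogeneous_asm e B _ he) ?_
    rw [degree_piece]
    omega

omit [Fintype V] in
lemma Ksz.kd_apply {ι : Type} (c : Finset V → ι → MvPolynomial V k) (τ : Finset V) (β : ι) :
    kd (k := k) c τ β = kd (k := k) (fun ρ => c ρ β) τ := by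
  unfold kd
  rw [Finset.sum_apply]
  rfl

theorem KE_free {ι : Type} [Fintype ι] (d : ι → ℕ) (r : ℕ) (hd : ∀ b, d b ≤ r) (p e : ℕ)
    (he : r < e) :
    KE (V := V) k (fun e => {f : ι → MvPolynomial V k | HomAt d f e}) p e := by
  intro c hc hz
  have key : ∀ β : ι, ∃ b : Finset V → MvPolynomial V k,
      (∀ τ, τ.card + 1 = p → (b τ).IsHomogeneous (e - d β - 1)) ∧
      ∀ τ, τ.card = p → kd (k := k) b τ = c τ β := by
    intro β
    have h := KE_poly (V := V) (k := k) p (e - d β) (by have := hd β; omega)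
      (fun τ => c τ β) (fun τ hτ => ((hc τ hτ) β).2 (by have := hd β; omega)) (by
        intro τ hτ
        have h1 := congrFun (hz τ hτ) β
        rw [Ksz.kd_apply] at h1
        exact h1)
    exact h
  choose b hb1 hb2 using key
  refine ⟨fun τ β => b β τ, fun τ hτ β => ⟨fun h => ?_, fun _ => ?_⟩, fun τ hτ => ?_⟩
  · have := hd β
    omega
  · have := hb1 β τ hτ
    have h2 : e - 1 - d β = e - d β - 1 := by omega
    rw [h2]
    exact this
  · funext β
    rw [← hb2 β τ hτ, Ksz.kd_apply]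

omit [Fintype V] [LinearOrder V] in
/-- The coefficients of an element of a monomial ideal at monomials outside the ideal vanish. -/
lemma Ksz.coeff_eq_zero_of_mem {J : Ideal (MvPolynomial V k)} (hJ : IsMono J)
    {f : MvPolynomial V k} (hf : f ∈ J) {m : V →₀ ℕ} (hm : monomial m (1 : k) ∉ J) :
    coeff m f = 0 := by
  by_contra h
  exact hm (hJ f hf m (mem_support_iff.mpr h))

omit [Fintype V] [LinearOrder V] in
/-- A polynomial whose monomials lie in the ideal lies in the ideal. -/
lemma Ksz.mem_of_coeff {J : Ideal (MvPolynomial V k)} {f : MvPolynomial V k}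
    (h : ∀ m : V →₀ ℕ, monomial m (1 : k) ∉ J → coeff m f = 0) : f ∈ J := by
  rw [f.as_sum]
  refine J.sum_mem fun m hm => ?_
  have h1 : monomial m (1 : k) ∈ J := by
    by_contra h2
    exact (mem_support_iff.mp hm) (h m h2)
  have h2 : monomial m (coeff m f) = C (coeff m f) * monomial m (1 : k) := by
    rw [C_mul_monomial, mul_one]
  rw [h2]
  exact J.mul_mem_left _ h1

theorem KE_ideal_of_van (J : Ideal (MvPolynomial V k)) (hJ : IsMono J) (t : ℕ)
    (h : ∀ (w : V →₀ ℕ) (U : Finset V), w.support ⊆ U → Van k (DU J w U) (t - w.degree))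
    (p e : ℕ) (he : t < e) : KE (V := V) k (homPart J) p e := by
  classical
  intro c hc hz
  obtain ⟨y, hy1, hy2⟩ := KE_poly (V := V) (k := k) p e (by omega) c
    (fun τ hτ => (hc τ hτ).2) hz
  have key : ∀ (w : V →₀ ℕ) (U : Finset V), ∃ B : Finset V → k, w.support ⊆ U →
      ∀ σ ∈ DU J w U, Uᶜ.card + σ.card + 1 = p → w.degree + σ.card + 1 = e →
        cob B σ = pc y w U σ := by
    intro w U
    by_cases hw : w.support ⊆ U
    · by_cases hpe : Uᶜ.card + 1 ≤ p ∧ w.degree + 1 ≤ e ∧ e - 1 - w.degree = p - 1 - Uᶜ.card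
      · obtain ⟨hp, hwe, hpe⟩ := hpe
        obtain ⟨B, hB⟩ := h w U hw (p - 1 - Uᶜ.card) (by omega) (pc y w U) (by
          intro τ hτ hcard
          have hτU : τ ⊆ U := hτ.1
          rw [← coeff_kd y w U τ hw hτU, hy2 (Uᶜ ∪ τ) (by rw [card_piece hτU]; omega),
            Ksz.coeff_eq_zero_of_mem hJ (hc (Uᶜ ∪ τ) (by rw [card_piece hτU]; omega)).1 hτ.2,
            smul_zero])
        exact ⟨B, fun _ σ hσ h1 h2 => hB σ hσ (by omega)⟩
      · refine ⟨0, fun _ σ hσ h1 h2 => absurd ?_ hpe⟩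
        refine ⟨by omega, by omega, by omega⟩
    · exact ⟨0, fun h => absurd h hw⟩
  choose B hB using key
  refine ⟨fun τ => y τ - kd (k := k) (asm (e - 1) B) τ, fun τ hτ => ⟨?_, ?_⟩, fun τ hτ => ?_⟩
  · refine Ksz.mem_of_coeff fun m hm => ?_
    obtain ⟨w, U, σ, hw, hσ, rfl, rfl⟩ := exists_piece τ m
    rw [coeff_sub, sub_eq_zero]
    rw [card_piece hσ] at hτ
    by_cases hd : w.degree + σ.card + 1 = e
    · apply eq_of_eps (U := U) (σ := σ)
      rw [coeff_kd _ w U σ hw hσ, cob_pc_asm (e - 1) B hw hσ (by omega),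
        hB w U hw σ ⟨hσ, hm⟩ (by omega) hd]
      rfl
    · rw [(hy1 (Uᶜ ∪ σ) (by rw [card_piece hσ]; omega)).coeff_eq_zero
        (by rw [degree_piece]; omega)]
      symm
      apply eq_of_eps (U := U) (σ := σ)
      rw [coeff_kd _ w U σ hw hσ, smul_zero]
      unfold cob
      refine sum_eq_zero fun v hv => ?_
      rw [pc_asm _ B hw ((erase_subset v σ).trans hσ), if_neg, smul_zero]
      have : 0 < σ.card := card_pos.mpr ⟨v, hv⟩
      rw [card_erase_of_mem hv]
      omega
  · refine (hy1 τ hτ).sub ?_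
    by_cases he2 : 2 ≤ e
    · have h1 := isHomogeneous_kd (asm (e - 1) B) τ (e - 1 - 1)
        fun v _ => isHomogeneous_asm (e - 1) B _ (by omega)
      rwa [Nat.sub_add_cancel (by omega : 1 ≤ e - 1)] at h1
    · have h1 : kd (k := k) (asm (e - 1) B) τ = 0 := by
        unfold kd
        refine sum_eq_zero fun v _ => ?_
        have h2 : asm (e - 1) B (τ.erase v) = 0 := by
          have h3 : e - 1 = 0 := by omega
          rw [h3]
          unfold asm ofC
          simp
        rw [h2, smul_zero, smul_zero]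
      rw [h1]
      exact isHomogeneous_zero _ _ _
  · rw [kd_sub, kd_kd, sub_zero]
    exact hy2 τ hτ

theorem van_of_KE_ideal (J : Ideal (MvPolynomial V k)) (hJ : IsMono J) (t : ℕ) (ht : 1 ≤ t)
    (h : ∀ p e : ℕ, t < e → KE (V := V) k (homPart J) p e)
    (w : V →₀ ℕ) (U : Finset V) (hU : w.support ⊆ U) : Van k (DU J w U) (t - w.degree) := by
  classical
  intro p hp c hc
  set P := Uᶜ.card with hP
  set e := w.degree + p with he
  have hte : t ≤ e := by omega
  set B : (V →₀ ℕ) → Finset V → Finset V → k :=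
    fun w' U' σ => if w' = w ∧ U' = U then c σ else 0 with hBdef
  set y := asm (e + 1) B with hy
  have hyhom : ∀ τ, (y τ).IsHomogeneous e := fun τ => by
    have := isHomogeneous_asm (e + 1) B τ (by omega)
    simpa using this
  have hkdhom : ∀ τ, (kd (k := k) y τ).IsHomogeneous (e + 1) := fun τ =>
    isHomogeneous_kd _ _ _ fun v _ => hyhom _
  have hkdJ : ∀ τ, τ.card = P + p + 1 → kd (k := k) y τ ∈ J := by
    intro τ hτ
    refine Ksz.mem_of_coeff fun m hm => ?_
    obtain ⟨w', U', σ, hw', hσ, rfl, rfl⟩ := exists_piece τ m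
    by_cases hd : w'.degree + σ.card = e + 1
    · apply eq_of_eps (U := U') (σ := σ)
      rw [coeff_kd _ w' U' σ hw' hσ, cob_pc_asm (e + 1) B hw' hσ hd, smul_zero]
      by_cases hWU : w' = w ∧ U' = U
      · obtain ⟨rfl, rfl⟩ := hWU
        have : B w' U' = c := by
          funext ρ
          simp [hBdef]
        rw [this]
        rw [card_piece hσ] at hτ
        exact hc σ ⟨hσ, hm⟩ (by omega)
      · have : B w' U' = fun _ => 0 := by
          funext ρ
          simp [hBdef, hWU]
        rw [this]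
        simp [cob]
    · exact (hkdhom _).coeff_eq_zero (by rwa [degree_piece])
  obtain ⟨z, hz1, hz2⟩ := h (P + p + 1) (e + 1) (by omega) (kd (k := k) y)
    (fun τ hτ => ⟨hkdJ τ hτ, hkdhom τ⟩) (fun τ _ => kd_kd y τ)
  obtain ⟨u, hu1, hu2⟩ := KE_poly (V := V) (k := k) (P + p) e (by omega) (fun τ => y τ - z τ)
    (fun τ hτ => (hyhom τ).sub (by simpa using (hz1 τ (by omega)).2))
    (fun τ hτ => by rw [kd_sub, hz2 τ hτ, sub_self])
  refine ⟨pc u w U, fun σ hσ hcard => ?_⟩
  have hσU : σ ⊆ U := hσ.1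
  rw [← coeff_kd u w U σ hU hσU, hu2 (Uᶜ ∪ σ) (by rw [card_piece hσU, hcard]), coeff_sub,
    Ksz.coeff_eq_zero_of_mem hJ (hz1 (Uᶜ ∪ σ) (by rw [card_piece hσU, hcard])).1 hσ.2, sub_zero]
  change pc y w U σ = c σ
  rw [hy, pc_asm (e + 1) B hU hσU, if_pos (by omega)]
  simp [hBdef]

end Main

end Pool.Agent.Lib.MP_081cfe_al
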