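import Pool.Agent.Lib.MP_081cfe_al.Defs

/-!
# Powers of the edge ideal of a gap-free graph

A monomial `x^w` lies in `I(G)^q` if and only if there are `q` edges whose product divides it.
For a gap-free graph this is decided by the independent sets: it holds iff
`2 q ≤ w(V) + w(N(Q)) - w(Q)` for every independent set `Q`.  The proof is a weighted version of
the proof of the Tutte-Berge formula through Gallai's lemma; a matching is a symmetric matrix
of natural numbers supported on the edges, with row sums bounded by `w`.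
-/

namespace Pool.Agent.Lib.MP_081cfe_al

open MvPolynomial Finset

namespace Match

variable {V : Type}

/-- The exponent vectors of the products of `q` edges. -/
def EV (G : SimpleGraph V) : ℕ → Set (V →₀ ℕ)
  | 0 => {0}
  | q + 1 => {m | ∃ m' ∈ EV G q, ∃ a b, G.Adj a b ∧
      m = m' + (Finsupp.single a 1 + Finsupp.single b 1)}

theorem pow_eq_span (k : Type) [Field k] (G : SimpleGraph V) (q : ℕ) :
    edgeIdeal k G ^ q = Ideal.span ((fun m : V →₀ ℕ => monomial m (1 : k)) '' EV G q) := by
  induction q with
  | zero =>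
    rw [pow_zero, Ideal.one_eq_top]
    symm
    rw [Ideal.eq_top_iff_one]
    apply Ideal.subset_span
    exact ⟨0, rfl, rfl⟩
  | succ q ih =>
    rw [pow_succ, ih]
    unfold edgeIdeal
    rw [Ideal.span_mul_span']
    congr 1
    ext f
    rw [Set.mem_mul]
    constructor
    · rintro ⟨f1, ⟨m', hm', rfl⟩, f2, ⟨a, b, hab, rfl⟩, rfl⟩
      refine ⟨m' + (Finsupp.single a 1 + Finsupp.single b 1), ⟨m', hm', a, b, hab, rfl⟩, ?_⟩
      simp only [X, monomial_mul, one_mul]
    · rintro ⟨m, ⟨m', hm', a, b, hab, rfl⟩, rfl⟩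
      exact ⟨_, ⟨m', hm', rfl⟩, X a * X b, ⟨a, b, hab, rfl⟩,
        by simp only [X, monomial_mul, one_mul]⟩

theorem mem_pow (k : Type) [Field k] (G : SimpleGraph V) (q : ℕ) (f : MvPolynomial V k) :
    f ∈ edgeIdeal k G ^ q ↔ ∀ m ∈ f.support, ∃ m' ∈ EV G q, m' ≤ m := by
  rw [pow_eq_span, mem_ideal_span_monomial_image]

theorem monomial_mem_pow (k : Type) [Field k] (G : SimpleGraph V) (q : ℕ) (w : V →₀ ℕ) :
    monomial w (1 : k) ∈ edgeIdeal k G ^ q ↔ ∃ m ∈ EV G q, m ≤ w := by
  classical
  rw [mem_pow, support_monomial, if_neg one_ne_zero]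
  simp

/-! ### Necessity -/

section Nec

variable [Fintype V]

theorem phi_eq (G : SimpleGraph V) (w : V → ℕ) (Q : Finset V) :
    ((wt w Finset.univ : ℕ) : ℤ) + phi G w Q =
      ∑ a, (w a : ℤ) * (1 + (Set.indicator (nbr G Q : Set V) (fun _ => (1 : ℤ)) a) -
        (Set.indicator (Q : Set V) (fun _ => (1 : ℤ)) a)) := by
  classical
  unfold phi wt
  have h : ∀ A : Finset V, ((∑ a ∈ A, w a : ℕ) : ℤ) =
      ∑ a, (w a : ℤ) * (Set.indicator (A : Set V) (fun _ => (1 : ℤ)) a) := by
    intro A
    rw [Nat.cast_sum, ← Finset.sum_filter_add_sum_filter_not Finset.univ (fun a => a ∈ A)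
      (fun a => (w a : ℤ) * (Set.indicator (A : Set V) (fun _ => (1 : ℤ)) a))]
    have e1 : (Finset.univ.filter (fun a => a ∈ A)) = A := by ext; simp
    rw [e1]
    have e2 : ∑ a ∈ Finset.univ.filter (fun a => a ∉ A),
        (w a : ℤ) * (Set.indicator (A : Set V) (fun _ => (1 : ℤ)) a) = 0 := by
      apply Finset.sum_eq_zero
      intro a ha
      rw [Finset.mem_filter] at ha
      rw [Set.indicator_of_notMem (by simpa using ha.2), mul_zero]
    rw [e2, add_zero]
    apply Finset.sum_congr rfl
    intro a ha
    rw [Set.indicator_of_mem (by simpa using ha), mul_one]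
  rw [h (nbr G Q), h Q, Nat.cast_sum, ← Finset.sum_sub_distrib, ← Finset.sum_add_distrib]
  apply Finset.sum_congr rfl
  intro a _
  ring

theorem nec (G : SimpleGraph V) (q : ℕ) (w : V →₀ ℕ) (h : ∃ m ∈ EV G q, m ≤ w) (Q : Finset V)
    (hQ : Indep G Q) : (2 * q : ℤ) ≤ ((wt w Finset.univ : ℕ) : ℤ) + phi G w Q := by
  classical
  rw [phi_eq]
  set φ : V → ℤ := fun a => 1 + (Set.indicator (nbr G Q : Set V) (fun _ => (1 : ℤ)) a) -
        (Set.indicator (Q : Set V) (fun _ => (1 : ℤ)) a) with hφ
  have hφ0 : ∀ a, 0 ≤ φ a := by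
    intro a
    have h1 : (0 : ℤ) ≤ Set.indicator (nbr G Q : Set V) (fun _ => (1 : ℤ)) a :=
      Set.indicator_nonneg (fun _ _ => by norm_num) a
    have h2 : Set.indicator (Q : Set V) (fun _ => (1 : ℤ)) a ≤ 1 := by
      by_cases ha : a ∈ (Q : Set V)
      · rw [Set.indicator_of_mem ha]
      · rw [Set.indicator_of_notMem ha]
        norm_num
    simp only [hφ]
    linarith
  have hQ1 : ∀ a b, G.Adj a b → a ∈ Q → φ b = 2 := by
    intro a b hab ha
    have h1 : b ∈ (nbr G Q : Set V) := by
      unfold nbr
      simp only [Finset.coe_filter, Finset.mem_univ, true_and, Set.mem_ofPred_eq]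
      exact ⟨a, ha, hab.symm⟩
    have h2 : b ∉ (Q : Set V) := fun hb => hQ a ha b hb hab
    simp only [hφ]
    rw [Set.indicator_of_mem h1, Set.indicator_of_notMem h2]
    norm_num
  have hQ2 : ∀ a, a ∉ Q → 1 ≤ φ a := by
    intro a ha
    have h1 : (0 : ℤ) ≤ Set.indicator (nbr G Q : Set V) (fun _ => (1 : ℤ)) a :=
      Set.indicator_nonneg (fun _ _ => by norm_num) a
    have h2 : a ∉ (Q : Set V) := ha
    simp only [hφ]
    rw [Set.indicator_of_notMem h2]
    linarith
  have hedge : ∀ a b, G.Adj a b → 2 ≤ φ a + φ b := by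
    intro a b hab
    by_cases ha : a ∈ Q
    · have := hQ1 a b hab ha
      linarith [hφ0 a]
    · by_cases hb : b ∈ Q
      · have := hQ1 b a hab.symm hb
        linarith [hφ0 b]
      · linarith [hQ2 a ha, hQ2 b hb]
  have hEV : ∀ q, ∀ m ∈ EV G q, (2 * q : ℤ) ≤ ∑ a, (m a : ℤ) * φ a := by
    intro q
    induction q with
    | zero =>
      intro m hm
      have hm' : m = 0 := hm
      subst hm'
      simp
    | succ q ih =>
      rintro m ⟨m', hm', a, b, hab, rfl⟩
      have h1 := ih m' hm'
      have h2 : ∑ c, (((m' + (Finsupp.single a 1 + Finsupp.single b 1) : V →₀ ℕ) c : ℕ) : ℤ) * φ c =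
          ∑ c, (m' c : ℤ) * φ c + φ a + φ b := by
        have e : ∀ c, (((m' + (Finsupp.single a 1 + Finsupp.single b 1) : V →₀ ℕ) c : ℕ) : ℤ) * φ c =
            (m' c : ℤ) * φ c + (if a = c then φ c else 0) + (if b = c then φ c else 0) := by
          intro c
          simp only [Finsupp.add_apply, Finsupp.single_apply]
          push_cast
          split_ifs <;> ring
        rw [Finset.sum_congr rfl (fun c _ => e c), Finset.sum_add_distrib,
          Finset.sum_add_distrib]
        simp
      rw [h2]
      have h3 := hedge a b hab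
      push_cast
      linarith
  obtain ⟨m, hm, hmw⟩ := h
  refine (hEV q m hm).trans (Finset.sum_le_sum fun a _ => ?_)
  have : (m a : ℤ) ≤ w a := by exact_mod_cast hmw a
  exact mul_le_mul_of_nonneg_right this (hφ0 a)

end Nec

/-! ### Weighted matchings -/

section Suff

variable [Fintype V] [DecidableEq V]

/-- Indicator. -/
def dl (a x : V) : ℕ := if a = x then 1 else 0

/-- Degree. -/
def dg (e : V → V → ℕ) (a : V) : ℕ := ∑ b, e a b

/-- Total degree. -/
def tot (e : V → V → ℕ) : ℕ := ∑ a, dg e a

/-- Weighted matchings. -/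
def IsMt (G : SimpleGraph V) (w : V → ℕ) (e : V → V → ℕ) : Prop :=
  (∀ a b, e a b = e b a) ∧ (∀ a b, e a b ≠ 0 → G.Adj a b) ∧ ∀ a, dg e a ≤ w a

/-- There is a weighted matching with `q` edges. -/
def Mt (G : SimpleGraph V) (w : V → ℕ) (q : ℕ) : Prop := ∃ e, IsMt G w e ∧ tot e = 2 * q

/-- Adding an edge. -/
def addE (e : V → V → ℕ) (x y : V) : V → V → ℕ :=
  fun a b => e a b + dl a x * dl b y + dl a y * dl b x

omit [Fintype V] in
theorem dl_self (a : V) : dl a a = 1 := if_pos rfl

omit [Fintype V] in
theorem dl_ne {a x : V} (h : a ≠ x) : dl a x = 0 := if_neg h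

omit [Fintype V] in
theorem dl_le (a x : V) : dl a x ≤ 1 := by
  unfold dl
  split_ifs <;> omega

theorem sum_dl (x : V) : ∑ a, dl a x = 1 := by
  unfold dl
  simp

theorem dg_addE (e : V → V → ℕ) (x y a : V) : dg (addE e x y) a = dg e a + dl a x + dl a y := by
  unfold dg addE
  rw [Finset.sum_add_distrib, Finset.sum_add_distrib, ← Finset.mul_sum, ← Finset.mul_sum,
    sum_dl, sum_dl, mul_one, mul_one]

theorem tot_addE (e : V → V → ℕ) (x y : V) : tot (addE e x y) = tot e + 2 := by
  unfold tot
  rw [Finset.sum_congr rfl (fun a _ => dg_addE e x y a), Finset.sum_add_distrib,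
    Finset.sum_add_distrib, sum_dl, sum_dl]

theorem add_mt {G : SimpleGraph V} {w w' : V → ℕ} {e : V → V → ℕ} (he : IsMt G w' e) {x y : V}
    (hxy : G.Adj x y) (hw : ∀ a, dg e a + dl a x + dl a y ≤ w a) : IsMt G w (addE e x y) := by
  refine ⟨?_, ?_, ?_⟩
  · intro a b
    unfold addE
    rw [he.1 a b]
    ring
  · intro a b h
    by_contra hab
    apply h
    have h1 : e a b = 0 := by
      by_contra h1
      exact hab (he.2.1 a b h1)
    unfold addE
    rw [h1]
    have h2 : dl a x * dl b y = 0 := by
      by_cases hax : a = x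
      · by_cases hby : b = y
        · subst hax hby
          exact absurd hxy hab
        · rw [dl_ne hby, mul_zero]
      · rw [dl_ne hax, zero_mul]
    have h3 : dl a y * dl b x = 0 := by
      by_cases hax : a = y
      · by_cases hby : b = x
        · subst hax hby
          exact absurd hxy.symm hab
        · rw [dl_ne hby, mul_zero]
      · rw [dl_ne hax, zero_mul]
    rw [h2, h3]
  · intro a
    rw [dg_addE]
    exact hw a

theorem sub_mt {G : SimpleGraph V} {w : V → ℕ} {e : V → V → ℕ} (he : IsMt G w e) {x y : V}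
    (hxy : e x y ≠ 0) : ∃ e', e = addE e' x y ∧ ∀ w' : V → ℕ, (∀ a, dg e' a ≤ w' a) →
      IsMt G w' e' := by
  have hadj := he.2.1 x y hxy
  have hne : x ≠ y := hadj.ne
  have hyx : e y x ≠ 0 := by
    rw [he.1 y x]
    exact hxy
  refine ⟨fun a b => e a b - dl a x * dl b y - dl a y * dl b x, ?_, ?_⟩
  · funext a b
    unfold addE
    simp only
    by_cases h1 : a = x ∧ b = y
    · obtain ⟨rfl, rfl⟩ := h1
      rw [dl_self, dl_self, dl_ne hne, dl_ne hne.symm]
      omega
    · have e1 : dl a x * dl b y = 0 := by
        by_cases hax : a = x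
        · by_cases hby : b = y
          · exact absurd ⟨hax, hby⟩ h1
          · rw [dl_ne hby, mul_zero]
        · rw [dl_ne hax, zero_mul]
      rw [e1]
      by_cases h2 : a = y ∧ b = x
      · obtain ⟨rfl, rfl⟩ := h2
        rw [dl_self, dl_self]
        omega
      · have e2 : dl a y * dl b x = 0 := by
          by_cases hax : a = y
          · by_cases hby : b = x
            · exact absurd ⟨hax, hby⟩ h2
            · rw [dl_ne hby, mul_zero]
          · rw [dl_ne hax, zero_mul]
        rw [e2]
        omega
  · intro w' hw'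
    refine ⟨?_, ?_, hw'⟩
    · intro a b
      simp only
      rw [he.1 a b, Nat.sub_sub, Nat.sub_sub]
      congr 1
      ring
    · intro a b h
      simp only at h
      apply he.2.1 a b
      omega

/-- Two units of weight are missed by a maximum matching. -/
def DD (G : SimpleGraph V) (w : V → ℕ) (q : ℕ) (u v : V) : Prop :=
  ∃ e, IsMt G w e ∧ tot e = 2 * q ∧ ∀ a, dg e a + dl a u + dl a v ≤ w a

theorem adj_notDD {G : SimpleGraph V} {w : V → ℕ} {q : ℕ} (hmax : ¬ Mt G w (q + 1)) {u v : V}
    (huv : G.Adj u v) : ¬ DD G w q u v := by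
  rintro ⟨e, he, ht, hd⟩
  apply hmax
  refine ⟨addE e u v, add_mt he huv hd, ?_⟩
  rw [tot_addE, ht]
  ring

/-- The overlap of two matrices. -/
def ov (e e' : V → V → ℕ) : ℕ := ∑ a, ∑ b, min (e a b) (e' a b)

omit [DecidableEq V] in
theorem ov_le (e e' : V → V → ℕ) : ov e e' ≤ tot e :=
  Finset.sum_le_sum fun _ _ => Finset.sum_le_sum fun _ _ => min_le_left _ _

theorem trans_DD {G : SimpleGraph V} {w : V → ℕ} {q : ℕ} (hmax : ¬ Mt G w (q + 1)) {u v t : V}
    (hmiss : ∃ e, IsMt G w e ∧ tot e = 2 * q ∧ ∀ a, dg e a + dl a t ≤ w a)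
    (h : DD G w q u v) : DD G w q u t ∨ DD G w q t v := by
  by_contra hcon
  rw [not_or] at hcon
  obtain ⟨hut, htv⟩ := hcon
  obtain ⟨M, hM, hMt, hMd⟩ := h
  have hu1 : w t < dg M t + dl t u + 1 := by
    by_contra h1
    apply hut
    refine ⟨M, hM, hMt, fun a => ?_⟩
    by_cases hat : a = t
    · subst hat
      rw [dl_self]
      omega
    · rw [dl_ne hat]
      have := hMd a
      omega
  have hv1 : w t < dg M t + dl t v + 1 := by
    by_contra h1
    apply htv
    refine ⟨M, hM, hMt, fun a => ?_⟩
    by_cases hat : a = t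
    · subst hat
      rw [dl_self]
      omega
    · rw [dl_ne hat]
      have := hMd a
      omega
  have hMt' := hMd t
  have htu : t ≠ u := by
    intro h1
    have : dl t u = 1 := by rw [h1, dl_self]
    omega
  have htv' : t ≠ v := by
    intro h1
    have : dl t v = 1 := by rw [h1, dl_self]
    omega
  have key : ∀ n, ∀ N, IsMt G w N → tot N = 2 * q → (∀ a, dg N a + dl a t ≤ w a) →
      2 * q - ov M N = n → False := by
    intro n
    induction n using Nat.strong_induction_on with
    | _ n ih =>
      intro N hN hNt hNd hn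
      have hNu : w u ≤ dg N u := by
        by_contra h1
        apply hut
        refine ⟨N, hN, hNt, fun a => ?_⟩
        have h2 := hNd a
        by_cases hau : a = u
        · subst hau
          rw [dl_self, dl_ne htu.symm]
          omega
        · rw [dl_ne hau]
          omega
      have hNv : w v ≤ dg N v := by
        by_contra h1
        apply htv
        refine ⟨N, hN, hNt, fun a => ?_⟩
        have h2 := hNd a
        by_cases hau : a = v
        · subst hau
          rw [dl_self, dl_ne htv'.symm]
          omega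
        · rw [dl_ne hau]
          omega
      obtain ⟨x, hx⟩ : ∃ x, dg N x + dl x t < dg M x := by
        by_contra h1
        push Not at h1
        have h2 : ∀ x, dg M x + dl x u + dl x v ≤ dg N x + dl x t := by
          intro x
          have h3 := hMd x
          have h4 := h1 x
          by_cases hxu : x = u
          · subst hxu
            omega
          · by_cases hxv : x = v
            · subst hxv
              omega
            · rw [dl_ne hxu, dl_ne hxv]
              omega
        have h3 : ∑ x, (dg M x + dl x u + dl x v) ≤ ∑ x, (dg N x + dl x t) :=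
          Finset.sum_le_sum fun x _ => h2 x
        rw [Finset.sum_add_distrib, Finset.sum_add_distrib, Finset.sum_add_distrib, sum_dl,
          sum_dl, sum_dl] at h3
        have h4 : ∑ x, dg M x = 2 * q := hMt
        have h5 : ∑ x, dg N x = 2 * q := hNt
        omega
      obtain ⟨y, -, hy⟩ : ∃ y ∈ (Finset.univ : Finset V), N x y < M x y := by
        apply Finset.exists_lt_of_sum_lt
        have : dg N x < dg M x := by omega
        exact this
      have hxyadj : G.Adj x y := hM.2.1 x y (by omega)
      have hMx := hM.2.2 x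
      have hNy : w y ≤ dg N y := by
        by_contra h1
        apply hmax
        refine ⟨addE N x y, add_mt hN hxyadj fun a => ?_, ?_⟩
        · have h2 := hN.2.2 a
          by_cases hax : a = x
          · subst hax
            rw [dl_self, dl_ne hxyadj.ne]
            omega
          · rw [dl_ne hax]
            by_cases hay : a = y
            · subst hay
              rw [dl_self]
              omega
            · rw [dl_ne hay]
              omega
        · rw [tot_addE, hNt]
          ring
      have hyx : N y x < M y x := by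
        rw [hN.1 y x, hM.1 y x]
        exact hy
      obtain ⟨z, hz⟩ : ∃ z, M y z < N y z := by
        by_contra h1
        push Not at h1
        have h2 : dg N y < dg M y := Finset.sum_lt_sum (fun b _ => h1 b) ⟨x, mem_univ x, hyx⟩
        have := hM.2.2 y
        omega
      have hxz : x ≠ z := by
        rintro rfl
        omega
      have hyz : G.Adj y z := hN.2.1 y z (by omega)
      have hyt : y ≠ t := by
        rintro rfl
        have := hNd y
        rw [dl_self] at this
        omega
      obtain ⟨N₁, hN1, hN1'⟩ := sub_mt hN (x := y) (y := z) (by omega)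
      have hdN : ∀ a, dg N a = dg N₁ a + dl a y + dl a z := by
        intro a
        rw [hN1, dg_addE]
      have hN1m : IsMt G w N₁ := hN1' w (fun a => by
        have := hN.2.2 a
        have := hdN a
        omega)
      have hd' : ∀ a, dg (addE N₁ x y) a + dl a t ≤ w a := by
        intro a
        rw [dg_addE]
        have h1 := hdN a
        have h2 := hNd a
        by_cases hax : a = x
        · subst hax
          rw [dl_ne hxz] at h1
          rw [dl_self]
          omega
        · rw [dl_ne hax]
          omega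
      have htot' : tot (addE N₁ x y) = 2 * q := by
        rw [tot_addE, ← tot_addE N₁ y z, ← hN1, hNt]
      have hmt' : IsMt G w (addE N₁ x y) := add_mt hN1m hxyadj (fun a => by
        have := hd' a
        rw [dg_addE] at this
        omega)
      have hle : ∀ a b, min (M a b) (N a b) ≤ min (M a b) (addE N₁ x y a b) := by
        intro a b
        have hMzy : M z y < N z y := by
          rw [hN.1 z y, hM.1 z y]
          exact hz
        have e1 : N a b = N₁ a b + dl a y * dl b z + dl a z * dl b y := by
          rw [hN1]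
          rfl
        have e2 : addE N₁ x y a b = N₁ a b + dl a x * dl b y + dl a y * dl b x := rfl
        by_cases h1 : a = y ∧ b = z
        · obtain ⟨rfl, rfl⟩ := h1
          rw [dl_self, dl_self, dl_ne hyz.ne, zero_mul] at e1
          rw [e2]
          omega
        · by_cases h2 : a = z ∧ b = y
          · obtain ⟨rfl, rfl⟩ := h2
            rw [dl_self, dl_self, dl_ne hyz.ne.symm, zero_mul] at e1
            rw [e2]
            omega
          · have e3 : dl a y * dl b z = 0 := by
              by_cases hax : a = y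
              · by_cases hby : b = z
                · exact absurd ⟨hax, hby⟩ h1
                · rw [dl_ne hby, mul_zero]
              · rw [dl_ne hax, zero_mul]
            have e4 : dl a z * dl b y = 0 := by
              by_cases hax : a = z
              · by_cases hby : b = y
                · exact absurd ⟨hax, hby⟩ h2
                · rw [dl_ne hby, mul_zero]
              · rw [dl_ne hax, zero_mul]
            rw [e1, e2, e3, e4]
            omega
      have hlt : min (M x y) (N x y) < min (M x y) (addE N₁ x y x y) := by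
        have e1 : N x y = N₁ x y := by
          have e1 : N x y = N₁ x y + dl x y * dl y z + dl x z * dl y y := by
            rw [hN1]
            rfl
          rw [e1, dl_ne hxyadj.ne, dl_ne hxz]
          ring
        have e2 : addE N₁ x y x y = N₁ x y + dl x x * dl y y + dl x y * dl y x := rfl
        rw [dl_self, dl_self] at e2
        omega
      have hov : ov M N < ov M (addE N₁ x y) := by
        apply Finset.sum_lt_sum (fun a _ => Finset.sum_le_sum fun b _ => hle a b)
        exact ⟨x, mem_univ x, Finset.sum_lt_sum (fun b _ => hle x b) ⟨y, mem_univ y, hlt⟩⟩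
      have hov2 : ov M (addE N₁ x y) ≤ 2 * q := by
        rw [← hMt]
        exact ov_le _ _
      exact ih (2 * q - ov M (addE N₁ x y)) (by omega) (addE N₁ x y) hmt' htot' hd' rfl
  obtain ⟨N, hN, hNt, hNd⟩ := hmiss
  exact key _ N hN hNt hNd rfl

/-- The case in which every unit of weight is missed by a maximum matching. -/
theorem case_two {G : SimpleGraph V} (hG : GapFree G) {w : V → ℕ} {q : ℕ} (hq : Mt G w q)
    (hmax : ¬ Mt G w (q + 1))
    (hmiss : ∀ t, w t ≠ 0 → ∃ e, IsMt G w e ∧ tot e = 2 * q ∧ ∀ a, dg e a + dl a t ≤ w a) :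
    ∃ Q : Finset V, Indep G Q ∧
      ((wt w Finset.univ : ℕ) : ℤ) + phi G w Q ≤ 2 * q + 1 := by
  classical
  set S : Finset V := Finset.univ.filter (fun a => w a ≠ 0 ∧ ∃ b, w b ≠ 0 ∧ G.Adj a b) with hS
  set Q : Finset V := Finset.univ.filter (fun a => w a ≠ 0 ∧ ¬ ∃ b, w b ≠ 0 ∧ G.Adj a b) with hQ
  have hQind : Indep G Q := by
    intro a ha b hb hab
    rw [hQ, Finset.mem_filter] at ha hb
    exact ha.2.2 ⟨b, hb.2.1, hab⟩
  have hnb : wt w (nbr G Q) = 0 := by
    unfold wt
    apply Finset.sum_eq_zero
    intro a ha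
    unfold nbr at ha
    rw [Finset.mem_filter] at ha
    obtain ⟨-, b, hb, hab⟩ := ha
    rw [hQ, Finset.mem_filter] at hb
    by_contra h0
    exact hb.2.2 ⟨a, h0, hab.symm⟩
  have hsum : wt w Finset.univ = wt w S + wt w Q := by
    unfold wt
    rw [hS, hQ]
    have h1 : ∑ a, w a = ∑ a ∈ Finset.univ.filter (fun a => w a ≠ 0), w a := by
      rw [Finset.sum_filter]
      apply Finset.sum_congr rfl
      intro a _
      split_ifs with h
      · rfl
      · push Not at h
        exact h
    rw [h1, ← Finset.sum_filter_add_sum_filter_not (Finset.univ.filter (fun a => w a ≠ 0))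
      (fun a => ∃ b, w b ≠ 0 ∧ G.Adj a b), Finset.filter_filter, Finset.filter_filter]
  have htr : ∀ u t v, w t ≠ 0 → ¬ DD G w q u t → ¬ DD G w q t v → ¬ DD G w q u v := by
    intro u t v ht h1 h2 h3
    rcases trans_DD hmax (hmiss t ht) h3 with h | h
    · exact h1 h
    · exact h2 h
  have hadj : ∀ u v, G.Adj u v → ¬ DD G w q u v := fun u v h => adj_notDD hmax h
  have hSS : ∀ u ∈ S, ∀ v ∈ S, ¬ DD G w q u v := by
    intro u hu v hv
    rw [hS, Finset.mem_filter] at hu hv
    obtain ⟨-, hu0, u', hu'0, huu'⟩ := hu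
    obtain ⟨-, hv0, v', hv'0, hvv'⟩ := hv
    rcases hG u u' v v' huu' hvv' with h | h | h | h | h | h | h | h
    · subst h
      exact htr u u' u hu'0 (hadj _ _ huu') (hadj _ _ huu'.symm)
    · subst h
      exact hadj _ _ hvv'.symm
    · subst h
      exact hadj _ _ huu'
    · subst h
      exact htr u u' v hu'0 (hadj _ _ huu') (hadj _ _ hvv'.symm)
    · exact hadj _ _ h
    · exact htr u v' v hv'0 (hadj _ _ h) (hadj _ _ hvv'.symm)
    · exact htr u u' v hu'0 (hadj _ _ huu') (hadj _ _ h)
    · exact htr u u' v hu'0 (hadj _ _ huu') (htr u' v' v hv'0 (hadj _ _ h) (hadj _ _ hvv'.symm))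
  refine ⟨Q, hQind, ?_⟩
  unfold phi
  rw [hnb, hsum]
  push_cast
  have hfin : wt w S ≤ 2 * q + 1 := by
    by_contra hcon
    push Not at hcon
    obtain ⟨M, hM, hMt⟩ := hq
    have h1 : ∑ a ∈ S, dg M a ≤ 2 * q := by
      rw [← hMt]
      exact Finset.sum_le_sum_of_subset (Finset.subset_univ S)
    have h2 : ∑ a ∈ S, dg M a < ∑ a ∈ S, w a := by
      unfold wt at hcon
      omega
    obtain ⟨u, hu, hu1⟩ := Finset.exists_lt_of_sum_lt h2
    have h3 : ∑ a ∈ S, (dg M a + dl a u) < ∑ a ∈ S, w a := by
      rw [Finset.sum_add_distrib]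
      have h4 : ∑ a ∈ S, dl a u ≤ 1 := by
        rw [← sum_dl u]
        exact Finset.sum_le_sum_of_subset (Finset.subset_univ S)
      unfold wt at hcon
      omega
    obtain ⟨v, hv, hv1⟩ := Finset.exists_lt_of_sum_lt h3
    apply hSS u hu v hv
    refine ⟨M, hM, hMt, fun a => ?_⟩
    have h5 := hM.2.2 a
    by_cases hav : a = v
    · subst hav
      rw [dl_self]
      omega
    · rw [dl_ne hav]
      by_cases hau : a = u
      · subst hau
        rw [dl_self]
        omega
      · rw [dl_ne hau]
        omega
  have : (wt w S : ℤ) ≤ 2 * q + 1 := by exact_mod_cast hfin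
  linarith

theorem exists_set {G : SimpleGraph V} (hG : GapFree G) : ∀ (n : ℕ) (w : V → ℕ) (q : ℕ),
    wt w Finset.univ = n → Mt G w q → ¬ Mt G w (q + 1) →
    ∃ Q : Finset V, Indep G Q ∧
      ((wt w Finset.univ : ℕ) : ℤ) + phi G w Q ≤ 2 * q + 1 := by
  intro n
  induction n with
  | zero =>
    intro w q hw hq hmax
    apply case_two hG hq hmax
    intro t ht
    exfalso
    apply ht
    unfold wt at hw
    rw [Finset.sum_eq_zero_iff] at hw
    exact hw t (mem_univ t)
  | succ n ih =>
    intro w q hw hq hmax
    by_cases hmiss : ∀ t, w t ≠ 0 → ∃ e, IsMt G w e ∧ tot e = 2 * q ∧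
        ∀ a, dg e a + dl a t ≤ w a
    · exact case_two hG hq hmax hmiss
    · push Not at hmiss
      obtain ⟨t, ht, hmiss⟩ := hmiss
      obtain ⟨M, hM, hMt⟩ := hq
      set w' : V → ℕ := fun a => w a - dl a t with hw'
      have hww' : ∀ a, w a = w' a + dl a t := by
        intro a
        by_cases hat : a = t
        · subst hat
          simp only [hw', dl_self]
          omega
        · simp only [hw', dl_ne hat]
          omega
      have hMt1 : dg M t = w t := by
        obtain ⟨a, ha⟩ := hmiss M hM hMt
        have h1 := hM.2.2 a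
        by_cases hat : a = t
        · subst hat
          rw [dl_self] at ha
          omega
        · rw [dl_ne hat] at ha
          omega
      have hne : dg M t ≠ 0 := by omega
      obtain ⟨b, hb⟩ : ∃ b, M t b ≠ 0 := by
        by_contra hcon
        push Not at hcon
        exact hne (Finset.sum_eq_zero fun b _ => hcon b)
      obtain ⟨M', hM1, hM2⟩ := sub_mt hM hb
      have hd : ∀ a, dg M a = dg M' a + dl a t + dl a b := by
        intro a
        rw [hM1, dg_addE]
      have htt : tot M' + 2 = 2 * q := by
        rw [← tot_addE M' t b, ← hM1, hMt]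
      obtain ⟨p, rfl⟩ : ∃ p, q = p + 1 := ⟨q - 1, by omega⟩
      have hMtp : Mt G w' p := by
        refine ⟨M', hM2 w' fun a => ?_, by omega⟩
        have h1 := hd a
        have h2 := hM.2.2 a
        have h3 := hww' a
        omega
      have hmax' : ¬ Mt G w' (p + 1) := by
        rintro ⟨e, he, het⟩
        obtain ⟨a, ha⟩ := hmiss e ⟨he.1, he.2.1, fun a => by
          have := he.2.2 a
          have := hww' a
          omega⟩ het
        have h1 := he.2.2 a
        have h2 := hww' a
        omega
      have hcard : wt w Finset.univ = wt w' Finset.univ + 1 := by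
        unfold wt
        rw [Finset.sum_congr rfl (fun a _ => hww' a), Finset.sum_add_distrib, sum_dl]
      obtain ⟨Q, hQ, hQ'⟩ := ih w' p (by omega) hMtp hmax'
      refine ⟨Q, hQ, ?_⟩
      have h1 : wt w (nbr G Q) ≤ wt w' (nbr G Q) + 1 := by
        unfold wt
        rw [Finset.sum_congr rfl (fun a _ => hww' a), Finset.sum_add_distrib]
        have h4 : ∑ a ∈ nbr G Q, dl a t ≤ 1 := by
          rw [← sum_dl t]
          exact Finset.sum_le_sum_of_subset (Finset.subset_univ _)
        omega
      have h2 : wt w' Q ≤ wt w Q := by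
        unfold wt
        exact Finset.sum_le_sum fun a _ => by
          have := hww' a
          omega
      unfold phi at hQ' ⊢
      push_cast
      omega

theorem ev_of_mt {G : SimpleGraph V} : ∀ (q : ℕ) (w : V →₀ ℕ), Mt G w q →
    ∃ m ∈ EV G q, m ≤ w := by
  intro q
  induction q with
  | zero =>
    intro w _
    exact ⟨0, rfl, fun a => Nat.zero_le _⟩
  | succ q ih =>
    rintro w ⟨M, hM, hMt⟩
    obtain ⟨a, b, hab⟩ : ∃ a b, M a b ≠ 0 := by
      by_contra hcon
      push Not at hcon
      have : tot M = 0 := Finset.sum_eq_zero fun a _ => Finset.sum_eq_zero fun b _ => hcon a b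
      omega
    have hadj := hM.2.1 a b hab
    obtain ⟨M', hM1, hM2⟩ := sub_mt hM hab
    have hd : ∀ c, dg M c = dg M' c + dl c a + dl c b := by
      intro c
      rw [hM1, dg_addE]
    have htt : tot M' + 2 = 2 * (q + 1) := by
      rw [← tot_addE M' a b, ← hM1, hMt]
    have hw2 : ∀ c, dl c a + dl c b ≤ w c := by
      intro c
      have h1 := hd c
      have h2 := hM.2.2 c
      omega
    have hs : ∀ c, (Finsupp.single a 1 + Finsupp.single b 1 : V →₀ ℕ) c = dl c a + dl c b := by
      intro c
      simp only [Finsupp.add_apply, Finsupp.single_apply, dl]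
      simp only [eq_comm]
    obtain ⟨m, hm, hmw⟩ := ih (w - (Finsupp.single a 1 + Finsupp.single b 1)) ⟨M', hM2 _ fun c => by
      rw [Finsupp.tsub_apply, hs]
      have h1 := hd c
      have h2 := hM.2.2 c
      omega, by omega⟩
    refine ⟨m + (Finsupp.single a 1 + Finsupp.single b 1), ⟨m, hm, a, b, hadj, rfl⟩, fun c => ?_⟩
    have h1 := hmw c
    rw [Finsupp.tsub_apply, hs] at h1
    rw [Finsupp.add_apply, hs]
    have := hw2 c
    omega

omit [DecidableEq V] in
theorem mt_zero (G : SimpleGraph V) (w : V → ℕ) : Mt G w 0 := by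
  refine ⟨fun _ _ => 0, ⟨fun _ _ => rfl, fun _ _ h => absurd rfl h, fun a => ?_⟩, ?_⟩
  · unfold dg
    simp
  · unfold tot dg
    simp

theorem suff {G : SimpleGraph V} (hG : GapFree G) (q : ℕ) (w : V →₀ ℕ)
    (h : ∀ Q : Finset V, Indep G Q → (2 * q : ℤ) ≤ ((wt w Finset.univ : ℕ) : ℤ) + phi G w Q) :
    Mt G w q := by
  classical
  by_contra hcon
  have hex : ∃ n, ¬ Mt G w n := ⟨q, hcon⟩
  set n := Nat.find hex with hn
  have h1 : ¬ Mt G w n := Nat.find_spec hex
  have h2 : n ≤ q := Nat.find_min' hex hcon
  have h0 : n ≠ 0 := by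
    intro h0
    rw [h0] at h1
    exact h1 (mt_zero G w)
  obtain ⟨p, hp⟩ : ∃ p, n = p + 1 := ⟨n - 1, by omega⟩
  have h3 : Mt G w p := by
    by_contra h3
    have := Nat.find_min' hex h3
    omega
  rw [hp] at h1
  obtain ⟨Q, hQ, hQ'⟩ := exists_set hG _ w p rfl h3 h1
  have h4 := h Q hQ
  omega

end Suff

end Match

/-- Membership of a monomial in the `q`-th power of the edge ideal of a gap-free graph. -/
theorem mem_pow_iff {V : Type} [Fintype V] [DecidableEq V] (k : Type) [Field k]
    (G : SimpleGraph V) (hG : GapFree G) (q : ℕ) (w : V →₀ ℕ) :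
    monomial w (1 : k) ∈ edgeIdeal k G ^ q ↔
      ∀ Q : Finset V, Indep G Q → (2 * q : ℤ) ≤ (wt w Finset.univ : ℤ) + phi G w Q := by
  rw [Match.monomial_mem_pow]
  constructor
  · intro h Q hQ
    exact Match.nec G q w h Q hQ
  · intro h
    exact Match.ev_of_mt q w (Match.suff hG q w h)

/-- The powers of the edge ideal are monomial ideals. -/
theorem isMono_pow {V : Type} [Fintype V] [LinearOrder V] (k : Type) [Field k]
    (G : SimpleGraph V) (q : ℕ) : IsMono (edgeIdeal k G ^ q) := by
  intro f hf m hm
  rw [Match.mem_pow] at hf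
  rw [Match.monomial_mem_pow]
  exact hf m hm

end Pool.Agent.Lib.MP_081cfe_al
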