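import Pool.Agent.Lib.MP_081cfe_al.Ext
import Pool.Agent.Lib.MP_081cfe_al.Match

/-!
# From infinite multiplicities to multiplicity one
-/

namespace Pool.Agent.Lib.MP_081cfe_al

variable {V : Type} [Fintype V] [LinearOrder V] {k : Type} [Field k] {G : SimpleGraph V}
  {w w' : V → ℕ}

/-- `|w| + phi(Q)` -/
noncomputable def EE (G : SimpleGraph V) (w : V → ℕ) (Q : Finset V) : ℤ :=
  (wt w Finset.univ : ℤ) + phi G w Q

theorem EE_eq (Q : Finset V) : EE G w Q = ∑ a, (w a : ℤ) * (1 + ct G Q a) := by
  unfold EE
  rw [phi_eq]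
  simp only [mul_add, mul_one, Finset.sum_add_distrib]
  unfold wt
  push_cast
  rfl

theorem EE_mono (h : ∀ a, w a ≤ w' a) (Q : Finset V) : EE G w Q ≤ EE G w' Q := by
  rw [EE_eq, EE_eq]
  refine Finset.sum_le_sum fun a _ => ?_
  refine mul_le_mul_of_nonneg_right (by exact_mod_cast h a) ?_
  unfold ct
  split_ifs <;> norm_num

theorem EE_congr {Q : Finset V} (hQ : Indep G Q) (h : ∀ a, a ∉ Q → w a = w' a) :
    EE G w Q = EE G w' Q := by
  rw [EE_eq, EE_eq]
  refine Finset.sum_congr rfl fun a _ => ?_
  by_cases ha : a ∈ Q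
  · have : 1 + ct G Q a = 0 := by
      unfold ct
      rw [if_pos ha, if_neg (hQ.notMem_nbr ha)]
      norm_num
    rw [this, mul_zero, mul_zero]
  · rw [h a ha]

/-- The complex in which the vertices of `One` have multiplicity one and those of `Inf`
infinite multiplicity. -/
def Md (G : SimpleGraph V) (q : ℕ) (w : V → ℕ) (One Inf : Finset V) : Set (Finset V) :=
  {σ | σ ⊆ One ∪ Inf ∧ ∃ Q, Indep G Q ∧ (∀ a ∈ σ, a ∈ Inf → a ∈ Q) ∧
    EE G (fun a => w a + if a ∈ σ ∧ a ∈ One then 1 else 0) Q < 2 * q}

/-- the link of an infinite vertex -/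
def MdL (G : SimpleGraph V) (q : ℕ) (w : V → ℕ) (One Inf : Finset V) (v : V) :
    Set (Finset V) :=
  {σ | σ ⊆ One ∪ Inf ∧ ∃ Q, Indep G Q ∧ v ∈ Q ∧ (∀ a ∈ σ, a ∈ Inf → a ∈ Q) ∧
    EE G (fun a => w a + if a ∈ σ ∧ a ∈ One then 1 else 0) Q < 2 * q}

theorem join_one {q : ℕ} {One Inf : Finset V} {v : V} (hv : v ∉ One) (hv' : v ∉ Inf) :
    join v (Md G q w One Inf) (Md G q (fun a => w a + if a = v then 1 else 0) One Inf)
      = Md G q w (insert v One) Inf := by
  ext σ
  have hfun : v ∈ σ → (fun a => (w a + if a = v then 1 else 0) +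
      (if a ∈ σ.erase v ∧ a ∈ One then 1 else 0))
      = (fun a => w a + if a ∈ σ ∧ a ∈ insert v One then 1 else 0) := by
    intro hvσ
    funext a
    by_cases hav : a = v
    · subst hav; simp [hv, hvσ]
    · simp [hav]
  have hfun' : v ∉ σ → (fun a => w a + if a ∈ σ ∧ a ∈ One then 1 else 0)
      = (fun a => w a + if a ∈ σ ∧ a ∈ insert v One then 1 else 0) := by
    intro hvσ
    funext a
    by_cases hav : a = v
    · subst hav; simp [hvσ]
    · simp [hav]
  constructor
  · rintro (⟨h1, h2, Q, h3, h4, h5⟩ | ⟨h1, h2, Q, h3, h4, h5⟩)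
    · refine ⟨h2.trans (Finset.union_subset_union (Finset.subset_insert _ _) subset_rfl),
        Q, h3, h4, ?_⟩
      rw [← hfun' h1]; exact h5
    · refine ⟨?_, Q, h3, ?_, ?_⟩
      · intro a ha
        by_cases hav : a = v
        · rw [hav]; exact Finset.mem_union_left _ (Finset.mem_insert_self _ _)
        · exact Finset.union_subset_union (Finset.subset_insert _ _) subset_rfl
            (h2 (Finset.mem_erase.2 ⟨hav, ha⟩))
      · intro a ha haI
        exact h4 a (Finset.mem_erase.2 ⟨fun e => hv' (e ▸ haI), ha⟩) haI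
      · rw [← hfun h1]; exact h5
  · rintro ⟨h2, Q, h3, h4, h5⟩
    by_cases hvσ : v ∈ σ
    · right
      refine ⟨hvσ, ?_, Q, h3, ?_, ?_⟩
      · intro a ha
        obtain ⟨hav, ha⟩ := Finset.mem_erase.1 ha
        rcases Finset.mem_union.1 (h2 ha) with h | h
        · rcases Finset.mem_insert.1 h with h | h
          · exact absurd h hav
          · exact Finset.mem_union_left _ h
        · exact Finset.mem_union_right _ h
      · intro a ha haI
        exact h4 a (Finset.mem_of_mem_erase ha) haI
      · rw [hfun hvσ]; exact h5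
    · left
      refine ⟨hvσ, ?_, Q, h3, h4, ?_⟩
      · intro a ha
        rcases Finset.mem_union.1 (h2 ha) with h | h
        · rcases Finset.mem_insert.1 h with h | h
          · exact absurd (h ▸ ha) hvσ
          · exact Finset.mem_union_left _ h
        · exact Finset.mem_union_right _ h
      · rw [hfun' hvσ]; exact h5

theorem join_inf {q : ℕ} {One Inf : Finset V} {v : V} (hv : v ∉ One) (hv' : v ∉ Inf) :
    join v (Md G q w One Inf) (MdL G q w One Inf v) = Md G q w One (insert v Inf) := by
  ext σ
  have hfun : (fun a => w a + if a ∈ σ.erase v ∧ a ∈ One then 1 else 0)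
      = (fun a => w a + if a ∈ σ ∧ a ∈ One then 1 else 0) := by
    funext a
    by_cases hav : a = v
    · subst hav; simp [hv]
    · simp [hav]
  constructor
  · rintro (⟨h1, h2, Q, h3, h4, h5⟩ | ⟨h1, h2, Q, h3, h6, h4, h5⟩)
    · refine ⟨h2.trans (Finset.union_subset_union subset_rfl (Finset.subset_insert _ _)),
        Q, h3, ?_, h5⟩
      intro a ha haI
      rcases Finset.mem_insert.1 haI with h | h
      · exact absurd (h ▸ ha) h1
      · exact h4 a ha h
    · refine ⟨?_, Q, h3, ?_, ?_⟩
      · intro a ha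
        by_cases hav : a = v
        · rw [hav]; exact Finset.mem_union_right _ (Finset.mem_insert_self _ _)
        · exact Finset.union_subset_union subset_rfl (Finset.subset_insert _ _)
            (h2 (Finset.mem_erase.2 ⟨hav, ha⟩))
      · intro a ha haI
        rcases Finset.mem_insert.1 haI with h | h
        · rw [h]; exact h6
        · exact h4 a (Finset.mem_erase.2 ⟨fun e => hv' (e ▸ h), ha⟩) h
      · rw [← hfun]; exact h5
  · rintro ⟨h2, Q, h3, h4, h5⟩
    by_cases hvσ : v ∈ σ
    · right
      refine ⟨hvσ, ?_, Q, h3, h4 v hvσ (Finset.mem_insert_self _ _), ?_, ?_⟩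
      · intro a ha
        obtain ⟨hav, ha⟩ := Finset.mem_erase.1 ha
        rcases Finset.mem_union.1 (h2 ha) with h | h
        · exact Finset.mem_union_left _ h
        · rcases Finset.mem_insert.1 h with h | h
          · exact absurd h hav
          · exact Finset.mem_union_right _ h
      · intro a ha haI
        exact h4 a (Finset.mem_of_mem_erase ha) (Finset.mem_insert_of_mem haI)
      · rw [hfun]; exact h5
    · left
      refine ⟨hvσ, ?_, Q, h3, ?_, h5⟩
      · intro a ha
        rcases Finset.mem_union.1 (h2 ha) with h | h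
        · exact Finset.mem_union_left _ h
        · rcases Finset.mem_insert.1 h with h | h
          · exact absurd (h ▸ ha) hvσ
          · exact Finset.mem_union_right _ h
      · intro a ha haI
        exact h4 a ha (Finset.mem_insert_of_mem haI)

theorem mdL_eq {q : ℕ} {One Inf : Finset V} {v : V} :
    MdL G q (fun a => w a + if a = v then 1 else 0) One Inf v = MdL G q w One Inf v := by
  ext σ
  have key : ∀ Q, Indep G Q → v ∈ Q →
      EE G (fun a => (w a + if a = v then 1 else 0) + if a ∈ σ ∧ a ∈ One then 1 else 0) Q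
      = EE G (fun a => w a + if a ∈ σ ∧ a ∈ One then 1 else 0) Q := by
    intro Q h1 h2
    refine EE_congr h1 fun a ha => ?_
    have : a ≠ v := fun e => ha (e ▸ h2)
    simp [this]
  constructor
  · rintro ⟨h1, Q, h2, h3, h4, h5⟩
    rw [key Q h2 h3] at h5
    exact ⟨h1, Q, h2, h3, h4, h5⟩
  · rintro ⟨h1, Q, h2, h3, h4, h5⟩
    refine ⟨h1, Q, h2, h3, h4, ?_⟩
    rw [key Q h2 h3]; exact h5

theorem mdL_subset {q : ℕ} {One Inf : Finset V} {v : V} :
    MdL G q w One Inf v ⊆ Md G q w One Inf := by
  rintro σ ⟨h1, Q, h2, _, h4, h5⟩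
  exact ⟨h1, Q, h2, h4, h5⟩

theorem md_subset {q : ℕ} {One Inf : Finset V} {v : V} :
    Md G q (fun a => w a + if a = v then 1 else 0) One Inf ⊆ Md G q w One Inf := by
  rintro σ ⟨h1, Q, h2, h4, h5⟩
  refine ⟨h1, Q, h2, h4, lt_of_le_of_lt (EE_mono (fun a => ?_) Q) h5⟩
  exact Nat.add_le_add_right (Nat.le_add_right _ _) _

theorem wt_add_one (v : V) :
    wt (fun a => w a + if a = v then 1 else 0) Finset.univ = wt w Finset.univ + 1 := by
  unfold wt
  rw [Finset.sum_add_distrib, Finset.sum_ite_eq' Finset.univ v, if_pos (Finset.mem_univ v)]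

theorem van_md (hG : GapFree G) (q t : ℕ) (ht : 2 * q ≤ t)
    (hX : ∀ Y : Finset V, Van k {S : Finset V | S ⊆ Y ∧ Indep G S} (t - q + 1)) (n : ℕ) :
    ∀ One : Finset V, One.card = n → ∀ (w : V → ℕ) (Inf : Finset V), Disjoint One Inf →
      (∀ v, 0 < w v → v ∈ One ∪ Inf) →
      Van k (Md G q w One Inf) (t - wt w Finset.univ) := by
  induction n with
  | zero =>
    intro One hOne w Inf _ hw
    have hO := Finset.card_eq_zero.1 hOne
    subst hO
    have h := van_main (k := k) hG q t ht hX w Inf (fun v hv => by simpa using hw v hv)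
    have hEq : Md G q w ∅ Inf = {S : Finset V | S ⊆ Inf ∧ ∃ Q, Indep G Q ∧ S ⊆ Q ∧
        (wt w Finset.univ : ℤ) + phi G w Q < 2 * q} := by
      ext S
      have hfun : (fun a => w a + if a ∈ S ∧ a ∈ (∅ : Finset V) then 1 else 0) = w := by
        funext a; simp
      constructor
      · rintro ⟨h1, Q, h2, h3, h4⟩
        rw [hfun] at h4
        have h1' : S ⊆ Inf := by simpa using h1
        exact ⟨h1', Q, h2, fun a ha => h3 a ha (h1' ha), h4⟩
      · rintro ⟨h1, Q, h2, h3, h4⟩
        refine ⟨by simpa using h1, Q, h2, fun a ha _ => h3 ha, ?_⟩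
        rw [hfun]; exact h4
    rw [hEq]; exact h
  | succ n ih =>
    intro One hOne w Inf hdis hw
    obtain ⟨v, hv⟩ := Finset.card_pos.1 (by omega : 0 < One.card)
    have hvI : v ∉ Inf := Finset.disjoint_left.1 hdis hv
    have hcard : (One.erase v).card = n := by rw [Finset.card_erase_of_mem hv, hOne]; rfl
    have hvO : v ∉ One.erase v := Finset.notMem_erase v One
    have hdis' : Disjoint (One.erase v) (insert v Inf) := by
      rw [Finset.disjoint_left] at hdis ⊢
      intro a ha hb
      rw [Finset.mem_erase] at ha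
      rcases Finset.mem_insert.1 hb with h | h
      · exact ha.1 h
      · exact hdis ha.2 h
    have hcover : ∀ a, a ∈ One ∪ Inf → a ∈ One.erase v ∪ insert v Inf := by
      intro a ha
      rcases Finset.mem_union.1 ha with h | h
      · by_cases hav : a = v
        · rw [hav]; exact Finset.mem_union_right _ (Finset.mem_insert_self _ _)
        · exact Finset.mem_union_left _ (Finset.mem_erase.2 ⟨hav, h⟩)
      · exact Finset.mem_union_right _ (Finset.mem_insert_of_mem h)
    have h13 := ih (One.erase v) hcard w (insert v Inf) hdis' (fun a ha => hcover a (hw a ha))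
    have h23 := ih (One.erase v) hcard (fun a => w a + if a = v then 1 else 0) (insert v Inf)
      hdis' (fun a ha => by
        by_cases hav : a = v
        · rw [hav]; exact Finset.mem_union_right _ (Finset.mem_insert_self _ _)
        · simp only [hav, if_false, add_zero] at ha
          exact hcover a (hw a ha))
    rw [← join_inf hvO hvI] at h13 h23
    rw [mdL_eq, wt_add_one] at h23
    have h12 := van_join (v := v) (K1 := Md G q w (One.erase v) Inf)
      (K2 := Md G q (fun a => w a + if a = v then 1 else 0) (One.erase v) Inf)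
      (K3 := MdL G q w (One.erase v) Inf v) ?_ ?_ h13 (h23.mono (by omega))
    · rw [join_one hvO hvI, Finset.insert_erase hv] at h12
      exact h12
    · rw [← mdL_eq]; exact mdL_subset
    · exact md_subset

open MvPolynomial in
theorem DU_eq_md (hG : GapFree G) (q : ℕ) (w : V →₀ ℕ) (U : Finset V) :
    DU (edgeIdeal k G ^ q) w U = Md G q w U ∅ := by
  ext σ
  have hfun : σ ⊆ U → ((w + indic σ : V →₀ ℕ) : V → ℕ)
      = (fun a => w a + if a ∈ σ ∧ a ∈ U then 1 else 0) := by
    intro hσ
    funext a
    have h1 : indic σ a = if a ∈ σ then 1 else 0 := by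
      unfold indic
      rw [Finsupp.finset_sum_apply]
      simp [Finsupp.single_apply]
    have h2 : (a ∈ σ ∧ a ∈ U) ↔ a ∈ σ := ⟨fun h => h.1, fun h => ⟨h, hσ h⟩⟩
    rw [Finsupp.add_apply, h1]
    simp only [h2]
  constructor
  · rintro ⟨h1, h2⟩
    rw [mem_pow_iff k G hG] at h2
    push Not at h2
    obtain ⟨Q, h3, h4⟩ := h2
    refine ⟨h1.trans Finset.subset_union_left, Q, h3,
      fun a _ ha => absurd ha (Finset.notMem_empty a), ?_⟩
    rw [← hfun h1]; exact h4
  · rintro ⟨h1, Q, h3, _, h4⟩
    rw [Finset.union_empty] at h1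
    refine ⟨h1, fun h2 => ?_⟩
    rw [mem_pow_iff k G hG] at h2
    have h5 := h2 Q h3
    rw [← hfun h1] at h4
    unfold EE at h4
    omega

omit [LinearOrder V] in
theorem degree_eq_wt (w : V →₀ ℕ) : w.degree = wt w Finset.univ := by
  unfold wt
  rw [Finsupp.degree_eq_sum]

open MvPolynomial in
/-- Vanishing for the complexes of the powers of the edge ideal. -/
theorem van_pow (hG : GapFree G) (q t : ℕ) (ht : 2 * q ≤ t)
    (hX : ∀ Y : Finset V, Van k {S : Finset V | S ⊆ Y ∧ Indep G S} (t - q + 1))
    (w : V →₀ ℕ) (U : Finset V) (hU : w.support ⊆ U) :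
    Van k (DU (edgeIdeal k G ^ q) w U) (t - w.degree) := by
  rw [DU_eq_md hG, degree_eq_wt]
  exact van_md (k := k) hG q t ht hX _ U rfl (w : V → ℕ) ∅ (Finset.disjoint_empty_right U)
    (fun v hv => Finset.mem_union_left _ (hU (Finsupp.mem_support_iff.2 hv.ne')))

/-! ### the converse -/

/-- The converse of the triple rule. -/
theorem van_join_inf {α : Type} [LinearOrder α] {v : α} {K1 K2 K3 : Set (Finset α)}
    {t : ℕ} (h32 : K3 ⊆ K2) (h21 : K2 ⊆ K1)
    (h12 : Van k (join v K1 K2) t) (h23 : Van k (join v K2 K3) t) :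
    Van k (join v K1 K3) t := by
  intro p hp c hc
  have hd0 : ∀ τ, τ ∈ K1 → v ∉ τ → τ.card = p + 1 → cob c τ = 0 :=
    fun τ hτ hv hcard => hc τ (Or.inl ⟨hv, hτ⟩) hcard
  obtain ⟨b2, hb2⟩ := h23 p hp (down v (cob c)) (by
    intro τ hτ hcard
    rcases hτ with ⟨hv, hτ⟩ | ⟨hv, hτ⟩
    · have h1 : cob (cob c) (insert v τ) = 0 := cob_cob c _
      rw [cob_eq_of_mem (Finset.mem_insert_self v τ), Finset.erase_insert hv] at h1
      have h2 := sg_smul_eq_zero h1
      rw [hd0 τ (h21 hτ) hv hcard, zero_sub, neg_eq_zero] at h2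
      exact h2
    · have hz : cob (down v (cob c)) τ = sg v τ • down v (cob c) (τ.erase v) := by
        unfold cob
        rw [← Finset.add_sum_erase _ _ hv, Finset.sum_eq_zero, add_zero]
        intro u hu
        have hu' := Finset.mem_erase.1 hu
        rw [down, if_pos (Finset.mem_erase.2 ⟨Ne.symm hu'.1, hv⟩), smul_zero]
      rw [hz, down, if_neg (by simp), Finset.insert_erase hv, sg_smul_self]
      exact hc τ (Or.inr ⟨hv, hτ⟩) hcard)
  obtain ⟨b1, hb1⟩ := h12 p hp (c + up v b2) (by
    intro τ hτ hcard
    rw [cob_add]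
    rcases hτ with ⟨hv, hτ⟩ | ⟨hv, hτ⟩
    · rw [hd0 τ hτ hv hcard, cob_up_notMem hv, add_zero]
    · rw [cob_up_mem hv, hb2 (τ.erase v) (Or.inl ⟨by simp, hτ⟩)
        (by rw [Finset.card_erase_of_mem hv, hcard]; rfl)]
      rw [down, if_neg (by simp), Finset.insert_erase hv, sg_smul_self]
      exact add_neg_cancel _)
  refine ⟨b1 + up v (down v b2), fun τ hτ hcard => ?_⟩
  rw [cob_add]
  rcases hτ with ⟨hv, hτ⟩ | ⟨hv, hτ⟩
  · rw [hb1 τ (Or.inl ⟨hv, hτ⟩) hcard, cob_up_notMem hv, add_zero, Pi.add_apply, up, if_neg hv,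
      add_zero]
  · rw [hb1 τ (Or.inr ⟨hv, h32 hτ⟩) hcard, cob_up_mem hv, Pi.add_apply, up, if_pos hv]
    have h1 := hb2 τ (Or.inr ⟨hv, hτ⟩) hcard
    rw [cob_eq_of_mem hv, down, if_pos hv] at h1
    have h2 := sub_eq_zero.1 (sg_smul_eq_zero h1)
    rw [← h2]
    exact add_neg_cancel_right _ _

theorem van_md_inf (q t : ℕ)
    (h : ∀ (w : V → ℕ) (U : Finset V), (∀ v, 0 < w v → v ∈ U) →
      Van k (Md G q w U ∅) (t - wt w Finset.univ)) (n : ℕ) :
    ∀ Inf : Finset V, Inf.card = n → ∀ (One : Finset V), Disjoint One Inf → ∀ (w : V → ℕ),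
      (∀ v, 0 < w v → v ∈ One ∪ Inf) →
      Van k (Md G q w One Inf) (t - wt w Finset.univ) := by
  induction n with
  | zero =>
    intro Inf hI One _ w hw
    rw [Finset.card_eq_zero.1 hI] at hw ⊢
    exact h w One (fun v hv => by simpa using hw v hv)
  | succ n ih =>
    intro Inf hI One hdis
    obtain ⟨v, hv⟩ := Finset.card_pos.1 (by omega : 0 < Inf.card)
    have hvO : v ∉ One := fun h' => Finset.disjoint_left.1 hdis h' hv
    have hcard : (Inf.erase v).card = n := by rw [Finset.card_erase_of_mem hv, hI]; rfl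
    have hvI : v ∉ Inf.erase v := Finset.notMem_erase v Inf
    have hdis' : Disjoint (insert v One) (Inf.erase v) := by
      rw [Finset.disjoint_left] at hdis ⊢
      intro a ha hb
      rw [Finset.mem_erase] at hb
      rcases Finset.mem_insert.1 ha with h | h
      · exact hb.1 h
      · exact hdis h hb.2
    have hcover : ∀ a, a ∈ One ∪ Inf → a ∈ insert v One ∪ Inf.erase v := by
      intro a ha
      rcases Finset.mem_union.1 ha with h | h
      · exact Finset.mem_union_left _ (Finset.mem_insert_of_mem h)
      · by_cases hav : a = v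
        · rw [hav]; exact Finset.mem_union_left _ (Finset.mem_insert_self _ _)
        · exact Finset.mem_union_right _ (Finset.mem_erase.2 ⟨hav, h⟩)
    -- downward induction on `w v`
    suffices H : ∀ m : ℕ, ∀ w : V → ℕ, 2 * q - w v = m → (∀ v, 0 < w v → v ∈ One ∪ Inf) →
        Van k (Md G q w One Inf) (t - wt w Finset.univ) by
      intro w hw
      exact H _ w rfl hw
    intro m
    induction m with
    | zero =>
      intro w hwv hw
      refine van_cone v ?_ _
      rintro σ ⟨h1, Q, h2, h3, h4⟩
      have hvQ : v ∈ Q := by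
        by_contra hvQ
        have h5 : EE G (fun a => if a = v then 2 * q else 0) Q ≤
            EE G (fun a => w a + if a ∈ σ ∧ a ∈ One then 1 else 0) Q := by
          refine EE_mono (fun a => ?_) Q
          by_cases hav : a = v
          · rw [if_pos hav, hav]; omega
          · rw [if_neg hav]; exact Nat.zero_le _
        have h6 : (2 * q : ℤ) ≤ EE G (fun a => if a = v then 2 * q else 0) Q := by
          rw [EE_eq, Finset.sum_eq_single v]
          · rw [if_pos rfl]
            unfold ct
            rw [if_neg hvQ]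
            split_ifs
            · push_cast; nlinarith
            · push_cast; nlinarith
          · intro b _ hb
            rw [if_neg hb]; simp
          · intro hh; exact absurd (Finset.mem_univ v) hh
        omega
      refine ⟨Finset.insert_subset (Finset.mem_union_right _ hv) h1, Q, h2, ?_, ?_⟩
      · intro a ha haI
        rcases Finset.mem_insert.1 ha with h | h
        · rw [h]; exact hvQ
        · exact h3 a h haI
      · have : (fun a => w a + if a ∈ insert v σ ∧ a ∈ One then 1 else 0)
            = (fun a => w a + if a ∈ σ ∧ a ∈ One then 1 else 0) := by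
          funext a
          by_cases hav : a = v
          · subst hav; simp [hvO]
          · simp [hav]
        rw [this]; exact h4
    | succ m ihm =>
      intro w hwv hw
      have h12 := ih (Inf.erase v) hcard (insert v One) hdis' w (fun a ha => hcover a (hw a ha))
      have h23 := ihm (fun a => w a + if a = v then 1 else 0) (by
          simp only [if_true]
          omega) (fun a ha => by
          by_cases hav : a = v
          · rw [hav]; exact Finset.mem_union_right _ hv
          · simp only [hav, if_false, add_zero] at ha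
            exact hw a ha)
      rw [← Finset.insert_erase hv, ← join_inf hvO hvI, mdL_eq, wt_add_one] at h23
      rw [← join_one hvO hvI] at h12
      rw [← Finset.insert_erase hv, ← join_inf hvO hvI]
      refine van_join_inf ?_ md_subset h12 (h23.mono (by omega))
      rw [← mdL_eq]; exact mdL_subset

/-- Vanishing for the powers implies vanishing for the independence complexes. -/
theorem van_indep_of_pow (hG : GapFree G) (q t : ℕ) (hq : 1 ≤ q) (hqt : q ≤ t)
    (h : ∀ (w : V →₀ ℕ) (U : Finset V), w.support ⊆ U →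
      Van k (DU (edgeIdeal k G ^ q) w U) (t - w.degree)) (Y : Finset V) :
    Van k {S : Finset V | S ⊆ Y ∧ Indep G S} (t - q + 1) := by
  rcases Y.eq_empty_or_nonempty with rfl | ⟨v, hv⟩
  · refine van_of_card ?_
    rintro τ ⟨hτ, _⟩
    rw [Finset.subset_empty.1 hτ, Finset.card_empty]; omega
  · have h' : ∀ (w : V → ℕ) (U : Finset V), (∀ v, 0 < w v → v ∈ U) →
        Van k (Md G q w U ∅) (t - wt w Finset.univ) := by
      intro w U hU
      have := h (Finsupp.equivFunOnFinite.symm w) U (by
        intro a ha
        rw [Finsupp.mem_support_iff] at ha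
        exact hU a (Nat.pos_of_ne_zero ha))
      rw [DU_eq_md hG, degree_eq_wt] at this
      exact this
    have h1 := van_md_inf q t h' _ Y rfl ∅ (Finset.disjoint_empty_left Y)
      (fun a => if a = v then q - 1 else 0) (by
        intro a ha
        by_cases hav : a = v
        · rw [hav]; exact Finset.mem_union_right _ hv
        · rw [if_neg hav] at ha; omega)
    have hwt : wt (fun a => if a = v then q - 1 else 0) Finset.univ = q - 1 := by
      unfold wt
      rw [Finset.sum_ite_eq' Finset.univ v, if_pos (Finset.mem_univ v)]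
    rw [hwt] at h1
    have hEq : Md G q (fun a => if a = v then q - 1 else 0) ∅ Y
        = {S : Finset V | S ⊆ Y ∧ Indep G S} := by
      ext S
      have hfun : (fun a => (if a = v then q - 1 else 0) +
          (if a ∈ S ∧ a ∈ (∅ : Finset V) then 1 else 0))
          = (fun a => if a = v then q - 1 else 0) := by
        funext a; simp
      constructor
      · rintro ⟨h1, Q, h2, h3, _⟩
        have h1' : S ⊆ Y := by simpa using h1
        exact ⟨h1', h2.mono fun a ha => h3 a ha (h1' ha)⟩
      · rintro ⟨h1, h2⟩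
        refine ⟨by simpa using h1, S, h2, fun a ha _ => ha, ?_⟩
        rw [hfun]
        unfold EE phi
        have h3 : wt (fun a => if a = v then q - 1 else 0) (nbr G S) ≤
            wt (fun a => if a = v then q - 1 else 0) Finset.univ :=
          wt_mono (Finset.subset_univ _)
        rw [hwt] at h3 ⊢
        omega
    rw [hEq] at h1
    exact h1.mono (by omega)

end Pool.Agent.Lib.MP_081cfe_al
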