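import Pool.Agent.Lib.MP_081cfe_al.Defs

/-!
# Submodularity of `phi`
-/

namespace Pool.Agent.Lib.MP_081cfe_al

variable {V : Type} [Fintype V] [DecidableEq V] {G : SimpleGraph V} {w : V → ℕ}

theorem mem_nbr {Q : Finset V} {a : V} : a ∈ nbr G Q ↔ ∃ b ∈ Q, G.Adj a b := by
  simp [nbr]

theorem nbr_mono {Q R : Finset V} (h : Q ⊆ R) : nbr G Q ⊆ nbr G R := by
  intro a ha
  rw [mem_nbr] at ha ⊢
  obtain ⟨b, hb, hab⟩ := ha
  exact ⟨b, h hb, hab⟩

theorem Indep.mono {Q R : Finset V} (h : Indep G R) (hQ : Q ⊆ R) : Indep G Q :=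
  fun a ha b hb => h a (hQ ha) b (hQ hb)

theorem Indep.notMem_nbr {Q : Finset V} (h : Indep G Q) {a : V} (ha : a ∈ Q) : a ∉ nbr G Q := by
  rw [mem_nbr]
  rintro ⟨b, hb, hab⟩
  exact h a ha b hb hab

theorem indep_empty : Indep G (∅ : Finset V) := fun a ha => absurd ha (Finset.notMem_empty a)

theorem indep_union {Q R : Finset V} (hQ : Indep G Q) (hR : Indep G R)
    (h : ∀ a ∈ Q, ∀ b ∈ R, ¬ G.Adj a b) : Indep G (Q ∪ R) := by
  intro a ha b hb
  rcases Finset.mem_union.1 ha with ha | ha <;> rcases Finset.mem_union.1 hb with hb | hb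
  · exact hQ a ha b hb
  · exact h a ha b hb
  · exact fun hab => h b hb a ha hab.symm
  · exact hR a ha b hb

theorem indep_insert {Q : Finset V} {x : V} (hQ : Indep G Q) (hx : x ∉ nbr G Q) :
    Indep G (insert x Q) := by
  have hx' : ∀ b ∈ Q, ¬ G.Adj x b := fun b hb hxb => hx (mem_nbr.2 ⟨b, hb, hxb⟩)
  intro a ha b hb
  rcases Finset.mem_insert.1 ha with h1 | h1 <;> rcases Finset.mem_insert.1 hb with h2 | h2
  · rw [h1, h2]; exact G.loopless.irrefl _
  · rw [h1]; exact hx' b h2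
  · rw [h2]; exact fun hab => hx' a h1 hab.symm
  · exact hQ a h1 b h2

/-- contribution of the vertex `a` to `phi` -/
noncomputable def ct (G : SimpleGraph V) (Q : Finset V) (a : V) : ℤ :=
  (if a ∈ nbr G Q then 1 else 0) - (if a ∈ Q then 1 else 0)

theorem phi_eq (Q : Finset V) : phi G w Q = ∑ a, (w a : ℤ) * ct G Q a := by
  unfold phi wt ct
  simp only [mul_sub, Finset.sum_sub_distrib, mul_ite, mul_one, mul_zero]
  rw [Finset.sum_ite_mem, Finset.sum_ite_mem, Finset.univ_inter, Finset.univ_inter]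
  push_cast
  rfl

theorem phi_empty : phi G w ∅ = 0 := by
  have : nbr G (∅ : Finset V) = ∅ := by
    ext a; simp [mem_nbr]
  simp [phi, wt, this]

/-- the join of two independent sets -/
noncomputable def jn (G : SimpleGraph V) (Q R : Finset V) : Finset V :=
  (Q \ nbr G R) ∪ (R \ nbr G Q)

theorem mem_jn {Q R : Finset V} {a : V} :
    a ∈ jn G Q R ↔ (a ∈ Q ∧ a ∉ nbr G R) ∨ (a ∈ R ∧ a ∉ nbr G Q) := by
  simp [jn]

theorem indep_jn {Q R : Finset V} (hQ : Indep G Q) (hR : Indep G R) : Indep G (jn G Q R) := by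
  intro a ha b hb hab
  rw [mem_jn] at ha hb
  rcases ha with ⟨ha, ha'⟩ | ⟨ha, ha'⟩ <;> rcases hb with ⟨hb, hb'⟩ | ⟨hb, hb'⟩
  · exact hQ a ha b hb hab
  · exact ha' (mem_nbr.2 ⟨b, hb, hab⟩)
  · exact ha' (mem_nbr.2 ⟨b, hb, hab⟩)
  · exact hR a ha b hb hab

theorem inter_subset_jn {Q R : Finset V} (hR : Indep G R) :
    Q ∩ R ⊆ jn G Q R := by
  intro a ha
  rw [Finset.mem_inter] at ha
  exact mem_jn.2 (Or.inl ⟨ha.1, hR.notMem_nbr ha.2⟩)

theorem jn_subset {Q R A : Finset V} (hQ : Q ⊆ A) (hR : R ⊆ A) : jn G Q R ⊆ A := by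
  intro a ha
  rcases mem_jn.1 ha with h | h
  · exact hQ h.1
  · exact hR h.1

theorem jn_eq_union {Q R A : Finset V} (hA : Indep G A) (hQ : Q ⊆ A) (hR : R ⊆ A) :
    jn G Q R = Q ∪ R := by
  ext a
  rw [mem_jn, Finset.mem_union]
  constructor
  · rintro (h | h)
    · exact Or.inl h.1
    · exact Or.inr h.1
  · rintro (h | h)
    · exact Or.inl ⟨h, fun h' => hA.notMem_nbr (hQ h) (nbr_mono hR h')⟩
    · exact Or.inr ⟨h, fun h' => hA.notMem_nbr (hR h) (nbr_mono hQ h')⟩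

theorem ct_submod {Q R : Finset V} (hQ : Indep G Q) (hR : Indep G R) (a : V) :
    ct G (Q ∩ R) a + ct G (jn G Q R) a ≤ ct G Q a + ct G R a := by
  have hN1 : a ∈ nbr G (Q ∩ R) → a ∈ nbr G Q ∧ a ∈ nbr G R := fun h =>
    ⟨nbr_mono Finset.inter_subset_left h, nbr_mono Finset.inter_subset_right h⟩
  have hN2 : a ∈ nbr G (jn G Q R) → a ∈ nbr G Q ∨ a ∈ nbr G R := by
    intro h
    obtain ⟨b, hb, hab⟩ := mem_nbr.1 h
    rcases mem_jn.1 hb with h | h
    · exact Or.inl (mem_nbr.2 ⟨b, h.1, hab⟩)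
    · exact Or.inr (mem_nbr.2 ⟨b, h.1, hab⟩)
  have hN3 : a ∈ Q → a ∉ nbr G (jn G Q R) := by
    intro ha h
    obtain ⟨b, hb, hab⟩ := mem_nbr.1 h
    rcases mem_jn.1 hb with h | h
    · exact hQ a ha b h.1 hab
    · exact h.2 (mem_nbr.2 ⟨a, ha, hab.symm⟩)
  have hN4 : a ∈ R → a ∉ nbr G (jn G Q R) := by
    intro ha h
    obtain ⟨b, hb, hab⟩ := mem_nbr.1 h
    rcases mem_jn.1 hb with h | h
    · exact h.2 (mem_nbr.2 ⟨a, ha, hab.symm⟩)
    · exact hR a ha b h.1 hab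
  have hQ' : a ∈ Q → a ∉ nbr G Q := hQ.notMem_nbr
  have hR' : a ∈ R → a ∉ nbr G R := hR.notMem_nbr
  have hj : a ∈ jn G Q R ↔ (a ∈ Q ∧ a ∉ nbr G R) ∨ (a ∈ R ∧ a ∉ nbr G Q) := mem_jn
  unfold ct
  simp only [Finset.mem_inter]
  by_cases h1 : a ∈ Q <;> by_cases h2 : a ∈ R <;> by_cases h3 : a ∈ nbr G Q <;>
    by_cases h4 : a ∈ nbr G R <;> by_cases h5 : a ∈ nbr G (Q ∩ R) <;>
    by_cases h6 : a ∈ nbr G (jn G Q R) <;> by_cases h7 : a ∈ jn G Q R <;>
    simp_all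

theorem phi_submod {Q R : Finset V} (hQ : Indep G Q) (hR : Indep G R) :
    phi G w (Q ∩ R) + phi G w (jn G Q R) ≤ phi G w Q + phi G w R := by
  simp only [phi_eq]
  rw [← Finset.sum_add_distrib, ← Finset.sum_add_distrib]
  refine Finset.sum_le_sum fun a _ => ?_
  rw [← mul_add, ← mul_add]
  exact mul_le_mul_of_nonneg_left (ct_submod hQ hR a) (by positivity)

theorem ct_eq_of_phi {Q R : Finset V} (hQ : Indep G Q) (hR : Indep G R)
    (h : phi G w Q + phi G w R ≤ phi G w (Q ∩ R) + phi G w (jn G Q R)) {a : V} (ha : 0 < w a) :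
    ct G (Q ∩ R) a + ct G (jn G Q R) a = ct G Q a + ct G R a := by
  by_contra hne
  have hlt := lt_of_le_of_ne (ct_submod hQ hR a) hne
  have : phi G w (Q ∩ R) + phi G w (jn G Q R) < phi G w Q + phi G w R := by
    simp only [phi_eq]
    rw [← Finset.sum_add_distrib, ← Finset.sum_add_distrib]
    refine Finset.sum_lt_sum (fun a _ => ?_) ⟨a, Finset.mem_univ a, ?_⟩
    · rw [← mul_add, ← mul_add]
      exact mul_le_mul_of_nonneg_left (ct_submod hQ hR a) (by positivity)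
    · rw [← mul_add, ← mul_add]
      exact mul_lt_mul_of_pos_left hlt (by exact_mod_cast ha)
  omega

theorem wt_mono {A B : Finset V} (h : A ⊆ B) : wt w A ≤ wt w B :=
  Finset.sum_le_sum_of_subset h

theorem wt_union {A B : Finset V} (h : Disjoint A B) : wt w (A ∪ B) = wt w A + wt w B :=
  Finset.sum_union h

theorem wt_sdiff {A B : Finset V} (h : A ⊆ B) : wt w (B \ A) + wt w A = wt w B :=
  Finset.sum_sdiff h

theorem wt_eq_zero {A : Finset V} (h : ∀ a ∈ A, w a = 0) : wt w A = 0 :=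
  Finset.sum_eq_zero h

/-- Removing vertices of zero weight does not increase `phi`. -/
theorem phi_le_of_subset {A Q : Finset V} (h : A ⊆ Q) (h0 : ∀ a ∈ Q, a ∉ A → w a = 0) :
    phi G w A ≤ phi G w Q := by
  have h1 : wt w (nbr G A) ≤ wt w (nbr G Q) := wt_mono (nbr_mono h)
  have h2 : wt w (Q \ A) = 0 := wt_eq_zero fun a ha => by
    rw [Finset.mem_sdiff] at ha
    exact h0 a ha.1 ha.2
  have h3 := wt_sdiff (w := w) h
  unfold phi
  omega

theorem disjoint_nbr {Q : Finset V} (h : Indep G Q) : Disjoint Q (nbr G Q) :=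
  Finset.disjoint_left.2 fun _ ha => h.notMem_nbr ha

/-- `w(Q) + w(N(Q)) + w(R \ Q) ≤ |w|` for independent `R ⊇ Q`. -/
theorem wt_three {Q R : Finset V} (hR : Indep G R) (h : Q ⊆ R) :
    wt w (R \ Q) + wt w Q + wt w (nbr G Q) ≤ wt w Finset.univ := by
  rw [wt_sdiff h, ← wt_union]
  · exact wt_mono (Finset.subset_univ _)
  · exact (disjoint_nbr hR).mono_right (nbr_mono h)

end Pool.Agent.Lib.MP_081cfe_al
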