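import Mathlib
import Pool.Agent.Lib.MP_081cfe_al.Defs

/-!
# MP_081cfe_al, module Resol: minimal graded free resolutions of a homogeneous ideal exist, and
the degree bounds of a resolution are equivalent to exactness of the Koszul complex.
-/

namespace Pool.Agent.Lib.MP_081cfe_al

open MvPolynomial

namespace Resol

variable {V : Type} {k : Type} [Field k]

/-- A grading of a module over the polynomial ring, by its homogeneous elements `A e` and the
component maps `cmp e`. -/
structure Gr (V k : Type) [Field k] (M : Type) [AddCommGroup M]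
    [Module (MvPolynomial V k) M] where
  A : ℕ → AddSubgroup M
  cmp : ℕ → M →+ M
  cmp_mem : ∀ e x, cmp e x ∈ A e
  cmp_of_mem : ∀ e x, x ∈ A e → cmp e x = x
  cmp_smul : ∀ (s : MvPolynomial V k) (t e : ℕ) (x : M), x ∈ A t →
    cmp e (s • x) = if t ≤ e then homogeneousComponent (e - t) s • x else 0
  fin_sum : ∀ x, ∃ K, ∑ e ∈ Finset.range K, cmp e x = x

lemma sum_hc (s : MvPolynomial V k) (K : ℕ) (hK : s.totalDegree < K) :
    ∑ i ∈ Finset.range K, homogeneousComponent i s = s := by
  conv_rhs => rw [← sum_homogeneousComponent s]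
  symm
  apply Finset.sum_subset
  · intro i hi
    rw [Finset.mem_range] at *
    omega
  · intro i _ hi
    rw [Finset.mem_range] at hi
    exact homogeneousComponent_eq_zero _ _ (by omega)

lemma hc_mul (s x : MvPolynomial V k) (t e : ℕ) (hx : x.IsHomogeneous t) :
    homogeneousComponent e (s * x) = if t ≤ e then homogeneousComponent (e - t) s * x else 0 := by
  conv_lhs => rw [← sum_homogeneousComponent s, Finset.sum_mul, map_sum]
  have h1 : ∀ i ∈ Finset.range (s.totalDegree + 1),
      homogeneousComponent e (homogeneousComponent i s * x) =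
        if e = i + t then homogeneousComponent i s * x else 0 := by
    intro i _
    exact homogeneousComponent_of_mem ((homogeneousComponent_isHomogeneous i s).mul hx)
  rw [Finset.sum_congr rfl h1]
  split_ifs with h
  · by_cases h2 : e - t < s.totalDegree + 1
    · rw [Finset.sum_eq_single (e - t)]
      · rw [if_pos (by omega)]
      · intro i _ hi
        rw [if_neg (by omega)]
      · intro hn
        exact absurd (Finset.mem_range.2 h2) hn
    · rw [homogeneousComponent_eq_zero _ _ (by omega : s.totalDegree < e - t), zero_mul]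
      apply Finset.sum_eq_zero
      intro i hi
      rw [Finset.mem_range] at hi
      rw [if_neg (by omega)]
  · apply Finset.sum_eq_zero
    intro i _
    rw [if_neg (by omega)]

/-- The standard grading of the polynomial ring. -/
noncomputable def grS : Gr V k (MvPolynomial V k) where
  A e :=
    { carrier := {f | f.IsHomogeneous e}
      add_mem' := fun ha hb => ha.add hb
      zero_mem' := isHomogeneous_zero _ _ _
      neg_mem' := fun ha => ha.neg }
  cmp e := (homogeneousComponent e).toAddMonoidHom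
  cmp_mem e x := homogeneousComponent_isHomogeneous e x
  cmp_of_mem e x hx := homogeneousComponent_eq_self hx
  cmp_smul s t e x hx := hc_mul s x t e hx
  fin_sum x := ⟨_, sum_homogeneousComponent x⟩

/-- The grading of the graded free module `⊕_b S(-d b)`. -/
noncomputable def grF {m : ℕ} (d : Fin m → ℕ) : Gr V k (Fin m → MvPolynomial V k) where
  A e :=
    { carrier := {f | HomAt d f e}
      add_mem' := by
        intro f g hf hg b
        refine ⟨fun h => ?_, fun h => ?_⟩
        · rw [Pi.add_apply, (hf b).1 h, (hg b).1 h, add_zero]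
        · exact ((hf b).2 h).add ((hg b).2 h)
      zero_mem' := fun b => ⟨fun _ => rfl, fun _ => isHomogeneous_zero _ _ _⟩
      neg_mem' := by
        intro f hf b
        refine ⟨fun h => ?_, fun h => ?_⟩
        · rw [Pi.neg_apply, (hf b).1 h, neg_zero]
        · exact ((hf b).2 h).neg }
  cmp e :=
    { toFun := fun f b => if d b ≤ e then homogeneousComponent (e - d b) (f b) else 0
      map_zero' := by
        funext b
        simp
      map_add' := by
        intro f g
        funext b
        by_cases h : d b ≤ e <;> simp [h] }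
  cmp_mem e f b := by
    refine ⟨fun h => ?_, fun h => ?_⟩
    · change (if d b ≤ e then homogeneousComponent (e - d b) (f b) else 0) = 0
      rw [if_neg (by omega)]
    · change (if d b ≤ e then homogeneousComponent (e - d b) (f b) else 0).IsHomogeneous (e - d b)
      rw [if_pos h]
      exact homogeneousComponent_isHomogeneous _ _
  cmp_of_mem e f hf := by
    funext b
    change (if d b ≤ e then homogeneousComponent (e - d b) (f b) else 0) = f b
    split_ifs with h
    · exact homogeneousComponent_eq_self ((hf b).2 h)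
    · exact ((hf b).1 (by omega)).symm
  cmp_smul s t e f hf := by
    funext b
    change (if d b ≤ e then homogeneousComponent (e - d b) (s * f b) else 0) = _
    by_cases hb : d b ≤ t
    · have h1 := (hf b).2 hb
      by_cases ht : t ≤ e
      · rw [if_pos (by omega), if_pos ht, hc_mul s (f b) (t - d b) (e - d b) h1,
          if_pos (by omega), show e - d b - (t - d b) = e - t by omega]
        rfl
      · rw [if_neg ht]
        split_ifs with h2
        · rw [hc_mul s (f b) (t - d b) (e - d b) h1, if_neg (by omega)]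
          rfl
        · rfl
    · have h1 := (hf b).1 (by omega)
      rw [h1, mul_zero, map_zero, ite_self]
      split_ifs
      · rw [Pi.smul_apply, h1, smul_zero]
      · rfl
  fin_sum f := by
    refine ⟨(Finset.univ.sup fun b => d b + (f b).totalDegree) + 1, ?_⟩
    funext b
    have hb : d b + (f b).totalDegree ≤ Finset.univ.sup fun b => d b + (f b).totalDegree :=
      Finset.le_sup (f := fun b => d b + (f b).totalDegree) (Finset.mem_univ b)
    set K := (Finset.univ.sup fun b => d b + (f b).totalDegree) + 1 with hK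
    rw [Finset.sum_apply]
    change (∑ e ∈ Finset.range K,
      if d b ≤ e then homogeneousComponent (e - d b) (f b) else 0) = f b
    have h1 := sum_hc (f b) (K - d b) (by omega)
    conv_rhs => rw [← h1]
    rw [Finset.range_eq_Ico, Finset.range_eq_Ico]
    rw [← Finset.sum_subset (s₁ := Finset.Ico (d b) K)]
    · rw [Finset.sum_Ico_eq_sum_range, ← Finset.range_eq_Ico]
      apply Finset.sum_congr rfl
      intro i _
      rw [if_pos (by omega), show d b + i - d b = i by omega]
    · intro i hi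
      rw [Finset.mem_Ico] at *
      omega
    · intro i hi hn
      rw [Finset.mem_Ico] at *
      rw [if_neg (by omega)]

section maps

variable {M : Type} [AddCommGroup M] [Module (MvPolynomial V k) M]

lemma Gr.X_smul_mem (G : Gr V k M) (v : V) {e : ℕ} {x : M} (hx : x ∈ G.A e) :
    (X v : MvPolynomial V k) • x ∈ G.A (e + 1) := by
  have h := G.cmp_smul (X v) e (e + 1) x hx
  rw [if_pos (by omega), show e + 1 - e = 1 by omega,
    homogeneousComponent_eq_self (isHomogeneous_X _ v)] at h
  rw [← h]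
  exact G.cmp_mem _ _

lemma phi_sum {m : ℕ} (φ : (Fin m → MvPolynomial V k) →ₗ[MvPolynomial V k] M)
    (f : Fin m → MvPolynomial V k) : φ f = ∑ b, f b • φ (Pi.single b 1) := by
  rw [LinearMap.pi_apply_eq_sum_univ]
  apply Finset.sum_congr rfl
  intro b _
  congr 2
  funext j
  rw [Pi.single_apply]
  by_cases h : b = j
  · rw [if_pos h, if_pos h.symm]
  · rw [if_neg h, if_neg (fun h' => h h'.symm)]

lemma map_cmp {m : ℕ} (d : Fin m → ℕ) (G : Gr V k M)
    (φ : (Fin m → MvPolynomial V k) →ₗ[MvPolynomial V k] M)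
    (hφ : ∀ b, φ (Pi.single b 1) ∈ G.A (d b)) (f : Fin m → MvPolynomial V k) (e : ℕ) :
    G.cmp e (φ f) = φ ((grF d).cmp e f) := by
  rw [phi_sum φ f, phi_sum φ ((grF d).cmp e f), map_sum]
  apply Finset.sum_congr rfl
  intro b _
  rw [G.cmp_smul _ _ _ _ (hφ b)]
  change _ = (if d b ≤ e then homogeneousComponent (e - d b) (f b) else 0) • φ (Pi.single b 1)
  split_ifs
  · rfl
  · rw [zero_smul]

lemma map_mem {m : ℕ} (d : Fin m → ℕ) (G : Gr V k M)
    (φ : (Fin m → MvPolynomial V k) →ₗ[MvPolynomial V k] M)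
    (hφ : ∀ b, φ (Pi.single b 1) ∈ G.A (d b)) {f : Fin m → MvPolynomial V k} {e : ℕ}
    (hf : HomAt d f e) : φ f ∈ G.A e := by
  have h := map_cmp d G φ hφ f e
  rw [(grF d).cmp_of_mem e f hf] at h
  rw [← h]
  exact G.cmp_mem _ _

/-- The homogeneous elements of a submodule. -/
def piece (G : Gr V k M) (N : Submodule (MvPolynomial V k) M) (e : ℕ) : Set M :=
  {x | x ∈ N ∧ x ∈ G.A e}

lemma lift {m : ℕ} (d : Fin m → ℕ) (G : Gr V k M)
    (φ : (Fin m → MvPolynomial V k) →ₗ[MvPolynomial V k] M)
    (hφ : ∀ b, φ (Pi.single b 1) ∈ G.A (d b)) (N : Submodule (MvPolynomial V k) M)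
    (hN : LinearMap.range φ = N) {x : M} {e : ℕ} (hx : x ∈ piece G N e) :
    ∃ f, HomAt d f e ∧ φ f = x := by
  obtain ⟨hxN, hxA⟩ := hx
  rw [← hN] at hxN
  obtain ⟨f, rfl⟩ := hxN
  refine ⟨(grF d).cmp e f, (grF d).cmp_mem e f, ?_⟩
  rw [← map_cmp d G φ hφ f e, G.cmp_of_mem e _ hxA]

section koszul

variable [LinearOrder V]

lemma card_erase_of_mem' {τ : Finset V} {v : V} (hv : v ∈ τ) {p : ℕ} (hτ : τ.card = p + 1) :
    (τ.erase v).card = p := by
  rw [Finset.card_erase_of_mem hv, hτ]
  rfl

lemma kd_congr {c c' : Finset V → M} {p : ℕ} (h : ∀ σ, σ.card = p → c σ = c' σ) {τ : Finset V}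
    (hτ : τ.card = p + 1) : kd (k := k) c τ = kd (k := k) c' τ := by
  unfold kd
  apply Finset.sum_congr rfl
  intro v hv
  rw [h _ (card_erase_of_mem' hv hτ)]

lemma kd_map {M' : Type} [AddCommGroup M'] [Module (MvPolynomial V k) M']
    (φ : M →ₗ[MvPolynomial V k] M') (c : Finset V → M) (τ : Finset V) :
    kd (k := k) (fun σ => φ (c σ)) τ = φ (kd (k := k) c τ) := by
  unfold kd
  rw [map_sum]
  apply Finset.sum_congr rfl
  intro v _
  rw [map_zsmul, map_smul]

lemma kd_sub (c c' : Finset V → M) (τ : Finset V) :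
    kd (k := k) (fun σ => c σ - c' σ) τ = kd (k := k) c τ - kd (k := k) c' τ := by
  unfold kd
  rw [← Finset.sum_sub_distrib]
  apply Finset.sum_congr rfl
  intro v _
  rw [smul_sub, smul_sub]

lemma kd_mem (G : Gr V k M) (N : Submodule (MvPolynomial V k) M) {c : Finset V → M} {p e : ℕ}
    (h : ∀ σ, σ.card = p → c σ ∈ piece G N e) {τ : Finset V} (hτ : τ.card = p + 1) :
    kd (k := k) c τ ∈ piece G N (e + 1) := by
  constructor
  · apply Submodule.sum_mem
    intro v hv
    apply zsmul_mem
    exact N.smul_mem _ (h _ (card_erase_of_mem' hv hτ)).1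
  · apply AddSubgroup.sum_mem
    intro v hv
    apply zsmul_mem
    exact G.X_smul_mem v (h _ (card_erase_of_mem' hv hτ)).2

lemma sg_erase (v u : V) (τ : Finset V) (hv : v ∈ τ) (hu : u ∈ τ) (huv : u ≠ v) :
    sg v τ * sg u (τ.erase v) = -(sg u τ * sg v (τ.erase u)) := by
  have key : ∀ a b : V, a ∈ τ → b ∈ τ → a < b →
      sg a τ * sg b (τ.erase a) = -(sg b τ * sg a (τ.erase b)) := by
    intro a b ha hb hab
    have h1 : sg a (τ.erase b) = sg a τ := by
      unfold sg
      congr 2
      ext x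
      simp only [Finset.mem_filter, Finset.mem_erase]
      constructor
      · rintro ⟨⟨_, h⟩, h'⟩
        exact ⟨h, h'⟩
      · rintro ⟨h, h'⟩
        exact ⟨⟨(h'.trans hab).ne, h⟩, h'⟩
    have h2 : sg b τ = -sg b (τ.erase a) := by
      unfold sg
      have : (τ.filter (fun u => u < b)) =
          insert a ((τ.erase a).filter (fun u => u < b)) := by
        ext x
        simp only [Finset.mem_filter, Finset.mem_erase, Finset.mem_insert]
        constructor
        · rintro ⟨h, h'⟩
          by_cases hx : x = a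
          · exact Or.inl hx
          · exact Or.inr ⟨⟨hx, h⟩, h'⟩
        · rintro (h | ⟨⟨_, h⟩, h'⟩)
          · rw [h]
            exact ⟨ha, hab⟩
          · exact ⟨h, h'⟩
      rw [this, Finset.card_insert_of_notMem (by simp), pow_succ]
      ring
    rw [h1, h2]
    ring
  rcases lt_or_gt_of_ne huv with h | h
  · rw [key u v hu hv h, neg_neg]
  · exact key v u hv hu h

lemma kd_kd (c : Finset V → M) (τ : Finset V) :
    kd (k := k) (fun σ => kd (k := k) c σ) τ = 0 := by
  unfold kd
  have h1 : ∀ v ∈ τ, sg v τ • ((X v : MvPolynomial V k) •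
      ∑ u ∈ τ.erase v, sg u (τ.erase v) • ((X u : MvPolynomial V k) • c ((τ.erase v).erase u))) =
      ∑ u ∈ τ, if u ≠ v then (sg v τ * sg u (τ.erase v)) •
        (((X v : MvPolynomial V k) * X u) • c ((τ.erase v).erase u)) else 0 := by
    intro v hv
    rw [← Finset.sum_filter, Finset.smul_sum, Finset.smul_sum]
    have : τ.filter (fun u => u ≠ v) = τ.erase v := by
      ext x
      simp [and_comm]
    rw [this]
    apply Finset.sum_congr rfl
    intro u _
    rw [mul_smul, mul_smul, smul_comm (X v : MvPolynomial V k) (sg u (τ.erase v))]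
  rw [Finset.sum_congr rfl h1, ← Finset.sum_product']
  rw [← Finset.sum_filter]
  apply Finset.sum_involution (fun x _ => (x.2, x.1))
  · rintro ⟨v, u⟩ hx
    simp only [Finset.mem_filter, Finset.mem_product] at hx
    obtain ⟨⟨hv, hu⟩, huv⟩ := hx
    simp only
    rw [sg_erase v u τ hv hu huv, Finset.erase_right_comm, mul_comm (X v : MvPolynomial V k) (X u),
      neg_smul, neg_add_cancel]
  · rintro ⟨v, u⟩ hx _ h
    simp only [Finset.mem_filter, Finset.mem_product] at hx
    exact hx.2 (Prod.mk.inj h).1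
  · rintro ⟨v, u⟩ hx
    simp only [Finset.mem_filter, Finset.mem_product] at hx ⊢
    exact ⟨⟨hx.1.2, hx.1.1⟩, hx.2.symm⟩
  · rintro ⟨v, u⟩ _
    rfl

/-- Descent of Koszul exactness from the kernel to the image. -/
lemma stepC {m : ℕ} (d : Fin m → ℕ) (G : Gr V k M)
    (φ : (Fin m → MvPolynomial V k) →ₗ[MvPolynomial V k] M)
    (hφ : ∀ b, φ (Pi.single b 1) ∈ G.A (d b)) (N : Submodule (MvPolynomial V k) M)
    (hN : LinearMap.range φ = N) (p e : ℕ)
    (hF : KE (V := V) k (fun e => {f : Fin m → MvPolynomial V k | HomAt d f e}) p e)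
    (hK : KE (V := V) k (piece (grF d) (LinearMap.ker φ)) (p + 1) (e + 1)) :
    KE (V := V) k (piece G N) p e := by
  classical
  intro c hc hcc
  have hl : ∀ τ : Finset V, ∃ f : Fin m → MvPolynomial V k,
      τ.card = p → (HomAt d f e ∧ φ f = c τ) := by
    intro τ
    by_cases h : τ.card = p
    · obtain ⟨f, hf⟩ := lift d G φ hφ N hN (hc τ h)
      exact ⟨f, fun _ => hf⟩
    · exact ⟨0, fun h' => absurd h' h⟩
  choose c' hc' using hl
  have hφc : ∀ τ : Finset V, τ.card = p + 1 → φ (kd (k := k) c' τ) = 0 := by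
    intro τ hτ
    rw [← kd_map φ c' τ, kd_congr (c' := c) (fun σ hσ => (hc' σ hσ).2) hτ]
    exact hcc τ hτ
  have hmem : ∀ τ : Finset V, τ.card = p + 1 →
      kd (k := k) c' τ ∈ piece (grF d) (LinearMap.ker φ) (e + 1) := by
    intro τ hτ
    refine ⟨LinearMap.mem_ker.2 (hφc τ hτ), ?_⟩
    exact (kd_mem (grF d) ⊤ (c := c') (p := p) (e := e)
      (fun σ hσ => ⟨Submodule.mem_top, (hc' σ hσ).1⟩) hτ).2
  obtain ⟨z, hz, hz2⟩ := hK (fun τ => kd (k := k) c' τ) hmem (fun τ _ => kd_kd c' τ)
  obtain ⟨y, hy, hy2⟩ := hF (fun τ => c' τ - z τ)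
    (fun τ hτ => (grF d).A e |>.sub_mem (hc' τ hτ).1 (hz τ (by omega)).2)
    (fun τ hτ => by rw [kd_sub, hz2 τ hτ, sub_self])
  refine ⟨fun τ => φ (y τ), fun τ hτ => ?_, fun τ hτ => ?_⟩
  · refine ⟨?_, map_mem d G φ hφ (hy τ hτ)⟩
    rw [← hN]
    exact LinearMap.mem_range_self φ _
  · rw [kd_map, hy2 τ hτ, map_sub, (hc' τ hτ).2, LinearMap.mem_ker.1 (hz τ (by omega)).1, sub_zero]

/-- Koszul exactness passes to the kernel. -/
lemma stepB {m : ℕ} (d : Fin m → ℕ) (G : Gr V k M)
    (φ : (Fin m → MvPolynomial V k) →ₗ[MvPolynomial V k] M)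
    (hφ : ∀ b, φ (Pi.single b 1) ∈ G.A (d b)) (N : Submodule (MvPolynomial V k) M)
    (hN : LinearMap.range φ = N) (p e : ℕ) (he : 2 ≤ e)
    (hF : KE (V := V) k (fun e => {f : Fin m → MvPolynomial V k | HomAt d f e}) p e)
    (hK : ∀ p', KE (V := V) k (piece G N) p' (e - 1)) :
    KE (V := V) k (piece (grF d) (LinearMap.ker φ)) p e := by
  classical
  intro c hc hcc
  obtain ⟨y, hy, hy2⟩ := hF c (fun τ hτ => (hc τ hτ).2) hcc
  rcases p with _ | p
  · exact ⟨y, fun τ hτ => absurd hτ (by omega), hy2⟩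
  · have hφy : ∀ τ : Finset V, τ.card = p → φ (y τ) ∈ piece G N (e - 1) := by
      intro τ hτ
      refine ⟨?_, map_mem d G φ hφ (hy τ (by omega))⟩
      rw [← hN]
      exact LinearMap.mem_range_self φ _
    obtain ⟨u, hu, hu2⟩ := hK p (fun τ => φ (y τ)) hφy (fun τ hτ => by
      rw [kd_map, hy2 τ hτ]
      exact LinearMap.mem_ker.1 (hc τ hτ).1)
    have hl : ∀ τ : Finset V, ∃ f : Fin m → MvPolynomial V k,
        τ.card + 1 = p → (HomAt d f (e - 1 - 1) ∧ φ f = u τ) := by
      intro τ
      by_cases h : τ.card + 1 = p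
      · obtain ⟨f, hf⟩ := lift d G φ hφ N hN (hu τ h)
        exact ⟨f, fun _ => hf⟩
      · exact ⟨0, fun h' => absurd h' h⟩
    choose u' hu' using hl
    -- the kd of `u'` on sets of size `p`
    have hku : ∀ τ : Finset V, τ.card = p → φ (kd (k := k) u' τ) = φ (y τ) := by
      intro τ hτ
      rw [← kd_map φ u' τ, ← hu2 τ hτ]
      rcases p with _ | p
      · rw [Finset.card_eq_zero] at hτ
        subst hτ
        simp [kd]
      · exact kd_congr (fun σ hσ => (hu' σ (by omega)).2) hτ
    refine ⟨fun τ => y τ - kd (k := k) u' τ, fun τ hτ => ?_, fun τ hτ => ?_⟩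
    · have hτ' : τ.card = p := by omega
      refine ⟨?_, ?_⟩
      · rw [LinearMap.mem_ker, map_sub, hku τ hτ', sub_self]
      · apply AddSubgroup.sub_mem
        · exact hy τ hτ
        · rcases p with _ | p
          · rw [Finset.card_eq_zero] at hτ'
            subst hτ'
            have : kd (k := k) u' ∅ = 0 := by simp [kd]
            rw [this]
            exact AddSubgroup.zero_mem _
          · have := (kd_mem (grF d) ⊤ (c := u') (p := p) (e := e - 1 - 1)
              (fun σ hσ => ⟨Submodule.mem_top, (hu' σ (by omega)).1⟩) hτ').2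
            rwa [show e - 1 - 1 + 1 = e - 1 by omega] at this
    · rw [kd_sub, kd_kd, sub_zero, hy2 τ hτ]

lemma cc_ker {m m' : ℕ}
    (ψ : (Fin m → MvPolynomial V k) →ₗ[MvPolynomial V k] (Fin m' → MvPolynomial V k))
    (h : ∀ b b', constantCoeff (ψ (Pi.single b 1) b') = 0) {f : Fin m' → MvPolynomial V k}
    (hf : f ∈ LinearMap.range ψ) (b' : Fin m') : constantCoeff (f b') = 0 := by
  obtain ⟨g, rfl⟩ := hf
  rw [phi_sum ψ g, Finset.sum_apply, map_sum]
  apply Finset.sum_eq_zero
  intro b _
  rw [Pi.smul_apply, smul_eq_mul, map_mul, h, mul_zero]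

lemma boundLemma [Fintype V] {m : ℕ} (d : Fin m → ℕ) (G : Gr V k M)
    (φ : (Fin m → MvPolynomial V k) →ₗ[MvPolynomial V k] M)
    (hφ : ∀ b, φ (Pi.single b 1) ∈ G.A (d b)) (N : Submodule (MvPolynomial V k) M)
    (hN : LinearMap.range φ = N) (r : ℕ)
    (hK : ∀ p e, r < e → KE (V := V) k (piece G N) p e)
    (hmin : ∀ f ∈ LinearMap.ker φ, ∀ b, constantCoeff (f b) = 0) (b : Fin m) : d b ≤ r := by
  classical
  by_contra hlt
  have hN' : ∀ f, φ f ∈ N := fun f => by rw [← hN]; exact LinearMap.mem_range_self φ f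
  obtain ⟨y, hy, hy2⟩ := hK (Fintype.card V) (d b) (by omega) (fun _ => φ (Pi.single b 1))
    (fun _ _ => ⟨hN' _, hφ b⟩) (fun τ hτ => by
      have := Finset.card_le_univ τ
      omega)
  have h1 := hy2 Finset.univ Finset.card_univ
  have hl : ∀ v : V, ∃ f : Fin m → MvPolynomial V k, φ f = y (Finset.univ.erase v) := by
    intro v
    have h2 := (hy (Finset.univ.erase v) (by
      rw [Finset.card_erase_of_mem (Finset.mem_univ v), Finset.card_univ]
      have : 0 < Fintype.card V := Fintype.card_pos_iff.2 ⟨v⟩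
      omega)).1
    rw [← hN] at h2
    exact h2
  choose f hf using hl
  have h3 : (Pi.single b 1 : Fin m → MvPolynomial V k) -
      ∑ v : V, sg v Finset.univ • ((X v : MvPolynomial V k) • f v) ∈ LinearMap.ker φ := by
    rw [LinearMap.mem_ker, map_sub, map_sum]
    have h4 : ∀ v ∈ Finset.univ, φ (sg v Finset.univ • ((X v : MvPolynomial V k) • f v)) =
        sg v Finset.univ • ((X v : MvPolynomial V k) • y (Finset.univ.erase v)) := by
      intro v _
      rw [map_zsmul, map_smul, hf]
    rw [Finset.sum_congr rfl h4]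
    unfold kd at h1
    rw [h1, sub_self]
  have h5 := hmin _ h3 b
  rw [Pi.sub_apply, Pi.single_eq_same, map_sub, map_one, Finset.sum_apply, map_sum] at h5
  rw [Finset.sum_eq_zero] at h5
  · rw [sub_zero] at h5
    exact one_ne_zero h5
  · intro v _
    rw [Pi.smul_apply, Pi.smul_apply, map_zsmul, smul_eq_mul, map_mul, constantCoeff_X, zero_mul,
      smul_zero]

end koszul

end maps

section levels

variable {J : Ideal (MvPolynomial V k)}

/-- The kernels of a resolution. -/
noncomputable def Ker (F : GFR J) : ∀ j, Submodule (MvPolynomial V k) (Fin (F.n j) → MvPolynomial V k)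
  | 0 => LinearMap.ker F.ε
  | j + 1 => LinearMap.ker (F.d j)

lemma range_d (F : GFR J) (j : ℕ) : LinearMap.range (F.d j) = Ker F j := by
  cases j with
  | zero => exact F.exact_zero.symm
  | succ j => exact (F.exact_succ j).symm

variable [LinearOrder V]

lemma levels_of_bound [Fintype V]
    (HFree : ∀ (m : ℕ) (d : Fin m → ℕ) (r : ℕ), (∀ b, d b ≤ r) → ∀ p e : ℕ, r < e →
      KE (V := V) k (fun e => {f : Fin m → MvPolynomial V k | HomAt d f e}) p e)
    (F : GFR J) (r : ℕ) (hF : ∀ i b, F.deg i b ≤ r + i) (n : ℕ) :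
    ∀ p, Fintype.card V + 1 ≤ p + n →
      (∀ e, r < e → KE (V := V) k (piece grS J) p e) ∧
      (∀ j e, r + j + 1 < e → KE (V := V) k (piece (grF (F.deg j)) (Ker F j)) p e) := by
  induction n with
  | zero =>
    intro p hp
    have hno : ∀ τ : Finset V, τ.card ≠ p := by
      intro τ hτ
      have := Finset.card_le_univ τ
      omega
    refine ⟨fun e _ => ?_, fun j e _ => ?_⟩
    · intro c _ _
      exact ⟨fun _ => 0, fun τ _ => ⟨J.zero_mem, AddSubgroup.zero_mem _⟩,
        fun τ hτ => absurd hτ (hno τ)⟩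
    · intro c _ _
      exact ⟨fun _ => 0, fun τ _ => ⟨Submodule.zero_mem _, AddSubgroup.zero_mem _⟩,
        fun τ hτ => absurd hτ (hno τ)⟩
  | succ n ih =>
    intro p hp
    obtain ⟨_, ih2⟩ := ih (p + 1) (by omega)
    refine ⟨fun e he => ?_, fun j e he => ?_⟩
    · exact stepC (F.deg 0) grS F.ε F.homog_ε J F.range_ε p e
        (HFree _ _ r (fun b => hF 0 b) p e he) (ih2 0 (e + 1) (by omega))
    · exact stepC (F.deg (j + 1)) (grF (F.deg j)) (F.d j) (F.homog_d j) (Ker F j) (range_d F j) p e
        (HFree _ _ (r + (j + 1)) (fun b => hF (j + 1) b) p e (by omega))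
        (ih2 (j + 1) (e + 1) (by omega))

end levels

end Resol

open Resol in
theorem KE_of_bound {V : Type} [Fintype V] [LinearOrder V] {k : Type} [Field k]
    (HFree : ∀ (m : ℕ) (d : Fin m → ℕ) (r : ℕ), (∀ b, d b ≤ r) → ∀ p e : ℕ, r < e →
      KE (V := V) k (fun e => {f : Fin m → MvPolynomial V k | HomAt d f e}) p e)
    (J : Ideal (MvPolynomial V k)) (hJ : ∀ f ∈ J, ∀ e, homogeneousComponent e f ∈ J)
    (F : GFR J) (r : ℕ) (hF : ∀ i b, F.deg i b ≤ r + i) (p e : ℕ) (he : r < e) :
    KE (V := V) k (homPart J) p e :=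
  (levels_of_bound HFree F r hF (Fintype.card V + 1) p (by omega)).1 e he

open Resol in
theorem bound_of_KE {V : Type} [Fintype V] [LinearOrder V] {k : Type} [Field k]
    (HFree : ∀ (m : ℕ) (d : Fin m → ℕ) (r : ℕ), (∀ b, d b ≤ r) → ∀ p e : ℕ, r < e →
      KE (V := V) k (fun e => {f : Fin m → MvPolynomial V k | HomAt d f e}) p e)
    (J : Ideal (MvPolynomial V k)) (hJ : ∀ f ∈ J, ∀ e, homogeneousComponent e f ∈ J)
    (r : ℕ) (h : ∀ p e : ℕ, r < e → KE (V := V) k (homPart J) p e)
    (F : GFR J) (hF : F.IsMinimal) (i : ℕ) (b : Fin (F.n i)) : F.deg i b ≤ r + i := by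
  have key : ∀ j, (∀ b, F.deg j b ≤ r + j) ∧
      ∀ p e, r + j + 1 < e → KE (V := V) k (piece (grF (F.deg j)) (Ker F j)) p e := by
    intro j
    induction j with
    | zero =>
      have h1 : ∀ b, F.deg 0 b ≤ r :=
        boundLemma (F.deg 0) grS F.ε F.homog_ε J F.range_ε r h (fun f hf b' => by
          rw [F.exact_zero] at hf
          exact cc_ker (F.d 0) (hF 0) hf b')
      refine ⟨h1, fun p e he => ?_⟩
      exact stepB (F.deg 0) grS F.ε F.homog_ε J F.range_ε p e (by omega)
        (HFree _ _ r h1 p e (by omega)) (fun p' => h p' (e - 1) (by omega))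
    | succ j ih =>
      obtain ⟨_, ih2⟩ := ih
      have h1 : ∀ b, F.deg (j + 1) b ≤ r + j + 1 :=
        boundLemma (F.deg (j + 1)) (grF (F.deg j)) (F.d j) (F.homog_d j) (Ker F j) (range_d F j)
          (r + j + 1) ih2 (fun f hf b' => by
            rw [F.exact_succ] at hf
            exact cc_ker (F.d (j + 1)) (hF (j + 1)) hf b')
      refine ⟨h1, fun p e he => ?_⟩
      exact stepB (F.deg (j + 1)) (grF (F.deg j)) (F.d j) (F.homog_d j) (Ker F j) (range_d F j) p e
        (by omega) (HFree _ _ (r + j + 1) h1 p e (by omega))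
        (fun p' => ih2 p' (e - 1) (by omega))
  exact (key i).1 b

namespace Resol

variable {V : Type} {k : Type} [Field k] {M : Type} [AddCommGroup M]
  [Module (MvPolynomial V k) M]

/-- `g` is a family of homogeneous generators of `N`, of degrees `d`. -/
def IsGen (G : Gr V k M) (N : Submodule (MvPolynomial V k) M) {m : ℕ} (g : Fin m → M)
    (d : Fin m → ℕ) : Prop :=
  (∀ b, g b ∈ N) ∧ (∀ b, g b ∈ G.A (d b)) ∧ Submodule.span (MvPolynomial V k) (Set.range g) = N

lemma exists_gens (G : Gr V k M) (N : Submodule (MvPolynomial V k) M)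
    (hN : ∀ x ∈ N, ∀ e, G.cmp e x ∈ N) (hfg : N.FG) :
    ∃ (m : ℕ) (g : Fin m → M) (d : Fin m → ℕ), IsGen G N g d := by
  classical
  obtain ⟨T, hT⟩ := hfg
  choose K hK using G.fin_sum
  have hTN : ∀ x ∈ T, x ∈ N := fun x hx => by
    rw [← hT]
    exact Submodule.subset_span hx
  let ι := Σ x : T, Fin (K x)
  let E : ι ≃ Fin (Fintype.card ι) := Fintype.equivFin ι
  refine ⟨Fintype.card ι, fun b => G.cmp (E.symm b).2 (E.symm b).1,
    fun b => ((E.symm b).2 : ℕ), fun b => hN _ (hTN _ (E.symm b).1.2) _,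
    fun b => G.cmp_mem _ _, le_antisymm ?_ ?_⟩
  · rw [Submodule.span_le]
    rintro _ ⟨b, rfl⟩
    exact hN _ (hTN _ (E.symm b).1.2) _
  · conv_lhs => rw [← hT]
    rw [Submodule.span_le]
    intro x hx
    rw [← hK x]
    apply Submodule.sum_mem
    intro e he
    rw [Finset.mem_range] at he
    apply Submodule.subset_span
    refine ⟨E ⟨⟨x, hx⟩, ⟨e, he⟩⟩, ?_⟩
    have h := E.symm_apply_apply ⟨⟨x, hx⟩, ⟨e, he⟩⟩
    change G.cmp (((E.symm (E ⟨⟨x, hx⟩, ⟨e, he⟩⟩)).2 : Fin _) : ℕ)
      ((E.symm (E ⟨⟨x, hx⟩, ⟨e, he⟩⟩)).1 : M) = _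
    rw [h]

lemma exists_min_gens (G : Gr V k M) (N : Submodule (MvPolynomial V k) M)
    (hN : ∀ x ∈ N, ∀ e, G.cmp e x ∈ N) (hfg : N.FG) :
    ∃ (m : ℕ) (g : Fin m → M) (d : Fin m → ℕ), IsGen G N g d ∧
      ∀ s : Fin m → MvPolynomial V k, ∑ b, s b • g b = 0 → ∀ b, constantCoeff (s b) = 0 := by
  classical
  have hex := exists_gens G N hN hfg
  obtain ⟨g, d, hg⟩ := Nat.find_spec hex
  have hminm := fun n => Nat.find_min hex (m := n)
  generalize Nat.find hex = m at g d hg hminm
  refine ⟨m, g, d, hg, ?_⟩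
  intro s hs b0
  by_contra hne
  obtain ⟨hg1, hg2, hg3⟩ := hg
  rcases m with _ | m
  · exact b0.elim0
  -- the component of degree `d b0`
  set s' : Fin (m + 1) → MvPolynomial V k := fun b =>
    if d b ≤ d b0 then homogeneousComponent (d b0 - d b) (s b) else 0 with hs'
  have h1 : ∑ b, s' b • g b = 0 := by
    have h2 : G.cmp (d b0) (∑ b, s b • g b) = 0 := by rw [hs, map_zero]
    rw [map_sum] at h2
    rw [← h2]
    apply Finset.sum_congr rfl
    intro b _
    rw [G.cmp_smul _ _ _ _ (hg2 b)]
    simp only [hs']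
    split_ifs
    · rfl
    · rw [zero_smul]
  have hsb0 : s' b0 = C (coeff 0 (s b0)) := by
    simp only [hs']
    rw [if_pos le_rfl, Nat.sub_self, homogeneousComponent_zero]
  rw [Fin.sum_univ_succAbove _ b0, hsb0] at h1
  have ha : coeff 0 (s b0) ≠ 0 := by
    rw [constantCoeff_eq] at hne
    exact hne
  have hb0 : g b0 ∈ Submodule.span (MvPolynomial V k) (Set.range (g ∘ b0.succAbove)) := by
    have h3 : g b0 = -((C (coeff 0 (s b0))⁻¹ : MvPolynomial V k) •
        ∑ j, s' (b0.succAbove j) • g (b0.succAbove j)) := by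
      have h4 : ∑ j, s' (b0.succAbove j) • g (b0.succAbove j) =
          -((C (coeff 0 (s b0)) : MvPolynomial V k) • g b0) := by
        rw [eq_neg_iff_add_eq_zero, add_comm]
        exact h1
      rw [h4, smul_neg, neg_neg, smul_smul, ← C_mul, inv_mul_cancel₀ ha, C_1, one_smul]
    rw [h3]
    apply Submodule.neg_mem
    apply Submodule.smul_mem
    apply Submodule.sum_mem
    intro j _
    apply Submodule.smul_mem
    exact Submodule.subset_span ⟨j, rfl⟩
  apply hminm m (Nat.lt_succ_self m)
  refine ⟨g ∘ b0.succAbove, d ∘ b0.succAbove, fun b => hg1 _, fun b => hg2 _, le_antisymm ?_ ?_⟩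
  · rw [Submodule.span_le]
    rintro _ ⟨b, rfl⟩
    exact hg1 _
  · conv_lhs => rw [← hg3]
    rw [Submodule.span_le]
    rintro _ ⟨b, rfl⟩
    by_cases hb : b = b0
    · rw [hb]
      exact hb0
    · obtain ⟨j, rfl⟩ := Fin.exists_succAbove_eq hb
      exact Submodule.subset_span ⟨j, rfl⟩

/-- A level of a resolution under construction. -/
structure Lev (V k : Type) [Field k] where
  m : ℕ
  deg : Fin m → ℕ
  N : Submodule (MvPolynomial V k) (Fin m → MvPolynomial V k)
  hN : ∀ f ∈ N, ∀ e, (grF deg).cmp e f ∈ N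

lemma exists_step (G : Gr V k M) (N : Submodule (MvPolynomial V k) M)
    (hN : ∀ x ∈ N, ∀ e, G.cmp e x ∈ N) (hfg : N.FG) :
    ∃ (L : Lev V k) (φ : (Fin L.m → MvPolynomial V k) →ₗ[MvPolynomial V k] M),
      (∀ b, φ (Pi.single b 1) ∈ G.A (L.deg b)) ∧ LinearMap.range φ = N ∧
      LinearMap.ker φ = L.N ∧ ∀ f ∈ L.N, ∀ b, constantCoeff (f b) = 0 := by
  classical
  obtain ⟨m, g, d, ⟨_, hg2, hg3⟩, hmin⟩ := exists_min_gens G N hN hfg
  set φ : (Fin m → MvPolynomial V k) →ₗ[MvPolynomial V k] M :=
    Fintype.linearCombination (MvPolynomial V k) g with hφ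
  have h1 : ∀ b, φ (Pi.single b 1) ∈ G.A (d b) := by
    intro b
    rw [hφ, Fintype.linearCombination_apply_single, one_smul]
    exact hg2 b
  refine ⟨⟨m, d, LinearMap.ker φ, ?_⟩, φ, h1, ?_, rfl, ?_⟩
  · intro f hf e
    rw [LinearMap.mem_ker] at *
    rw [← map_cmp d G φ h1 f e, hf, map_zero]
  · exact (Fintype.range_linearCombination (MvPolynomial V k) g).trans hg3
  · intro f hf b
    have hf' : φ f = 0 := LinearMap.mem_ker.1 hf
    rw [hφ, Fintype.linearCombination_apply] at hf'
    exact hmin f hf' b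

variable [Finite V]

lemma lev_fg (L : Lev V k) : L.N.FG := by
  have : IsNoetherian (MvPolynomial V k) (Fin L.m → MvPolynomial V k) := inferInstance
  exact IsNoetherian.noetherian L.N

/-- The next level. -/
noncomputable def Lev.next (L : Lev V k) : Lev V k :=
  (exists_step (grF L.deg) L.N L.hN (lev_fg L)).choose

/-- The map from the next level. -/
noncomputable def Lev.map (L : Lev V k) :
    (Fin L.next.m → MvPolynomial V k) →ₗ[MvPolynomial V k] (Fin L.m → MvPolynomial V k) :=
  (exists_step (grF L.deg) L.N L.hN (lev_fg L)).choose_spec.choose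

lemma Lev.map_spec (L : Lev V k) :
    (∀ b, L.map (Pi.single b 1) ∈ (grF L.deg).A (L.next.deg b)) ∧ LinearMap.range L.map = L.N ∧
      LinearMap.ker L.map = L.next.N ∧ ∀ f ∈ L.next.N, ∀ b, constantCoeff (f b) = 0 :=
  (exists_step (grF L.deg) L.N L.hN (lev_fg L)).choose_spec.choose_spec

/-- The sequence of levels. -/
noncomputable def lseq (L : Lev V k) : ℕ → Lev V k
  | 0 => L
  | n + 1 => (lseq L n).next

end Resol

open Resol in
theorem exists_minimal {V : Type} [Fintype V] [LinearOrder V] {k : Type} [Field k]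
    (J : Ideal (MvPolynomial V k))
    (hJ : ∀ f ∈ J, ∀ e, homogeneousComponent e f ∈ J) : ∃ F : GFR J, F.IsMinimal := by
  obtain ⟨L, ε, h1, h2, h3, h4⟩ := exists_step (V := V) (k := k) grS J hJ
    (IsNoetherian.noetherian J)
  refine ⟨{ n := fun i => (lseq L i).m
            deg := fun i => (lseq L i).deg
            d := fun i => (lseq L i).map
            ε := ε
            homog_ε := h1
            homog_d := fun i => (lseq L i).map_spec.1
            range_ε := h2
            exact_zero := h3.trans (lseq L 0).map_spec.2.1.symm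
            exact_succ := fun i =>
              (lseq L i).map_spec.2.2.1.trans (lseq L (i + 1)).map_spec.2.1.symm }, ?_⟩
  intro i b b'
  have hr : ∀ i, ∀ f ∈ (lseq L i).N, ∀ b, constantCoeff (f b) = 0 := by
    intro i
    cases i with
    | zero => exact h4
    | succ i => exact (lseq L i).map_spec.2.2.2
  apply hr i
  rw [← (lseq L i).map_spec.2.1]
  exact LinearMap.mem_range_self _ _

end Pool.Agent.Lib.MP_081cfe_al
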