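import Pool.Agent.Lib.MP_081cfe_al.Statement
import Pool.Agent.Lib.MP_081cfe_al.Mode
import Pool.Agent.Lib.MP_081cfe_al.Koszul
import Pool.Agent.Lib.MP_081cfe_al.Resol

/-!
# The regularity of the powers of the edge ideal of a gap-free graph
-/

namespace Pool.Agent.Lib.MP_081cfe_al

open MvPolynomial

section Degrees

variable {V : Type} {k : Type} [Field k] {J : Ideal (MvPolynomial V k)}

theorem cc_range {m m' : ℕ}
    (ψ : (Fin m → MvPolynomial V k) →ₗ[MvPolynomial V k] (Fin m' → MvPolynomial V k))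
    (h : ∀ b b', constantCoeff (ψ (Pi.single b 1) b') = 0) {f : Fin m' → MvPolynomial V k}
    (hf : f ∈ LinearMap.range ψ) (b' : Fin m') : constantCoeff (f b') = 0 := by
  obtain ⟨g, rfl⟩ := hf
  have hg : g = ∑ b, g b • (Pi.single b 1 : Fin m → MvPolynomial V k) := by
    funext c
    simp [Finset.sum_apply, Pi.single_apply]
  rw [hg, map_sum, Finset.sum_apply, map_sum]
  apply Finset.sum_eq_zero
  intro b _
  rw [map_smul, Pi.smul_apply, smul_eq_mul, map_mul, h, mul_zero]

/-- If all nonzero homogeneous elements of `J` have degree at least `d`, then the basis elements of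
the `i`-th module of a minimal resolution have degree at least `d + i`. -/
theorem deg_ge (F : GFR J) (hF : F.IsMinimal) (d : ℕ)
    (h : ∀ f ∈ J, ∀ e, e < d → f.IsHomogeneous e → f = 0) (i : ℕ) :
    ∀ b, d + i ≤ F.deg i b := by
  induction i with
  | zero =>
    intro b
    by_contra hlt
    have h1 : F.ε (Pi.single b 1) ∈ J := F.range_ε.le ⟨_, rfl⟩
    have h2 := h _ h1 _ (by omega) (F.homog_ε b)
    have h3 : (Pi.single b 1 : Fin (F.n 0) → MvPolynomial V k) ∈ LinearMap.range (F.d 0) := by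
      rw [← F.exact_zero]; exact h2
    have h4 := cc_range (F.d 0) (hF 0) h3 b
    rw [Pi.single_eq_same, map_one] at h4
    exact one_ne_zero h4
  | succ i ih =>
    intro b
    have hne : F.d i (Pi.single b 1) ≠ 0 := by
      intro h2
      have h3 : (Pi.single b 1 : Fin (F.n (i + 1)) → MvPolynomial V k) ∈
          LinearMap.range (F.d (i + 1)) := by
        rw [← F.exact_succ]; exact h2
      have h4 := cc_range (F.d (i + 1)) (hF (i + 1)) h3 b
      rw [Pi.single_eq_same, map_one] at h4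
      exact one_ne_zero h4
    have hex : ∃ b', F.d i (Pi.single b 1) b' ≠ 0 := by
      by_contra hcon
      push Not at hcon
      exact hne (funext hcon)
    obtain ⟨b', hb'⟩ := hex
    obtain ⟨h1, h2⟩ := F.homog_d i b b'
    have h3 : F.deg i b' ≤ F.deg (i + 1) b := by
      by_contra hlt
      exact hb' (h1 (by omega))
    have h4 := h2 h3
    have h5 := ih b'
    by_contra hlt
    have h6 : F.deg (i + 1) b - F.deg i b' = 0 := by omega
    rw [h6] at h4
    have h7 := (totalDegree_eq_zero_iff_eq_C.1 (h4.totalDegree hb'))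
    have h8 := hF i b b'
    rw [constantCoeff_eq] at h8
    rw [h8, map_zero] at h7
    exact hb' h7

theorem reg_le_iff_forall {t : ℕ} :
    reg J ≤ t ↔ ∀ F : GFR J, F.IsMinimal → ∀ i b, F.deg i b ≤ t + i := by
  unfold reg GFR.reg
  simp only [iSup_le_iff, Nat.cast_le]
  constructor
  · intro h F hF i b
    have := h F hF i b
    have := deg_ge F hF 0 (by omega) i b
    omega
  · intro h F hF i b
    have := h F hF i b
    omega

end Degrees

section Main

variable {V : Type} [Fintype V] [LinearOrder V] {k : Type} [Field k]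

theorem hom_of_isMono {J : Ideal (MvPolynomial V k)} (hJ : IsMono J) :
    ∀ f ∈ J, ∀ e, homogeneousComponent e f ∈ J := by
  intro f hf e
  refine Ksz.mem_of_coeff fun m hm => ?_
  rw [coeff_homogeneousComponent]
  split_ifs
  · exact Ksz.coeff_eq_zero_of_mem hJ hf hm
  · rfl

theorem hfree (m : ℕ) (d : Fin m → ℕ) (r : ℕ) (hd : ∀ b, d b ≤ r) (p e : ℕ) (he : r < e) :
    KE (V := V) k (fun e => {f : Fin m → MvPolynomial V k | HomAt d f e}) p e :=
  KE_free d r hd p e he

/-- The regularity of a monomial ideal in terms of simplicial complexes. -/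
theorem reg_le_iff_van {J : Ideal (MvPolynomial V k)} (hJ : IsMono J) {t : ℕ} (ht : 1 ≤ t) :
    reg J ≤ t ↔ ∀ (w : V →₀ ℕ) (U : Finset V), w.support ⊆ U →
      Van k (DU J w U) (t - w.degree) := by
  rw [reg_le_iff_forall]
  constructor
  · intro h w U hU
    obtain ⟨F, hF⟩ := exists_minimal J (hom_of_isMono hJ)
    exact van_of_KE_ideal J hJ t ht
      (fun p e he => KE_of_bound hfree J (hom_of_isMono hJ) F t (h F hF) p e he) w U hU
  · intro h F hF i b
    exact bound_of_KE hfree J (hom_of_isMono hJ) t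
      (fun p e he => KE_ideal_of_van J hJ t h p e he) F hF i b

/-- All minimal graded free resolutions of a monomial ideal have the same regularity. -/
theorem reg_eq {J : Ideal (MvPolynomial V k)} (hJ : IsMono J) (F : GFR J) (hF : F.IsMinimal) :
    reg J = F.reg := by
  apply le_antisymm
  · unfold reg
    refine iSup₂_le fun F' hF' => ?_
    by_cases htop : F.reg = ⊤
    · rw [htop]; exact le_top
    obtain ⟨n, hn⟩ := ENat.ne_top_iff_exists.1 htop
    have h1 : ∀ i b, F.deg i b ≤ n + i := by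
      intro i b
      have h2 : ((F.deg i b - i : ℕ) : ℕ∞) ≤ F.reg :=
        le_iSup₂ (f := fun (i : ℕ) (b : Fin (F.n i)) => ((F.deg i b - i : ℕ) : ℕ∞)) i b
      rw [← hn] at h2
      have h3 : F.deg i b - i ≤ n := by exact_mod_cast h2
      omega
    have h2 : ∀ i b, F'.deg i b ≤ n + i := fun i b =>
      bound_of_KE hfree J (hom_of_isMono hJ) n
        (fun p e he => KE_of_bound hfree J (hom_of_isMono hJ) F n h1 p e he) F' hF' i b
    rw [← hn]
    refine iSup₂_le fun i b => ?_
    have := h2 i b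
    have h3 : F'.deg i b - i ≤ n := by omega
    exact_mod_cast h3
  · unfold reg
    exact le_iSup₂ (f := fun (F : GFR J) (_ : F.IsMinimal) => F.reg) F hF

theorem degree_EV (G : SimpleGraph V) (q : ℕ) : ∀ m ∈ Match.EV G q, m.degree = 2 * q := by
  induction q with
  | zero =>
    intro m hm
    have : m = 0 := hm
    rw [this]; simp
  | succ q ih =>
    rintro m ⟨m', hm', a, b, _, rfl⟩
    rw [map_add, map_add, ih m' hm', Finsupp.degree_single, Finsupp.degree_single]
    ring

theorem two_mul_le_reg {G : SimpleGraph V} {a b : V} (hab : G.Adj a b) (q : ℕ) :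
    ((2 * q : ℕ) : ℕ∞) ≤ reg (edgeIdeal k G ^ q) := by
  obtain ⟨F, hF⟩ := exists_minimal (edgeIdeal k G ^ q) (hom_of_isMono (isMono_pow k G q))
  rw [reg_eq (isMono_pow k G q) F hF]
  have hdeg := deg_ge F hF (2 * q) (by
    intro f hf e he hfe
    rw [Match.mem_pow] at hf
    by_contra hne
    obtain ⟨m, hm⟩ := (support_nonempty.2 hne)
    obtain ⟨m', hm', hle⟩ := hf m hm
    have h1 := degree_EV G q m' hm'
    have h2 : m'.degree ≤ m.degree := Finsupp.degree_mono hle
    have h3 : m.degree = e := by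
      by_contra hme
      exact mem_support_iff.1 hm (hfe.coeff_eq_zero hme)
    omega) 0
  have hpos : 0 < F.n 0 := by
    by_contra h0
    have h0' : F.n 0 = 0 := by omega
    have hz : ∀ f : Fin (F.n 0) → MvPolynomial V k, f = 0 := by
      intro f
      funext c
      exact absurd c.2 (by omega)
    have hmem : (X a * X b) ^ q ∈ edgeIdeal k G ^ q := by
      apply Ideal.pow_mem_pow
      exact Ideal.subset_span ⟨a, b, hab, rfl⟩
    rw [← F.range_ε] at hmem
    obtain ⟨f, hf⟩ := hmem
    rw [hz f, map_zero] at hf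
    have : (X a * X b : MvPolynomial V k) ^ q ≠ 0 :=
      pow_ne_zero _ (mul_ne_zero (X_ne_zero a) (X_ne_zero b))
    exact this hf.symm
  have h1 := hdeg ⟨0, hpos⟩
  have h2 : ((F.deg 0 ⟨0, hpos⟩ - 0 : ℕ) : ℕ∞) ≤ F.reg :=
    le_iSup₂ (f := fun (i : ℕ) (b : Fin (F.n i)) => ((F.deg i b - i : ℕ) : ℕ∞)) 0 ⟨0, hpos⟩
  refine le_trans ?_ h2
  have h3 : 2 * q ≤ F.deg 0 ⟨0, hpos⟩ - 0 := by omega
  exact_mod_cast h3

/-- Vanishing for the independence complexes in terms of the regularity. -/
theorem reg_le_iff_indep {G : SimpleGraph V} (hG : GapFree G) {t : ℕ} (ht : 2 ≤ t) :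
    reg (edgeIdeal k G) ≤ t ↔ ∀ Y : Finset V, Van k {S : Finset V | S ⊆ Y ∧ Indep G S} t := by
  have h1 : IsMono (edgeIdeal k G) := by
    have := isMono_pow k G 1
    rwa [pow_one] at this
  rw [reg_le_iff_van h1 (by omega)]
  constructor
  · intro h Y
    have := van_indep_of_pow (k := k) hG 1 t le_rfl (by omega)
      (by rw [pow_one]; exact h) Y
    exact this.mono (by omega)
  · intro h w U hU
    have := van_pow (k := k) hG 1 t (by omega) (fun Y => (h Y).mono (by omega)) w U hU
    rwa [pow_one] at this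

theorem reg_pow_le_iff {G : SimpleGraph V} (hG : GapFree G) {a b : V} (hab : G.Adj a b)
    {q t : ℕ} (hq : 1 ≤ q) :
    reg (edgeIdeal k G ^ q) ≤ t ↔ 2 * q ≤ t ∧ reg (edgeIdeal k G) ≤ ((t - q + 1 : ℕ) : ℕ∞) := by
  constructor
  · intro h
    have h1 : 2 * q ≤ t := by exact_mod_cast (two_mul_le_reg (k := k) hab q).trans h
    refine ⟨h1, ?_⟩
    rw [reg_le_iff_indep hG (by omega)]
    rw [reg_le_iff_van (isMono_pow k G q) (by omega)] at h
    exact van_indep_of_pow hG q t hq (by omega) h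
  · rintro ⟨h1, h2⟩
    rw [reg_le_iff_indep hG (by omega)] at h2
    rw [reg_le_iff_van (isMono_pow k G q) (by omega)]
    exact van_pow hG q t h1 h2

theorem reg_lt_top {G : SimpleGraph V} (hG : GapFree G) {a b : V} (hab : G.Adj a b) :
    reg (edgeIdeal k G) ≤ ((Fintype.card V + 1 : ℕ) : ℕ∞) := by
  have h1 : 0 < Fintype.card V := Fintype.card_pos_iff.2 ⟨a⟩
  rw [reg_le_iff_indep hG (by omega)]
  intro Y
  refine van_of_card fun S _ => ?_
  have := Finset.card_le_univ S
  omega

/-- The regularity of all powers of the edge ideal of a gap-free graph. -/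
theorem reg_pow {G : SimpleGraph V} (hG : GapFree G) {a b : V} (hab : G.Adj a b) {q : ℕ}
    (hq : 1 ≤ q) :
    reg (edgeIdeal k G ^ q) =
      max ((2 * q : ℕ) : ℕ∞) (((q - 1 : ℕ) : ℕ∞) + reg (edgeIdeal k G)) := by
  have htop := reg_lt_top (k := k) hG hab
  obtain ⟨r, hr⟩ := ENat.ne_top_iff_exists.1 (ne_top_of_le_ne_top (ENat.natCast_ne_top _) htop)
  have h2 : 2 ≤ r := by
    have := two_mul_le_reg (k := k) hab 1
    rw [pow_one, ← hr] at this
    exact_mod_cast this
  have key : ∀ t : ℕ, reg (edgeIdeal k G ^ q) ≤ t ↔ max (2 * q) (q - 1 + r) ≤ t := by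
    intro t
    rw [reg_pow_le_iff hG hab hq, ← hr, Nat.cast_le, max_le_iff]
    omega
  rw [← hr]
  have e1 : reg (edgeIdeal k G ^ q) ≤ ((max (2 * q) (q - 1 + r) : ℕ) : ℕ∞) := (key _).2 le_rfl
  obtain ⟨n, hn⟩ := ENat.ne_top_iff_exists.1 (ne_top_of_le_ne_top (ENat.natCast_ne_top _) e1)
  have e2 : max (2 * q) (q - 1 + r) ≤ n := (key n).1 (by rw [hn])
  have e3 : n ≤ max (2 * q) (q - 1 + r) := by rw [← hn] at e1; exact_mod_cast e1
  have e4 : n = max (2 * q) (q - 1 + r) := le_antisymm e3 e2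
  rw [← hn, e4]
  push_cast
  rfl

end Main

section Nu

variable {V : Type} [Fintype V]

theorem bddAbove_nu (G : SimpleGraph V) :
    BddAbove {n | ∃ M : Finset (Sym2 V), IsInducedMatching G M ∧ M.card = n} := by
  classical
  refine ⟨Fintype.card (Sym2 V), ?_⟩
  rintro n ⟨M, _, rfl⟩
  exact Finset.card_le_univ M

theorem gapFree_of_nu {G : SimpleGraph V} (h : nu G = 1) : GapFree G := by
  classical
  intro a b c d hab hcd
  by_contra hcon
  push Not at hcon
  obtain ⟨h1, h2, h3, h4, h5, h6, h7, h8⟩ := hcon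
  have hne : s(a, b) ≠ s(c, d) := by
    intro he
    rw [Sym2.eq_iff] at he
    rcases he with ⟨he, _⟩ | ⟨he, _⟩
    · exact h1 he
    · exact h2 he
  have hM : IsInducedMatching G {s(a, b), s(c, d)} := by
    constructor
    · intro e he
      rw [Finset.mem_insert, Finset.mem_singleton] at he
      rcases he with rfl | rfl
      · exact hab
      · exact hcd
    · intro e he f hf hef x hx y hy
      rw [Finset.mem_insert, Finset.mem_singleton] at he hf
      rcases he with rfl | rfl <;> rcases hf with rfl | rfl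
      · exact absurd rfl hef
      · rw [Sym2.mem_iff] at hx hy
        rcases hx with rfl | rfl <;> rcases hy with rfl | rfl
        · exact ⟨h1, h5⟩
        · exact ⟨h2, h6⟩
        · exact ⟨h3, h7⟩
        · exact ⟨h4, h8⟩
      · rw [Sym2.mem_iff] at hx hy
        rcases hx with rfl | rfl <;> rcases hy with rfl | rfl
        · exact ⟨Ne.symm h1, fun h => h5 h.symm⟩
        · exact ⟨Ne.symm h3, fun h => h7 h.symm⟩
        · exact ⟨Ne.symm h2, fun h => h6 h.symm⟩
        · exact ⟨Ne.symm h4, fun h => h8 h.symm⟩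
      · exact absurd rfl hef
  have h9 : 2 ≤ nu G := by
    unfold nu
    exact le_csSup (bddAbove_nu G) ⟨_, hM, Finset.card_pair hne⟩
  omega

theorem exists_edge_of_nu {G : SimpleGraph V} (h : nu G = 1) : ∃ a b, G.Adj a b := by
  have hne : {n | ∃ M : Finset (Sym2 V), IsInducedMatching G M ∧ M.card = n}.Nonempty :=
    ⟨0, ∅, ⟨by simp, by simp⟩, rfl⟩
  have hmem := Nat.sSup_mem hne (bddAbove_nu G)
  unfold nu at h
  rw [h] at hmem
  obtain ⟨M, hM, hcard⟩ := hmem
  obtain ⟨e, he⟩ := Finset.card_pos.1 (by omega : 0 < M.card)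
  have h1 := hM.1 e he
  induction e using Sym2.ind with
  | _ a b => exact ⟨a, b, h1⟩

end Nu

/-- Final form: all finite graphs with `ν(G) = 1`. -/
theorem reg_powers {V : Type} [Fintype V] {k : Type} [Field k] (G : SimpleGraph V)
    (hν : nu G = 1) :
    reg (edgeIdeal k G) < ⊤ ∧
    (∀ q : ℕ, 1 ≤ q → reg (edgeIdeal k G ^ q) =
      max ((2 * q : ℕ) : ℕ∞) (((q - 1 : ℕ) : ℕ∞) + reg (edgeIdeal k G))) ∧
    (∀ q : ℕ, reg (edgeIdeal k G) ≤ (q : ℕ∞) + 1 →
      reg (edgeIdeal k G ^ (q + 1)) = reg (edgeIdeal k G ^ q) + 2 ∧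
      reg (edgeIdeal k G ^ q) = 2 * (q : ℕ∞)) := by
  let _ : LinearOrder V := LinearOrder.lift' (Fintype.equivFin V) (Equiv.injective _)
  have hG := gapFree_of_nu hν
  obtain ⟨a, b, hab⟩ := exists_edge_of_nu hν
  have htop := reg_lt_top (k := k) hG hab
  have hpow : ∀ q : ℕ, 1 ≤ q → reg (edgeIdeal k G ^ q) =
      max ((2 * q : ℕ) : ℕ∞) (((q - 1 : ℕ) : ℕ∞) + reg (edgeIdeal k G)) :=
    fun q hq => reg_pow hG hab hq
  refine ⟨lt_of_le_of_lt htop (ENat.natCast_lt_top _), hpow, fun q hq => ?_⟩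
  obtain ⟨r, hr⟩ := ENat.ne_top_iff_exists.1 (ne_top_of_le_ne_top (ENat.natCast_ne_top _) htop)
  have h2 : 2 ≤ r := by
    have := two_mul_le_reg (k := k) hab 1
    rw [pow_one, ← hr] at this
    exact_mod_cast this
  have hrq : r ≤ q + 1 := by
    rw [← hr] at hq
    exact_mod_cast hq
  have e1 : reg (edgeIdeal k G ^ q) = ((2 * q : ℕ) : ℕ∞) := by
    rw [hpow q (by omega), ← hr, ← Nat.cast_add]
    exact max_eq_left (Nat.cast_le.2 (by omega))
  have e2 : reg (edgeIdeal k G ^ (q + 1)) = ((2 * (q + 1) : ℕ) : ℕ∞) := by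
    rw [hpow (q + 1) (by omega), ← hr, ← Nat.cast_add]
    exact max_eq_left (Nat.cast_le.2 (by omega))
  rw [e1, e2]
  constructor
  · push_cast; ring
  · push_cast; rfl

end Pool.Agent.Lib.MP_081cfe_al
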