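import Pool.Agent.Lib.MP_081cfe_al.Defs

/-!
# Induced matching number and Castelnuovo–Mumford regularity
-/

namespace Pool.Agent.Lib.MP_081cfe_al

open MvPolynomial

/-- An induced matching of `G`: a set of edges, no two of which share a vertex or are joined by
an edge. -/
def IsInducedMatching {V : Type} (G : SimpleGraph V) (M : Finset (Sym2 V)) : Prop :=
  (∀ e ∈ M, e ∈ G.edgeSet) ∧
    ∀ e ∈ M, ∀ f ∈ M, e ≠ f → ∀ a ∈ e, ∀ b ∈ f, a ≠ b ∧ ¬ G.Adj a b

/-- The induced matching number `ν(G)`. -/
noncomputable def nu {V : Type} (G : SimpleGraph V) : ℕ :=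
  sSup {n | ∃ M : Finset (Sym2 V), IsInducedMatching G M ∧ M.card = n}

/-- The number `max_i (t_i - i)` read off from the graded free resolution `F`, where `t_i` is the
largest degree of a basis element of `F_i` (the supremum is taken in `ℕ∞`). -/
noncomputable def GFR.reg {V : Type} {k : Type} [Field k] {J : Ideal (MvPolynomial V k)}
    (F : GFR J) : ℕ∞ :=
  ⨆ (i : ℕ) (b : Fin (F.n i)), ((F.deg i b - i : ℕ) : ℕ∞)

/-- The Castelnuovo–Mumford regularity of the ideal `J`, read off from the minimal graded free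
resolutions of `J`. -/
noncomputable def reg {V : Type} {k : Type} [Field k] (J : Ideal (MvPolynomial V k)) : ℕ∞ :=
  ⨆ (F : GFR J) (_ : F.IsMinimal), F.reg

end Pool.Agent.Lib.MP_081cfe_al
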